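import Pool.Agent.Lib_helper50.RP.Macbeath

open MeasureTheory Set Module
open scoped ENNReal Pointwise Topology

set_option linter.unusedSectionVars false

namespace RPoly

variable {E : Type*} [NormedAddCommGroup E] [NormedSpace ℝ E]

/-- blown-up Macbeath neighbourhood -/
def nbd (K : Set E) (z : E) : Set E := {x | (1/(2*(finrank ℝ E : ℝ)+1)) • (x - z) ∈ mac K z}

/-- shrunken Macbeath region -/
def core (K : Set E) (z : E) : Set E := {x | (5*(finrank ℝ E : ℝ)) • (x - z) ∈ mac K z}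

lemma mac_isClosed {K : Set E} (hK : IsClosed K) (z : E) : IsClosed (mac K z) := by
  have h1 : IsClosed {a : E | z + a ∈ K} := hK.preimage (by fun_prop)
  have h2 : IsClosed {a : E | z - a ∈ K} := hK.preimage (by fun_prop)
  exact h1.inter h2

lemma mac_isCompact {K : Set E} (hK : IsCompact K) (z : E) : IsCompact (mac K z) := by
  have h : IsCompact ((fun x => x - z) '' K) := hK.image (by fun_prop)
  refine h.of_isClosed_subset (mac_isClosed hK.isClosed z) ?_
  intro a ha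
  exact ⟨z + a, ha.1, by simp⟩

variable [MeasurableSpace E] [BorelSpace E] [FiniteDimensional ℝ E] (μ : Measure E)
  [μ.IsAddHaarMeasure]

lemma vol_scaled {s : ℝ} (hs : s ≠ 0) (z : E) (A : Set E) :
    μ {x | s • (x - z) ∈ A} = ENNReal.ofReal |(s ^ finrank ℝ E)⁻¹| * μ A := by
  have h1 : {x | s • (x - z) ∈ A} = (fun x => x + (-z)) ⁻¹' ((fun x => s • x) ⁻¹' A) := by
    ext x; simp [sub_eq_add_neg]
  rw [h1, measure_preimage_add_right, Measure.addHaar_preimage_smul μ hs]

lemma vol_nbd (K : Set E) (z : E) :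
    μ (nbd K z) = ENNReal.ofReal ((2*(finrank ℝ E : ℝ)+1)^(finrank ℝ E)) * μ (mac K z) := by
  unfold nbd
  rw [vol_scaled μ (by positivity)]
  congr 2
  rw [abs_of_nonneg (by positivity)]
  rw [one_div, inv_pow, inv_inv]

lemma vol_core (hd : 0 < finrank ℝ E) (K : Set E) (z : E) :
    μ (core K z) = ENNReal.ofReal (((5*(finrank ℝ E : ℝ))^(finrank ℝ E))⁻¹) * μ (mac K z) := by
  unfold core
  have hd' : (0:ℝ) < finrank ℝ E := by exact_mod_cast hd
  rw [vol_scaled μ (by positivity)]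
  congr 2
  rw [abs_of_nonneg (by positivity)]

lemma core_subset {K : Set E} (hd : 0 < finrank ℝ E) (hK : Convex ℝ K) (z : E) :
    core K z ⊆ K := by
  intro x hx
  have hd' : (1:ℝ) ≤ finrank ℝ E := by exact_mod_cast hd
  have h := mac_smul hK hx (s := 1/(5*(finrank ℝ E : ℝ))) (by
    rw [abs_of_nonneg (by positivity), div_le_one (by positivity)]; linarith)
  rw [smul_smul, one_div, inv_mul_cancel₀ (by positivity), one_smul] at h
  have := h.1
  rwa [add_sub_cancel] at this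

/-- Cap averaging lemma. -/
theorem cap_average {K : Set E} (hK : Convex ℝ K) (hc : IsCompact K)
    (hint : (interior K).Nonempty) (hd : 0 < finrank ℝ E)
    (ℓ : E →L[ℝ] ℝ) (c : ℝ) (hex : ∃ y ∈ K, c < ℓ y) (G : E → ℝ≥0∞)
    (hG : ∀ z ∈ K, (∀ y ∈ K, c ≤ ℓ y → y ∈ nbd K z) → (∀ y ∈ core K z, c < ℓ y) → 1 ≤ G z) :
    1 ≤ ENNReal.ofReal ((4*(finrank ℝ E : ℝ))^(finrank ℝ E)) *
      ∫⁻ z in K, G z * (μ (mac K z))⁻¹ ∂μ := by
  have hd' : (0:ℝ) < finrank ℝ E := by exact_mod_cast hd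
  obtain ⟨z, hzK, hcap, hz⟩ := cap_geometry hK hc ℓ c hex hd
  set D : ℝ := (finrank ℝ E : ℝ) with hD
  set A := mac K z with hA
  have hAc : IsCompact A := mac_isCompact hc z
  -- positivity of the volume of `A`
  have hApos : 0 < μ A := by
    have hopen : IsOpen (interior K ∩ {y | c < ℓ y}) :=
      isOpen_interior.inter (isOpen_lt continuous_const ℓ.continuous)
    have hne : (interior K ∩ {y | c < ℓ y}).Nonempty := by
      obtain ⟨y, hy, hyc⟩ := hex
      have h1 : y ∈ closure (interior K) := by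
        rw [hK.closure_interior_eq_closure_of_nonempty_interior hint]
        exact subset_closure hy
      obtain ⟨w, hw1, hw2⟩ := mem_closure_iff.mp h1 {y | c < ℓ y}
        (isOpen_lt continuous_const ℓ.continuous) hyc
      exact ⟨w, hw2, hw1⟩
    have hpos := hopen.measure_pos μ hne
    have hsub : interior K ∩ {y | c < ℓ y} ⊆ {x | (1/D) • (x - z) ∈ A} := by
      intro y hy
      exact hcap y (interior_subset hy.1) (le_of_lt hy.2)
    have h2 := hpos.trans_le (measure_mono hsub)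
    rw [vol_scaled μ (by positivity)] at h2
    by_contra h
    have h3 : μ A = 0 := by simpa using h
    rw [h3, mul_zero] at h2
    exact lt_irrefl _ h2
  have hAfin : μ A < ∞ := hAc.measure_lt_top
  set S : Set E := {x | (2*D) • (x - z) ∈ A} with hS
  have hSvol : μ S = ENNReal.ofReal (((2*D)^(finrank ℝ E))⁻¹) * μ A := by
    rw [hS, vol_scaled μ (by positivity), abs_of_nonneg (by positivity)]
  have hSmeas : MeasurableSet S := by
    have : IsClosed S := hAc.isClosed.preimage (by fun_prop)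
    exact this.measurableSet
  have hform : ∀ x ∈ S, x = z + (1/(2*D)) • ((2*D) • (x - z)) := by
    intro x _
    rw [smul_smul, one_div, inv_mul_cancel₀ (by positivity), one_smul, add_sub_cancel]
  have hSK : S ⊆ K := by
    intro x hx
    rw [hform x hx]
    exact (hz _ hx).1
  have hbound : ∀ x ∈ S, (ENNReal.ofReal (2^(finrank ℝ E)) * μ A)⁻¹ ≤ G x * (μ (mac K x))⁻¹ := by
    intro x hx
    obtain ⟨h1, h2, h3, h4⟩ := hz _ hx
    rw [← hform x hx] at h1 h2 h3 h4
    have hGx : 1 ≤ G x := hG x h1 h3 h4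
    have hvol : μ (mac K x) ≤ ENNReal.ofReal (2^(finrank ℝ E)) * μ A := by
      have hsub : mac K x ⊆ {a | (1/2:ℝ) • (a - 0) ∈ A} := by
        intro a ha
        simpa using h2 a ha
      refine (measure_mono hsub).trans ?_
      rw [vol_scaled μ (by norm_num), abs_of_nonneg (by positivity)]
      rw [one_div, inv_pow, inv_inv]
    calc (ENNReal.ofReal (2^(finrank ℝ E)) * μ A)⁻¹ ≤ (μ (mac K x))⁻¹ := ENNReal.inv_le_inv.mpr hvol
      _ = 1 * (μ (mac K x))⁻¹ := (one_mul _).symm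
      _ ≤ G x * (μ (mac K x))⁻¹ := mul_le_mul_left hGx _
  have hint' : μ S * (ENNReal.ofReal (2^(finrank ℝ E)) * μ A)⁻¹ ≤
      ∫⁻ z in K, G z * (μ (mac K z))⁻¹ ∂μ := by
    calc μ S * (ENNReal.ofReal (2^(finrank ℝ E)) * μ A)⁻¹
        = ∫⁻ x in S, (ENNReal.ofReal (2^(finrank ℝ E)) * μ A)⁻¹ ∂μ := by
          rw [setLIntegral_const, mul_comm]
      _ ≤ ∫⁻ x in S, G x * (μ (mac K x))⁻¹ ∂μ := by
          apply setLIntegral_mono_ae' hSmeas
          exact Filter.Eventually.of_forall hbound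
      _ ≤ ∫⁻ x in K, G x * (μ (mac K x))⁻¹ ∂μ := lintegral_mono_set hSK
  refine le_trans ?_ (mul_le_mul_right hint' _)
  rw [hSvol]
  rw [ENNReal.mul_inv (Or.inl (by simp)) (Or.inl (by simp))]
  have e1 : ENNReal.ofReal ((4 * D) ^ finrank ℝ E) *
      (ENNReal.ofReal ((2 * D) ^ finrank ℝ E)⁻¹ * μ A *
        ((ENNReal.ofReal (2 ^ finrank ℝ E))⁻¹ * (μ A)⁻¹)) =
      (ENNReal.ofReal ((4 * D) ^ finrank ℝ E) * ENNReal.ofReal ((2 * D) ^ finrank ℝ E)⁻¹ *
        (ENNReal.ofReal (2 ^ finrank ℝ E))⁻¹) * (μ A * (μ A)⁻¹) := by ring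
  rw [e1, ENNReal.mul_inv_cancel hApos.ne' hAfin.ne, mul_one,
    ← ENNReal.ofReal_mul (by positivity), ← ENNReal.ofReal_inv_of_pos (by positivity),
    ← ENNReal.ofReal_mul (by positivity)]
  have e2 : (4 * D) ^ finrank ℝ E * ((2 * D) ^ finrank ℝ E)⁻¹ * (2 ^ finrank ℝ E)⁻¹ = 1 := by
    rw [← inv_pow, ← inv_pow, ← mul_pow, ← mul_pow]
    have : 4 * D * (2 * D)⁻¹ * 2⁻¹ = 1 := by field_simp; norm_num
    rw [this, one_pow]
  rw [e2]; simp

end RPoly
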