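import Mathlib

open MeasureTheory Set Module Filter
open scoped ENNReal Topology NNReal

set_option linter.unusedSectionVars false

namespace RPoly

/-- comparison of integrals from comparison of superlevel sets -/
lemma lintegral_le_of_superlevel {Ω Ω' : Type*} [MeasurableSpace Ω] [MeasurableSpace Ω']
    (P : Measure Ω) (Q : Measure Ω') (C : ℝ≥0∞) (G : Ω → ℝ≥0∞) (H : Ω' → ℝ≥0∞)
    (hG : Measurable G) (hH : Measurable H) (hGfin : ∀ x, G x ≠ ∞) (hHfin : ∀ x, H x ≠ ∞)
    (h : ∀ u : ℝ, 0 < u → P {x | u < (G x).toReal} ≤ C * Q {x | u < (H x).toReal})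
    (hC : C ≠ ∞) :
    ∫⁻ x, G x ∂P ≤ C * ∫⁻ x, H x ∂Q := by
  have h1 : ∫⁻ x, G x ∂P = ∫⁻ x, ENNReal.ofReal ((G x).toReal) ∂P := by
    apply lintegral_congr; intro x; rw [ENNReal.ofReal_toReal (hGfin x)]
  have h2 : ∫⁻ x, H x ∂Q = ∫⁻ x, ENNReal.ofReal ((H x).toReal) ∂Q := by
    apply lintegral_congr; intro x; rw [ENNReal.ofReal_toReal (hHfin x)]
  rw [h1, h2, lintegral_eq_lintegral_meas_lt P (Eventually.of_forall fun x => ENNReal.toReal_nonneg)
    hG.ennreal_toReal.aemeasurable, lintegral_eq_lintegral_meas_lt Q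
    (Eventually.of_forall fun x => ENNReal.toReal_nonneg) hH.ennreal_toReal.aemeasurable,
    ← lintegral_const_mul' _ _ hC]
  apply setLIntegral_mono_ae' measurableSet_Ioi
  exact Eventually.of_forall fun u hu => h u hu

/-- comparison on lower sets of `ℝ` -/
lemma lowerSet_le (P Q : Measure ℝ) [IsFiniteMeasure P] (C : ℝ≥0∞)
    (h : ∀ s, P (Iic s) ≤ C * Q (Iic s)) {L : Set ℝ} (hL : IsLowerSet L) :
    P L ≤ C * Q L := by
  have hm : MeasurableSet L := hL.ordConnected.measurableSet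
  rw [hm.measure_eq_iSup_isCompact]
  refine iSup_le fun K => iSup_le fun hKL => iSup_le fun hKc => ?_
  rcases K.eq_empty_or_nonempty with rfl | hne
  · simp
  · obtain ⟨m, hm1, hm2⟩ := hKc.exists_isGreatest hne
    have h1 : K ⊆ Iic m := fun x hx => hm2 hx
    have h2 : Iic m ⊆ L := fun x hx => hL hx (hKL hm1)
    calc P K ≤ P (Iic m) := measure_mono h1
      _ ≤ C * Q (Iic m) := h m
      _ ≤ C * Q L := by gcongr

lemma lintegral_antitone_le (P Q : Measure ℝ) [IsFiniteMeasure P] (C : ℝ≥0∞) (hC : C ≠ ∞)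
    (h : ∀ s, P (Iic s) ≤ C * Q (Iic s)) {G : ℝ → ℝ≥0∞} (hG : Antitone G) (hfin : ∀ x, G x ≠ ∞) :
    ∫⁻ x, G x ∂P ≤ C * ∫⁻ x, G x ∂Q := by
  apply lintegral_le_of_superlevel P Q C G G hG.measurable hG.measurable hfin hfin _ hC
  intro u _
  apply lowerSet_le P Q C h
  intro a b hba ha
  have ha' : u < (G a).toReal := ha
  exact ha'.trans_le (ENNReal.toReal_mono (hfin b) (hG hba))

theorem lintegral_pi_le : ∀ (m : ℕ) (P Q : Fin m → Measure ℝ) (_ : ∀ i, IsFiniteMeasure (P i))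
    (_ : ∀ i, IsFiniteMeasure (Q i)) (C : Fin m → ℝ≥0∞) (_ : ∀ i, C i ≠ ∞)
    (_ : ∀ i s, P i (Iic s) ≤ C i * Q i (Iic s)) (G : (Fin m → ℝ) → ℝ≥0∞) (_ : Antitone G)
    (_ : Measurable G) (_ : ∀ x, G x ≤ 1),
    ∫⁻ x, G x ∂(Measure.pi P) ≤ (∏ i, C i) * ∫⁻ x, G x ∂(Measure.pi Q) := by
  intro m
  induction m with
  | zero =>
    intro P Q _ _ C _ _ G _ _ _
    have : Measure.pi P = Measure.pi Q := by
      congr; ext i; exact i.elim0
    rw [this]; simp
  | succ m ih =>
    intro P Q hP hQ C hC h G hG hGm hG1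
    have hPs := (measurePreserving_piFinSuccAbove P 0).symm
    have hQs := (measurePreserving_piFinSuccAbove Q 0).symm
    set e := (MeasurableEquiv.piFinSuccAbove (fun _ : Fin (m+1) => ℝ) 0).symm with he
    have he' : ∀ (x : ℝ) (y : Fin m → ℝ), e (x, y) = Fin.cons x y := by
      intro x y
      ext i
      refine Fin.cases ?_ (fun j => ?_) i
      · simp [he, MeasurableEquiv.piFinSuccAbove]
      · simp [he, MeasurableEquiv.piFinSuccAbove]
    have hcons : ∀ {x x' : ℝ} {y y' : Fin m → ℝ}, x ≤ x' → y ≤ y' →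
        (Fin.cons x y : Fin (m+1) → ℝ) ≤ Fin.cons x' y' := by
      intro x x' y y' hx hy i
      refine Fin.cases ?_ (fun j => ?_) i
      · simpa using hx
      · simpa using hy j
    have hGe : Measurable fun p : ℝ × (Fin m → ℝ) => G (e p) := hGm.comp e.measurable
    have eP : ∫⁻ x, G x ∂(Measure.pi P) =
        ∫⁻ x, ∫⁻ y, G (Fin.cons x y) ∂(Measure.pi fun j : Fin m => P j.succ) ∂(P 0) := by
      rw [← hPs.lintegral_comp hGm]
      rw [lintegral_prod _ hGe.aemeasurable]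
      simp only [he']
      rfl
    have eQ : ∫⁻ x, G x ∂(Measure.pi Q) =
        ∫⁻ x, ∫⁻ y, G (Fin.cons x y) ∂(Measure.pi fun j : Fin m => Q j.succ) ∂(Q 0) := by
      rw [← hQs.lintegral_comp hGm]
      rw [lintegral_prod _ hGe.aemeasurable]
      simp only [he']
      rfl
    rw [eP, eQ]
    have hconsm : ∀ x : ℝ, Measurable fun y : Fin m → ℝ => G (Fin.cons x y) := by
      intro x
      have := hGe.comp (measurable_prodMk_left (x := x))
      simpa only [Function.comp_def, he'] using this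
    have step1 : ∀ x : ℝ, ∫⁻ y, G (Fin.cons x y) ∂(Measure.pi fun j : Fin m => P j.succ) ≤
        (∏ j : Fin m, C j.succ) * ∫⁻ y, G (Fin.cons x y) ∂(Measure.pi fun j : Fin m => Q j.succ) := by
      intro x
      apply ih (fun j => P j.succ) (fun j => Q j.succ) (fun j => hP _) (fun j => hQ _)
        (fun j => C j.succ) (fun j => hC _) (fun j s => h _ s) (fun y => G (Fin.cons x y))
      · intro y y' hy
        exact hG (hcons le_rfl hy)
      · exact hconsm x
      · intro y; exact hG1 _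
    have hprod : (∏ j : Fin m, C j.succ) ≠ ∞ := ENNReal.prod_ne_top fun j _ => hC _
    set H : ℝ → ℝ≥0∞ := fun x => ∫⁻ y, G (Fin.cons x y) ∂(Measure.pi fun j : Fin m => Q j.succ)
      with hH
    have hHanti : Antitone H := by
      intro x x' hx
      apply lintegral_mono
      intro y
      exact hG (hcons hx le_rfl)
    have hHfin : ∀ x, H x ≠ ∞ := by
      intro x
      apply ne_of_lt
      calc H x ≤ ∫⁻ _, 1 ∂(Measure.pi fun j : Fin m => Q j.succ) := lintegral_mono fun y => hG1 _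
        _ = (Measure.pi fun j : Fin m => Q j.succ) univ := by rw [lintegral_one]
        _ < ∞ := measure_lt_top _ _
    calc ∫⁻ x, ∫⁻ y, G (Fin.cons x y) ∂(Measure.pi fun j : Fin m => P j.succ) ∂(P 0)
        ≤ ∫⁻ x, (∏ j : Fin m, C j.succ) * H x ∂(P 0) := lintegral_mono step1
      _ = (∏ j : Fin m, C j.succ) * ∫⁻ x, H x ∂(P 0) := lintegral_const_mul' _ _ hprod
      _ ≤ (∏ j : Fin m, C j.succ) * (C 0 * ∫⁻ x, H x ∂(Q 0)) := by
          gcongr
          exact lintegral_antitone_le (P 0) (Q 0) (C 0) (hC 0) (h 0) hHanti hHfin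
      _ = (∏ i, C i) * ∫⁻ x, H x ∂(Q 0) := by
          rw [Fin.prod_univ_succ]; ring

/-- The model law: the law of `(√v)^(d+1)` for `v` uniform in `[0,1]`. -/
noncomputable def modelQ (d : ℕ) : Measure ℝ :=
  (volume.restrict (Icc (0:ℝ) 1)).map fun v => (Real.sqrt v)^(d+1)

lemma modelQ_meas (d : ℕ) : Measurable fun v : ℝ => (Real.sqrt v)^(d+1) :=
  (measurable_id.sqrt).pow_const _

instance modelQ_prob (d : ℕ) : IsProbabilityMeasure (modelQ d) := by
  have : IsProbabilityMeasure (volume.restrict (Icc (0:ℝ) 1)) := by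
    constructor
    rw [Measure.restrict_apply_univ, Real.volume_Icc]; norm_num
  exact Measure.isProbabilityMeasure_map (modelQ_meas d).aemeasurable

lemma modelQ_Iic_pow (d : ℕ) {σ : ℝ} (hσ : 0 ≤ σ) :
    modelQ d (Iic (σ^(d+1))) = ENNReal.ofReal (min 1 (σ^2)) := by
  unfold modelQ
  rw [Measure.map_apply (modelQ_meas d) measurableSet_Iic,
    Measure.restrict_apply ((modelQ_meas d) measurableSet_Iic)]
  have : (fun v : ℝ => (Real.sqrt v)^(d+1)) ⁻¹' (Iic (σ^(d+1))) ∩ Icc 0 1 = Icc 0 (min 1 (σ^2)) := by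
    ext v
    simp only [mem_inter_iff, mem_preimage, mem_Iic, mem_Icc, le_min_iff]
    constructor
    · rintro ⟨h1, h2, h3⟩
      refine ⟨h2, h3, ?_⟩
      have h4 : Real.sqrt v ≤ σ := (pow_le_pow_iff_left₀ (Real.sqrt_nonneg v) hσ (by omega)).mp h1
      calc v = (Real.sqrt v)^2 := (Real.sq_sqrt h2).symm
        _ ≤ σ^2 := by gcongr
    · rintro ⟨h1, h2, h3⟩
      refine ⟨?_, h1, h2⟩
      have h4 : Real.sqrt v ≤ σ := by
        rw [Real.sqrt_le_left hσ]; exact h3
      gcongr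
  rw [this, Real.volume_Icc, sub_zero]

lemma modelQ_Iic_nonpos (d : ℕ) {s : ℝ} (hs : s ≤ 0) : modelQ d (Iic s) = 0 := by
  refine le_antisymm ?_ zero_le
  calc modelQ d (Iic s) ≤ modelQ d (Iic ((0:ℝ)^(d+1))) := by
        apply measure_mono
        rw [zero_pow (by omega)]
        exact Iic_subset_Iic.mpr hs
    _ = 0 := by rw [modelQ_Iic_pow d le_rfl]; simp

lemma modelQ_ae (d : ℕ) : ∀ᵐ s ∂(modelQ d), 0 ≤ s ∧ s ≤ 1 := by
  unfold modelQ
  rw [ae_map_iff (modelQ_meas d).aemeasurable measurableSet_Icc]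
  rw [ae_restrict_iff' measurableSet_Icc]
  apply Eventually.of_forall
  intro v hv
  refine ⟨by positivity, ?_⟩
  apply pow_le_one₀ (Real.sqrt_nonneg _)
  rw [Real.sqrt_le_left zero_le_one]
  simpa using hv.2

lemma exists_root (d : ℕ) {s : ℝ} (hs : 0 < s) : ∃ σ : ℝ, 0 < σ ∧ σ^(d+1) = s := by
  refine ⟨s ^ (((d+1 : ℕ) : ℝ)⁻¹), Real.rpow_pos_of_pos hs _, ?_⟩
  exact Real.rpow_inv_natCast_pow hs.le (by omega)

/-- upper comparison with the model -/
lemma le_model (d : ℕ) (P : Measure ℝ) {C : ℝ} (hC : 0 < C) (h0 : ∀ s < 0, P (Iic s) = 0)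
    (h : ∀ σ, 0 < σ → P (Iic (σ^(d+1))) ≤ ENNReal.ofReal (C * min 1 (σ^2))) (s : ℝ) :
    P (Iic s) ≤ ENNReal.ofReal C * modelQ d (Iic s) := by
  rcases lt_trichotomy s 0 with hs | rfl | hs
  · rw [h0 s hs]; exact zero_le
  · have : P (Iic 0) = 0 := by
      refine le_antisymm ?_ zero_le
      refine ENNReal.le_of_forall_pos_le_add ?_
      intro ε hε _
      rw [zero_add]
      set σ := min 1 ((ε:ℝ)/(C+1)) with hσ
      have hε' : (0:ℝ) < ε := hε
      have hσ0 : 0 < σ := lt_min one_pos (by positivity)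
      have hσ1 : σ ≤ 1 := min_le_left _ _
      calc P (Iic 0) ≤ P (Iic (σ^(d+1))) := measure_mono (Iic_subset_Iic.mpr (by positivity))
        _ ≤ ENNReal.ofReal (C * min 1 (σ^2)) := h σ hσ0
        _ ≤ ENNReal.ofReal (ε:ℝ) := by
            apply ENNReal.ofReal_le_ofReal
            calc C * min 1 (σ^2) ≤ C * σ := by
                  gcongr
                  exact (min_le_right _ _).trans (by nlinarith)
              _ ≤ (C+1) * (ε/(C+1)) := by
                  apply mul_le_mul (by linarith) (min_le_right _ _) hσ0.le (by positivity)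
              _ = ε := by field_simp
        _ = (ε : ℝ≥0∞) := ENNReal.ofReal_coe_nnreal
    rw [this]; exact zero_le
  · obtain ⟨σ, hσ, rfl⟩ := exists_root d hs
    rw [modelQ_Iic_pow d hσ.le, ← ENNReal.ofReal_mul hC.le]
    exact h σ hσ

/-- lower comparison with the model -/
lemma model_le (d : ℕ) (P : Measure ℝ) {c : ℝ} (hc : 0 < c)
    (h : ∀ σ, 0 < σ → ENNReal.ofReal (c * min 1 (σ^2)) ≤ P (Iic (σ^(d+1)))) (s : ℝ) :
    modelQ d (Iic s) ≤ ENNReal.ofReal (1/c) * P (Iic s) := by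
  rcases le_or_gt s 0 with hs | hs
  · rw [modelQ_Iic_nonpos d hs]; exact zero_le
  · obtain ⟨σ, hσ, rfl⟩ := exists_root d hs
    rw [modelQ_Iic_pow d hσ.le]
    calc ENNReal.ofReal (min 1 (σ^2)) = ENNReal.ofReal (1/c) * ENNReal.ofReal (c * min 1 (σ^2)) := by
          rw [← ENNReal.ofReal_mul (by positivity)]
          congr 1; field_simp
      _ ≤ _ := by gcongr; exact h σ hσ

end RPoly
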