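import Mathlib

/-!
# Random polytopes: definitions

* `unif μ K` is the uniform probability distribution on `K`, `samp μ K n` the law of `n`
  independent uniform points of `K` (as a function `Fin n → E`).
* `faces j P` is the set of `j`-dimensional faces of `P`, `fcount j P` their number.
* `expFaces j K n = 𝔼 f_j(P_n(K))`, `expDeficit K n = Vol(K) - 𝔼 Vol(P_n(K))`.
* `FacesIntegrable`, `VolIntegrable` say that the random variables in these expectations are
  integrable.
* `ballProd d` is the product of unit balls.
* `IsSmoothBody K`: `K` is a convex body whose boundary is twice differentiable with strictly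
  positive curvature.
* `SameOrder a b` is the relation `a_n ≍ b_n`.
-/

open MeasureTheory Set Module Filter
open scoped Topology

namespace RPoly

/-- The uniform probability distribution on `K` with respect to the reference measure `μ`. -/
noncomputable def unif {E : Type*} [MeasurableSpace E] (μ : Measure E) (K : Set E) : Measure E :=
  (μ K)⁻¹ • μ.restrict K

/-- The law of `n` independent uniform points of `K`. -/
noncomputable def samp {E : Type*} [MeasurableSpace E] (μ : Measure E) (K : Set E) (n : ℕ) :
    Measure (Fin n → E) :=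
  Measure.pi fun _ => unif μ K

/-- The `j`-dimensional faces of `P`: nonempty exposed subsets of dimension `j` (for a polytope
these are exactly its `j`-dimensional faces). -/
def faces {E : Type*} [NormedAddCommGroup E] [NormedSpace ℝ E] (j : ℕ) (P : Set E) :
    Set (Set E) :=
  {F | F.Nonempty ∧ IsExposed ℝ P F ∧ finrank ℝ (vectorSpan ℝ F) = j}

/-- The number of `j`-dimensional faces of `P`. -/
noncomputable def fcount {E : Type*} [NormedAddCommGroup E] [NormedSpace ℝ E]
    (j : ℕ) (P : Set E) : ℕ := (faces j P).ncard

/-- `K` is a convex body (compact, convex, nonempty interior) whose boundary is twice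
differentiable with strictly positive Gaussian curvature: near every boundary point `p`, the body
is a sublevel set `{F ≤ 0}` of a function `F` which is differentiable near `p` and twice
differentiable at `p`, with `DF(p) ≠ 0`, and `D²F(p)` is positive definite on the tangent space
`ker DF(p)` (i.e. all principal curvatures at `p` are positive). -/
structure IsSmoothBody {E : Type*} [NormedAddCommGroup E] [NormedSpace ℝ E] (K : Set E) :
    Prop where
  compact : IsCompact K
  convex : Convex ℝ K
  interior_nonempty : (interior K).Nonempty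
  boundary : ∀ p ∈ frontier K, ∃ F : E → ℝ,
    (∀ᶠ x in 𝓝 p, DifferentiableAt ℝ F x) ∧
    DifferentiableAt ℝ (fderiv ℝ F) p ∧
    fderiv ℝ F p ≠ 0 ∧
    (∀ v, v ≠ 0 → fderiv ℝ F p v = 0 → 0 < fderiv ℝ (fderiv ℝ F) p v v) ∧
    ∀ᶠ x in 𝓝 p, (x ∈ K ↔ F x ≤ 0)

/-- `𝔼 f_j(P_n(K))`, the expected number of `j`-dimensional faces of the convex hull of `n`
independent uniform points of `K`. -/
noncomputable def expFaces {E : Type*} [NormedAddCommGroup E] [NormedSpace ℝ E] [MeasureSpace E]
    (j : ℕ) (K : Set E) (n : ℕ) : ℝ :=
  ∫ X, (fcount j (convexHull ℝ (range X)) : ℝ) ∂(samp volume K n)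

/-- `Vol(K) - 𝔼 Vol(P_n(K))`. -/
noncomputable def expDeficit {E : Type*} [NormedAddCommGroup E] [NormedSpace ℝ E] [MeasureSpace E]
    (K : Set E) (n : ℕ) : ℝ :=
  (volume K).toReal - ∫ X, (volume (convexHull ℝ (range X))).toReal ∂(samp volume K n)

/-- The number of `j`-dimensional faces of `P_n(K)` is an integrable random variable. -/
def FacesIntegrable {E : Type*} [NormedAddCommGroup E] [NormedSpace ℝ E] [MeasureSpace E]
    (j : ℕ) (K : Set E) (n : ℕ) : Prop :=
  Integrable (fun X : Fin n → E => (fcount j (convexHull ℝ (range X)) : ℝ)) (samp volume K n)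

/-- The volume of `P_n(K)` is an integrable random variable. -/
def VolIntegrable {E : Type*} [NormedAddCommGroup E] [NormedSpace ℝ E] [MeasureSpace E]
    (K : Set E) (n : ℕ) : Prop :=
  Integrable (fun X : Fin n → E => (volume (convexHull ℝ (range X))).toReal) (samp volume K n)

/-- The product `B_2^{d_1} × ... × B_2^{d_m}` of closed Euclidean unit balls. -/
def ballProd {m : ℕ} (d : Fin m → ℕ) : Set (∀ i, EuclideanSpace ℝ (Fin (d i))) :=
  Set.pi univ fun i => Metric.closedBall (0 : EuclideanSpace ℝ (Fin (d i))) 1

/-- `a_n ≍ b_n` as `n → ∞`. -/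
def SameOrder (a b : ℕ → ℝ) : Prop :=
  ∃ c C : ℝ, 0 < c ∧ c ≤ C ∧ ∃ n₀ : ℕ, ∀ n ≥ n₀, c * b n ≤ a n ∧ a n ≤ C * b n

end RPoly
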