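import Pool.Agent.Lib_helper50.RP.Product

open MeasureTheory Set Module Filter
open scoped ENNReal Pointwise Topology NNReal

set_option linter.unusedSectionVars false

namespace RPoly

/-- product of positive parts -/
noncomputable def pp {m : ℕ} (s : Fin m → ℝ) : ℝ := ∏ i, max (s i) 0

lemma pp_nonneg {m : ℕ} (s : Fin m → ℝ) : 0 ≤ pp s := Finset.prod_nonneg fun _ _ => le_max_right _ _

lemma pp_mono {m : ℕ} {s t : Fin m → ℝ} (h : s ≤ t) : pp s ≤ pp t := by
  unfold pp
  apply Finset.prod_le_prod (fun _ _ => le_max_right _ _)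
  intro i _
  exact max_le_max (h i) le_rfl

lemma pp_meas {m : ℕ} : Measurable (pp : (Fin m → ℝ) → ℝ) := by
  unfold pp
  apply Finset.measurable_fun_prod
  intro i _
  exact (measurable_pi_apply i).max measurable_const

lemma pp_of_nonneg {m : ℕ} {s : Fin m → ℝ} (h : ∀ i, 0 ≤ s i) : pp s = ∏ i, s i := by
  unfold pp
  apply Finset.prod_congr rfl
  intro i _
  exact max_eq_left (h i)

/-- the model integral -/
noncomputable def modelJ {m : ℕ} (d : Fin m → ℕ) (n : ℕ) : ℝ≥0∞ :=
  ∫⁻ s, ENNReal.ofReal (Real.exp (-(n * pp s))) ∂(Measure.pi fun i => modelQ (d i))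

lemma modelJ_le {m : ℕ} (d : Fin m → ℕ) (n : ℕ) : modelJ d n ≤ 1 := by
  calc modelJ d n ≤ ∫⁻ _, 1 ∂(Measure.pi fun i => modelQ (d i)) := by
        apply lintegral_mono
        intro s
        rw [ENNReal.ofReal_le_one, Real.exp_le_one_iff]
        have := pp_nonneg s
        have h2 : (0:ℝ) ≤ n := Nat.cast_nonneg n
        nlinarith
    _ = 1 := by rw [lintegral_one, measure_univ]

lemma modelJ_pos {m : ℕ} (d : Fin m → ℕ) (n : ℕ) : 0 < modelJ d n := by
  unfold modelJ
  rw [lintegral_pos_iff_support]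
  · have : Function.support (fun s : Fin m → ℝ => ENNReal.ofReal (Real.exp (-(n * pp s)))) = univ := by
      ext s
      simp [Real.exp_pos]
    rw [this, measure_univ]; exact one_pos
  · exact ((pp_meas.const_mul _).neg.exp).ennreal_ofReal

variable {m : ℕ} {E : Fin m → Type*} [∀ i, NormedAddCommGroup (E i)] [∀ i, NormedSpace ℝ (E i)]
  [∀ i, MeasureSpace (E i)] [∀ i, BorelSpace (E i)] [∀ i, FiniteDimensional ℝ (E i)]
  [∀ i, (volume : Measure (E i)).IsAddHaarMeasure]

theorem model_upper (hm : 0 < m) {K : ∀ i, Set (E i)} (hK : ∀ i, IsBody (K i))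
    (hd : ∀ i, 0 < finrank ℝ (E i)) {κ : ℝ} (hκ : 0 < κ) :
    ∃ C > (0:ℝ), ∀ n : ℕ,
      ∫⁻ z in Set.pi univ K, ENNReal.ofReal (Real.exp (-(n * (κ * macR volume (Set.pi univ K) z)))) ≤
        ENNReal.ofReal C * modelJ (fun i => finrank ℝ (E i)) n := by
  classical
  choose C₀ hC₀ hwet using fun i => wet_upper (volume : Measure (E i)) (hK i) (hd i)
  set i₀ : Fin m := ⟨0, hm⟩ with hi₀
  set k : Fin m → ℝ := fun i => if i = i₀ then min 1 κ else 1 with hk
  have hk0 : ∀ i, 0 < k i := by
    intro i; simp only [hk]; split_ifs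
    · exact lt_min one_pos hκ
    · exact one_pos
  have hk1 : ∀ i, k i ≤ 1 := by
    intro i; simp only [hk]; split_ifs
    · exact min_le_left _ _
    · exact le_rfl
  have hkprod : ∏ i, (k i)^(finrank ℝ (E i) + 1) ≤ κ := by
    have h1 : ∏ i, (k i)^(finrank ℝ (E i) + 1) ≤ (k i₀)^(finrank ℝ (E i₀) + 1) := by
      rw [← Finset.mul_prod_erase Finset.univ _ (Finset.mem_univ i₀)]
      apply mul_le_of_le_one_right (by have := hk0 i₀; positivity)
      apply Finset.prod_le_one
      · intro i _; have := hk0 i; positivity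
      · intro i _; exact pow_le_one₀ (hk0 i).le (hk1 i)
    calc _ ≤ (k i₀)^(finrank ℝ (E i₀) + 1) := h1
      _ ≤ (k i₀)^1 := pow_le_pow_of_le_one (hk0 i₀).le (hk1 i₀) (by omega)
      _ ≤ κ := by rw [pow_one]; simp only [hk, if_true]; exact min_le_right _ _
  set a : ∀ i, E i → ℝ := fun i x => (k i)^(finrank ℝ (E i) + 1) * macR volume (K i) x with ha
  have ham : ∀ i, Measurable (a i) := fun i => (measurable_macR volume (hK i)).const_mul _
  have ha0 : ∀ i x, 0 ≤ a i x := fun i x =>
    mul_nonneg (pow_nonneg (hk0 i).le _) (macR_nonneg _ _ _)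
  set C : Fin m → ℝ := fun i => C₀ i / (k i)^2 with hC
  have hCpos : ∀ i, 0 < C i := fun i => div_pos (hC₀ i) (by have := hk0 i; positivity)
  have hcmp : ∀ i s, lawOf (K i) (a i) (Iic s) ≤
      ENNReal.ofReal (C i) * modelQ (finrank ℝ (E i)) (Iic s) := by
    intro i s
    apply le_model _ _ (hCpos i)
    · intro s hs
      rw [lawOf_apply (ham i)]
      have : {x ∈ K i | a i x ≤ s} = ∅ := by
        ext x
        simp only [mem_ofPred_eq, mem_empty_iff_false, iff_false, not_and, not_le]
        intro _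
        exact hs.trans_le (ha0 i x)
      rw [this, measure_empty]
    · intro σ hσ
      rw [lawOf_apply (ham i)]
      have e1 : {x ∈ K i | a i x ≤ σ^(finrank ℝ (E i) + 1)} =
          {x ∈ K i | macR volume (K i) x ≤ (σ / k i)^(finrank ℝ (E i) + 1)} := by
        ext x
        simp only [mem_ofPred_eq, ha]
        rw [div_pow, le_div_iff₀ (pow_pos (hk0 i) _), mul_comm]
      rw [e1]
      refine (hwet i _ (div_pos hσ (hk0 i))).trans ?_
      apply ENNReal.ofReal_le_ofReal
      have h2 : min 1 ((σ / k i)^2) ≤ 1/(k i)^2 * min 1 (σ^2) := by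
        have h3 : 1 ≤ 1/(k i)^2 := by
          rw [le_div_iff₀ (by have := hk0 i; positivity), one_mul]
          exact pow_le_one₀ (hk0 i).le (hk1 i)
        rw [mul_min_of_nonneg _ _ (by positivity)]
        apply min_le_min
        · linarith
        · rw [div_pow]; apply le_of_eq; ring
      calc C₀ i * min 1 ((σ / k i)^2) ≤ C₀ i * (1/(k i)^2 * min 1 (σ^2)) := by
            have := hC₀ i
            gcongr
        _ = C i * min 1 (σ^2) := by rw [hC]; ring
  refine ⟨∏ i, C i, Finset.prod_pos fun i _ => hCpos i, fun n => ?_⟩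
  set G : (Fin m → ℝ) → ℝ≥0∞ := fun s => ENNReal.ofReal (Real.exp (-(n * pp s))) with hG
  have hGm : Measurable G := ((pp_meas.const_mul _).neg.exp).ennreal_ofReal
  have hn0 : (0:ℝ) ≤ n := Nat.cast_nonneg n
  have hGa : Antitone G := by
    intro s t hst
    apply ENNReal.ofReal_le_ofReal
    apply Real.exp_le_exp.mpr
    have := mul_le_mul_of_nonneg_left (pp_mono hst) hn0
    linarith
  have hG1 : ∀ s, G s ≤ 1 := by
    intro s
    rw [hG]
    simp only
    rw [ENNReal.ofReal_le_one, Real.exp_le_one_iff]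
    have := mul_nonneg hn0 (pp_nonneg s)
    linarith
  calc ∫⁻ z in Set.pi univ K, ENNReal.ofReal (Real.exp (-(n * (κ * macR volume (Set.pi univ K) z))))
      ≤ ∫⁻ z in Set.pi univ K, G (fun i => a i (z i)) := by
        apply lintegral_mono
        intro z
        apply ENNReal.ofReal_le_ofReal
        apply Real.exp_le_exp.mpr
        rw [macR_pi, pp_of_nonneg (fun i => ha0 i (z i))]
        have e : ∏ i, a i (z i) = (∏ i, (k i)^(finrank ℝ (E i) + 1)) * ∏ i, macR volume (K i) (z i) := by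
          simp only [ha]; rw [Finset.prod_mul_distrib]
        rw [e]
        have h1 : (∏ i, (k i)^(finrank ℝ (E i) + 1)) * ∏ i, macR volume (K i) (z i) ≤
            κ * ∏ i, macR volume (K i) (z i) :=
          mul_le_mul_of_nonneg_right hkprod (Finset.prod_nonneg fun i _ => macR_nonneg _ _ _)
        have := mul_le_mul_of_nonneg_left h1 hn0
        linarith
    _ = ∫⁻ s, G s ∂(Measure.pi fun i => lawOf (K i) (a i)) := lintegral_pi_law hK ham hGm
    _ ≤ (∏ i, ENNReal.ofReal (C i)) * ∫⁻ s, G s ∂(Measure.pi fun i => modelQ (finrank ℝ (E i))) :=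
        lintegral_pi_le m _ _ (fun i => lawOf_finite ((hK i).fin volume)) (fun i => inferInstance)
          (fun i => ENNReal.ofReal (C i)) (fun i => ENNReal.ofReal_ne_top) hcmp G hGa hGm hG1
    _ = _ := by
        rw [← ENNReal.ofReal_prod_of_nonneg fun i _ => (hCpos i).le]
        rfl

lemma half_ineq {y : ℝ} (h0 : 0 ≤ y) (h1 : y ≤ 1) (n : ℕ) :
    Real.exp (-(n * y)) ≤ (1 - 1/2 * y)^n := by
  have h2 : Real.exp (-y) ≤ 1 - 1/2 * y := by
    rw [Real.exp_neg, inv_le_comm₀ (Real.exp_pos _) (by linarith)]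
    have h3 := Real.add_one_le_exp y
    refine le_trans ?_ h3
    rw [inv_le_comm₀ (by linarith) (by linarith)]
    rw [← one_div, div_le_iff₀ (by linarith)]
    nlinarith
  have h3 : Real.exp (-(n * y)) = Real.exp (-y) ^ n := by
    rw [← Real.exp_nat_mul]; congr 1; ring
  rw [h3]
  exact pow_le_pow_left₀ (Real.exp_nonneg _) h2 n

theorem model_lower (hm : 0 < m) {K : ∀ i, Set (E i)} (hK : ∀ i, IsBody (K i))
    {w : ∀ i, E i → ℝ} (hw : ∀ i, WetLower volume (K i) m (w i)) {V : ℝ} (hV : 0 < V) :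
    ∃ c > (0:ℝ), ∀ n : ℕ,
      ENNReal.ofReal c * modelJ (fun i => finrank ℝ (E i)) n ≤
        ∫⁻ x in Set.pi univ K, (ENNReal.ofReal (1 - (∏ i, w i (x i)) / V))^n := by
  classical
  choose c₀ hc₀ hvol using fun i => (hw i).vol
  set i₀ : Fin m := ⟨0, hm⟩ with hi₀
  set k : Fin m → ℝ := fun i => if i = i₀ then min 1 (V/2) else 1 with hk
  have hk0 : ∀ i, 0 < k i := by
    intro i; simp only [hk]; split_ifs
    · exact lt_min one_pos (by positivity)
    · exact one_pos
  have hk1 : ∀ i, k i ≤ 1 := by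
    intro i; simp only [hk]; split_ifs
    · exact min_le_left _ _
    · exact le_rfl
  have hkprod : ∏ i, (k i)^(finrank ℝ (E i) + 1) ≤ V/2 := by
    have h1 : ∏ i, (k i)^(finrank ℝ (E i) + 1) ≤ (k i₀)^(finrank ℝ (E i₀) + 1) := by
      rw [← Finset.mul_prod_erase Finset.univ _ (Finset.mem_univ i₀)]
      apply mul_le_of_le_one_right (by have := hk0 i₀; positivity)
      apply Finset.prod_le_one
      · intro i _; have := hk0 i; positivity
      · intro i _; exact pow_le_one₀ (hk0 i).le (hk1 i)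
    calc _ ≤ (k i₀)^(finrank ℝ (E i₀) + 1) := h1
      _ ≤ (k i₀)^1 := pow_le_pow_of_le_one (hk0 i₀).le (hk1 i₀) (by omega)
      _ ≤ V/2 := by rw [pow_one]; simp only [hk, if_true]; exact min_le_right _ _
  have hkprodpos : 0 < ∏ i, (k i)^(finrank ℝ (E i) + 1) :=
    Finset.prod_pos fun i _ => pow_pos (hk0 i) _
  set a : ∀ i, E i → ℝ := fun i x => ((k i)^(finrank ℝ (E i) + 1))⁻¹ * w i x with ha
  have ham : ∀ i, Measurable (a i) := fun i => ((hw i).meas).const_mul _
  have ha0 : ∀ i x, 0 ≤ a i x := fun i x =>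
    mul_nonneg (inv_nonneg.mpr (pow_nonneg (hk0 i).le _)) ((hw i).nonneg _)
  set c : Fin m → ℝ := fun i => c₀ i * (k i)^2 with hc
  have hcpos : ∀ i, 0 < c i := fun i => mul_pos (hc₀ i) (by have := hk0 i; positivity)
  have hcmp : ∀ i s, modelQ (finrank ℝ (E i)) (Iic s) ≤
      ENNReal.ofReal (1 / c i) * lawOf (K i) (a i) (Iic s) := by
    intro i s
    apply model_le _ _ (hcpos i)
    intro σ hσ
    rw [lawOf_apply (ham i)]
    have e1 : {x ∈ K i | a i x ≤ σ^(finrank ℝ (E i) + 1)} =
        {x ∈ K i | w i x ≤ (k i * σ)^(finrank ℝ (E i) + 1)} := by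
      ext x
      simp only [mem_ofPred_eq, ha]
      rw [mul_pow, inv_mul_le_iff₀ (pow_pos (hk0 i) _)]
    rw [e1]
    refine le_trans ?_ (hvol i _ (mul_pos (hk0 i) hσ))
    apply ENNReal.ofReal_le_ofReal
    have h2 : (k i)^2 * min 1 (σ^2) ≤ min 1 ((k i * σ)^2) := by
      rw [mul_min_of_nonneg _ _ (by positivity)]
      apply min_le_min
      · rw [mul_one]; exact pow_le_one₀ (hk0 i).le (hk1 i)
      · rw [mul_pow]
    calc c i * min 1 (σ^2) = c₀ i * ((k i)^2 * min 1 (σ^2)) := by rw [hc]; ring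
      _ ≤ c₀ i * min 1 ((k i * σ)^2) := by
          have := hc₀ i
          gcongr
  refine ⟨∏ i, c i, Finset.prod_pos fun i _ => hcpos i, fun n => ?_⟩
  set G : (Fin m → ℝ) → ℝ≥0∞ := fun s => (ENNReal.ofReal (1 - 1/2 * pp s))^n with hG
  have hGm : Measurable G := ((measurable_const.sub (pp_meas.const_mul _)).ennreal_ofReal).pow_const _
  have hGa : Antitone G := by
    intro s t hst
    simp only [hG]
    gcongr
    have := pp_mono hst
    linarith
  have hG1 : ∀ s, G s ≤ 1 := by
    intro s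
    simp only [hG]
    apply pow_le_one₀ zero_le
    rw [ENNReal.ofReal_le_one]
    have := pp_nonneg s
    linarith
  have hJ : modelJ (fun i => finrank ℝ (E i)) n ≤
      ∫⁻ s, G s ∂(Measure.pi fun i => modelQ (finrank ℝ (E i))) := by
    unfold modelJ
    apply lintegral_mono_ae
    have hae : ∀ᵐ s ∂(Measure.pi fun i : Fin m => modelQ (finrank ℝ (E i))), ∀ i, 0 ≤ s i ∧ s i ≤ 1 := by
      rw [ae_all_iff]
      intro i
      exact (Measure.tendsto_eval_ae_ae (μ := fun i : Fin m => modelQ (finrank ℝ (E i)))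
        (i := i)).eventually (modelQ_ae (finrank ℝ (E i)))
    filter_upwards [hae] with s hs
    simp only [hG]
    have hpp1 : pp s ≤ 1 := by
      rw [pp_of_nonneg fun i => (hs i).1]
      exact Finset.prod_le_one (fun i _ => (hs i).1) (fun i _ => (hs i).2)
    rw [← ENNReal.ofReal_pow (by linarith)]
    apply ENNReal.ofReal_le_ofReal
    exact half_ineq (pp_nonneg s) hpp1 n
  have hmain : modelJ (fun i => finrank ℝ (E i)) n ≤ (∏ i, ENNReal.ofReal (1 / c i)) *
      ∫⁻ x in Set.pi univ K, (ENNReal.ofReal (1 - (∏ i, w i (x i)) / V))^n := by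
    calc modelJ (fun i => finrank ℝ (E i)) n
        ≤ ∫⁻ s, G s ∂(Measure.pi fun i => modelQ (finrank ℝ (E i))) := hJ
      _ ≤ (∏ i, ENNReal.ofReal (1 / c i)) * ∫⁻ s, G s ∂(Measure.pi fun i => lawOf (K i) (a i)) :=
          lintegral_pi_le m _ _ (fun i => inferInstance) (fun i => lawOf_finite ((hK i).fin volume))
            (fun i => ENNReal.ofReal (1 / c i)) (fun i => ENNReal.ofReal_ne_top) hcmp G hGa hGm hG1
      _ = (∏ i, ENNReal.ofReal (1 / c i)) * ∫⁻ z in Set.pi univ K, G (fun i => a i (z i)) := by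
          rw [lintegral_pi_law hK ham hGm]
      _ ≤ _ := by
          apply mul_le_mul_right
          apply lintegral_mono
          intro z
          simp only [hG]
          apply pow_le_pow_left₀ zero_le
          apply ENNReal.ofReal_le_ofReal
          rw [pp_of_nonneg (fun i => ha0 i (z i))]
          have e : ∏ i, a i (z i) = (∏ i, (k i)^(finrank ℝ (E i) + 1))⁻¹ * ∏ i, w i (z i) := by
            simp only [ha]; rw [Finset.prod_mul_distrib, Finset.prod_inv_distrib]
          rw [e]
          have hw0 : 0 ≤ ∏ i, w i (z i) := Finset.prod_nonneg fun i _ => (hw i).nonneg _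
          have h1 : (V/2)⁻¹ ≤ (∏ i, (k i)^(finrank ℝ (E i) + 1))⁻¹ := by
            rw [inv_le_inv₀ (by positivity) hkprodpos]; exact hkprod
          have h2 := mul_le_mul_of_nonneg_right h1 hw0
          have h3 : (V/2)⁻¹ * ∏ i, w i (z i) = 2 * ((∏ i, w i (z i)) / V) := by
            field_simp
          rw [h3] at h2
          linarith
  calc ENNReal.ofReal (∏ i, c i) * modelJ (fun i => finrank ℝ (E i)) n
      ≤ ENNReal.ofReal (∏ i, c i) * ((∏ i, ENNReal.ofReal (1 / c i)) *
      ∫⁻ x in Set.pi univ K, (ENNReal.ofReal (1 - (∏ i, w i (x i)) / V))^n) := by gcongr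
    _ = _ := by
        rw [← mul_assoc, ← ENNReal.ofReal_prod_of_nonneg fun i _ => (by
          have := hcpos i; positivity), ← ENNReal.ofReal_mul (Finset.prod_nonneg fun i _ => (hcpos i).le),
          ← Finset.prod_mul_distrib]
        have : ∏ i, c i * (1 / c i) = 1 := by
          apply Finset.prod_eq_one
          intro i _
          have := (hcpos i).ne'
          field_simp
        rw [this]; simp

end RPoly
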