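import Pool.Agent.Lib_helper50.RP.Final

open MeasureTheory Set Module Filter
open scoped ENNReal Pointwise Topology NNReal

set_option linter.unusedSectionVars false

namespace RPoly

section general
variable {E : Type*} [NormedAddCommGroup E] [NormedSpace ℝ E] [MeasureSpace E] [BorelSpace E]
  [FiniteDimensional ℝ E] [(volume : Measure E).IsAddHaarMeasure]

lemma measurable_volHull (n : ℕ) :
    Measurable fun X : Fin n → E => volume (convexHull ℝ (range X)) :=
  measurable_measure_prodMk_left (measurableSet_hull n)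

lemma measurable_volDiff {K : Set E} (hK : MeasurableSet K) (n : ℕ) :
    Measurable fun X : Fin n → E => volume (K \ convexHull ℝ (range X)) := by
  have : MeasurableSet {p : (Fin n → E) × E | p.2 ∈ K \ convexHull ℝ (range p.1)} :=
    (hK.preimage measurable_snd).diff (measurableSet_hull n)
  exact measurable_measure_prodMk_left this

lemma samp_prob {K : Set E} (hK : IsBody K) (n : ℕ) : IsProbabilityMeasure (samp volume K n) := by
  have := unif_prob (volume : Measure E) hK
  unfold samp; infer_instance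

lemma hull_subset_ae {K : Set E} (hK : IsBody K) (n : ℕ) :
    ∀ᵐ X ∂(samp volume K n), convexHull ℝ (range X) ⊆ K := by
  filter_upwards [samp_ae_interior volume hK n] with X hX
  apply convexHull_min _ hK.convex
  rintro _ ⟨i, rfl⟩
  exact interior_subset (hX i)

lemma volHull_integrable {K : Set E} (hK : IsBody K) (n : ℕ) :
    Integrable (fun X : Fin n → E => (volume (convexHull ℝ (range X))).toReal)
      (samp volume K n) := by
  have := samp_prob hK n
  apply Integrable.of_bound (measurable_volHull n).ennreal_toReal.aestronglyMeasurable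
    ((volume K).toReal)
  filter_upwards [hull_subset_ae hK n] with X hX
  rw [Real.norm_eq_abs, abs_of_nonneg ENNReal.toReal_nonneg]
  exact ENNReal.toReal_mono (hK.fin volume) (measure_mono hX)

lemma expDeficit_eq {K : Set E} (hK : IsBody K) (n : ℕ) :
    expDeficit K n = (∫⁻ X, volume (K \ convexHull ℝ (range X)) ∂(samp volume K n)).toReal := by
  have := samp_prob hK n
  have hKm : MeasurableSet K := hK.compact.isClosed.measurableSet
  unfold expDeficit
  rw [← integral_toReal (measurable_volDiff hKm n).aemeasurable (Eventually.of_forall fun X =>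
    (measure_mono sdiff_subset).trans_lt (hK.fin volume).lt_top)]
  have h1 : ∫ X, ((volume K).toReal - (volume (convexHull ℝ (range X))).toReal) ∂(samp volume K n) =
      (volume K).toReal - ∫ X, (volume (convexHull ℝ (range X))).toReal ∂(samp volume K n) := by
    rw [integral_sub (integrable_const _) (volHull_integrable hK n), integral_const, probReal_univ,
      one_smul]
  rw [← h1]
  apply integral_congr_ae
  filter_upwards [hull_subset_ae hK n] with X hX
  have hcl : MeasurableSet (convexHull ℝ (range X)) :=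
    ((finite_range X).isCompact_convexHull ℝ).isClosed.measurableSet
  have hfin : volume (convexHull ℝ (range X)) ≠ ∞ :=
    ((measure_mono hX).trans_lt (hK.fin volume).lt_top).ne
  rw [measure_sdiff hX hcl.nullMeasurableSet hfin, ENNReal.toReal_sub_of_le (measure_mono hX)
    (hK.fin volume)]

lemma expFaces_eq {K : Set E} (hK : IsBody K) {n : ℕ} (hn : finrank ℝ E + 1 ≤ n) {j : ℕ}
    (hj : j < finrank ℝ E) :
    expFaces j K n = (∫⁻ X, ((fcount j (convexHull ℝ (range X)) : ℕ) : ℝ≥0∞)
      ∂(samp volume K n)).toReal := by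
  unfold expFaces
  rw [← integral_toReal (fcount_aemeasurable volume hK hn hj)
    (Eventually.of_forall fun X => ENNReal.natCast_lt_top _)]
  simp

lemma faces_integrable {K : Set E} (hK : IsBody K) {n : ℕ} (hn : finrank ℝ E + 1 ≤ n) {j : ℕ}
    (hj : j < finrank ℝ E) :
    Integrable (fun X : Fin n → E => (fcount j (convexHull ℝ (range X)) : ℝ))
      (samp volume K n) := by
  have := samp_prob hK n
  have hm : AEStronglyMeasurable (fun X : Fin n → E => (fcount j (convexHull ℝ (range X)) : ℝ))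
      (samp volume K n) := by
    have h1 := (fcount_aemeasurable volume hK hn hj).ennreal_toReal
    have h2 : (fun X : Fin n → E => (((fcount j (convexHull ℝ (range X)) : ℕ) : ℝ≥0∞)).toReal) =
        fun X : Fin n → E => (fcount j (convexHull ℝ (range X)) : ℝ) := by
      ext X; simp
    rw [h2] at h1
    exact h1.aestronglyMeasurable
  apply Integrable.of_bound hm (((Finset.powersetCard (j+1) (Finset.univ : Finset (Fin n))).card : ℕ) : ℝ)
  filter_upwards [fcount_ae volume hK hn hj] with X hX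
  rw [Real.norm_natCast]
  have h1 : ((fcount j (convexHull ℝ (range X)) : ℕ) : ℝ≥0∞) ≤
      (((Finset.powersetCard (j+1) (Finset.univ : Finset (Fin n))).card : ℕ) : ℝ≥0∞) := by
    rw [hX]
    calc ∑ J ∈ Finset.powersetCard (j+1) (Finset.univ : Finset (Fin n)),
        {X : Fin n → E | SExp J X}.indicator (1 : (Fin n → E) → ℝ≥0∞) X
        ≤ ∑ J ∈ Finset.powersetCard (j+1) (Finset.univ : Finset (Fin n)), 1 := by
          apply Finset.sum_le_sum
          intro J _
          exact Set.indicator_le_self' (fun _ _ => zero_le) X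
      _ = _ := by simp
  exact_mod_cast h1

lemma sameOrder_of {a b x : ℕ → ℝ} {c₁ C₁ c₂ C₂ : ℝ} (hc₁ : 0 < c₁) (hC₁ : 0 < C₁) (hc₂ : 0 < c₂)
    (hC₂ : 0 < C₂) {N : ℕ} (hx : ∀ n ≥ N, 0 ≤ x n)
    (h : ∀ n ≥ N, c₁ * x n ≤ a n ∧ a n ≤ C₁ * x n ∧ c₂ * x n ≤ b n ∧ b n ≤ C₂ * x n) :
    SameOrder a b := by
  refine ⟨c₁ / C₂, max (C₁ / c₂) (c₁ / C₂), by positivity, le_max_right _ _, N, fun n hn => ?_⟩
  obtain ⟨h1, h2, h3, h4⟩ := h n hn
  have hxn := hx n hn
  have hb : 0 ≤ b n := (mul_nonneg hc₂.le hxn).trans h3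
  constructor
  · calc c₁ / C₂ * b n ≤ c₁ / C₂ * (C₂ * x n) := by gcongr
      _ = c₁ * x n := by field_simp
      _ ≤ a n := h1
  · calc a n ≤ C₁ * x n := h2
      _ = C₁ / c₂ * (c₂ * x n) := by field_simp
      _ ≤ C₁ / c₂ * b n := by gcongr
      _ ≤ _ := mul_le_mul_of_nonneg_right (le_max_left _ _) hb

end general

variable {m : ℕ} {E : Fin m → Type*} [∀ i, NormedAddCommGroup (E i)] [∀ i, NormedSpace ℝ (E i)]
  [∀ i, MeasureSpace (E i)] [∀ i, BorelSpace (E i)] [∀ i, FiniteDimensional ℝ (E i)]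
  [∀ i, (volume : Measure (E i)).IsAddHaarMeasure]

lemma finrank_pi_pos (hm : 0 < m) (hd : ∀ i, 0 < finrank ℝ (E i)) :
    0 < finrank ℝ (∀ i, E i) := by
  rw [Module.finrank_pi_fintype]
  exact Finset.sum_pos (fun i _ => hd i) ⟨⟨0, hm⟩, Finset.mem_univ _⟩

/-- two-sided bound for the expected volume deficit of a product body -/
theorem deficit_model (hm : 0 < m) {K : ∀ i, Set (E i)} (hK : ∀ i, IsSmoothBody (K i))
    (hd : ∀ i, 0 < finrank ℝ (E i)) :
    ∃ c > (0:ℝ), ∃ C > (0:ℝ), ∀ n : ℕ, 0 < n →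
      c * (modelJ (fun i => finrank ℝ (E i)) n).toReal ≤ expDeficit (Set.pi univ K) n ∧
      expDeficit (Set.pi univ K) n ≤ C * (modelJ (fun i => finrank ℝ (E i)) n).toReal := by
  have hB : ∀ i, IsBody (K i) := fun i => (hK i).isBody
  have hP := body_pi hB
  have hfr := finrank_pi_pos hm hd
  choose w hw using fun i => exists_wetLower (volume : Measure (E i)) (hK i) (hd i)
    (M := (m:ℝ)) (by exact_mod_cast hm)
  obtain ⟨C, hC, κ, hκ, hup⟩ := deficit_upper (volume : Measure (∀ i, E i)) hP hfr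
  obtain ⟨C', hC', hup'⟩ := model_upper hm hB hd hκ
  obtain ⟨c, hc, hlo⟩ := model_lower hm hB hw (V := (volume (Set.pi univ K)).toReal)
    (toReal_pos volume hP)
  refine ⟨c, hc, C * C', by positivity, fun n hn => ?_⟩
  rw [expDeficit_eq hP n]
  set J := modelJ (fun i => finrank ℝ (E i)) n with hJ
  have hJfin : J ≠ ∞ := ((modelJ_le _ n).trans_lt ENNReal.one_lt_top).ne
  set I := ∫⁻ X, volume (Set.pi univ K \ convexHull ℝ (range X)) ∂(samp volume (Set.pi univ K) n)
  have hu : I ≤ ENNReal.ofReal (C * C') * J := by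
    rw [ENNReal.ofReal_mul hC.le, mul_assoc]
    exact (hup n hn).trans (mul_le_mul_right (hup' n) _)
  have hl : ENNReal.ofReal c * J ≤ I :=
    (hlo n).trans (deficit_lower volume hP (capBound_pi hw) n)
  have hufin : ENNReal.ofReal (C * C') * J ≠ ∞ := ENNReal.mul_ne_top ENNReal.ofReal_ne_top hJfin
  have hIfin : I ≠ ∞ := (hu.trans_lt hufin.lt_top).ne
  constructor
  · have := ENNReal.toReal_mono hIfin hl
    rwa [ENNReal.toReal_mul, ENNReal.toReal_ofReal hc.le] at this
  · have := ENNReal.toReal_mono hufin hu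
    rwa [ENNReal.toReal_mul, ENNReal.toReal_ofReal (by positivity)] at this

/-- two-sided bound for the expected face numbers of a product body -/
theorem faces_model (hm : 0 < m) {K : ∀ i, Set (E i)} (hK : ∀ i, IsSmoothBody (K i))
    (hd : ∀ i, 0 < finrank ℝ (E i)) {j : ℕ} (hj : j < finrank ℝ (∀ i, E i)) :
    ∃ c > (0:ℝ), ∃ C > (0:ℝ), ∀ n : ℕ, finrank ℝ (∀ i, E i) + 1 ≤ n →
      c * (n * (modelJ (fun i => finrank ℝ (E i)) n).toReal) ≤ expFaces j (Set.pi univ K) n ∧
      expFaces j (Set.pi univ K) n ≤ C * (n * (modelJ (fun i => finrank ℝ (E i)) n).toReal) := by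
  have hB : ∀ i, IsBody (K i) := fun i => (hK i).isBody
  have hP := body_pi hB
  choose w hw using fun i => exists_wetLower (volume : Measure (E i)) (hK i) (hd i)
    (M := (m:ℝ)) (by exact_mod_cast hm)
  obtain ⟨C, hC, κ, hκ, hup⟩ := face_upper (volume : Measure (∀ i, E i)) hP hj
  obtain ⟨C', hC', hup'⟩ := model_upper hm hB hd hκ
  obtain ⟨c', hc', hlo'⟩ := face_lower (volume : Measure (∀ i, E i)) hP (capBound_pi hw) hj
  obtain ⟨c, hc, hlo⟩ := model_lower hm hB hw (V := (volume (Set.pi univ K)).toReal)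
    (toReal_pos volume hP)
  refine ⟨c' * c, by positivity, C * C', by positivity, fun n hn => ?_⟩
  rw [expFaces_eq hP hn hj]
  set J := modelJ (fun i => finrank ℝ (E i)) n with hJ
  have hJfin : J ≠ ∞ := ((modelJ_le _ n).trans_lt ENNReal.one_lt_top).ne
  set I := ∫⁻ X, ((fcount j (convexHull ℝ (range X)) : ℕ) : ℝ≥0∞) ∂(samp volume (Set.pi univ K) n)
  have hn0 : (0:ℝ) ≤ n := Nat.cast_nonneg n
  have hu : I ≤ ENNReal.ofReal (C * n * C') * J := by
    rw [ENNReal.ofReal_mul (by positivity), mul_assoc]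
    exact (hup n hn).trans (mul_le_mul_right (hup' n) _)
  have hl : ENNReal.ofReal (c' * n * c) * J ≤ I := by
    rw [ENNReal.ofReal_mul (by positivity), mul_assoc]
    exact (mul_le_mul_right (hlo n) _).trans (hlo' n hn)
  have hufin : ENNReal.ofReal (C * n * C') * J ≠ ∞ := ENNReal.mul_ne_top ENNReal.ofReal_ne_top hJfin
  have hIfin : I ≠ ∞ := (hu.trans_lt hufin.lt_top).ne
  constructor
  · have := ENNReal.toReal_mono hIfin hl
    rw [ENNReal.toReal_mul, ENNReal.toReal_ofReal (by positivity)] at this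
    calc c' * c * (n * J.toReal) = c' * n * c * J.toReal := by ring
      _ ≤ _ := this
  · have := ENNReal.toReal_mono hufin hu
    rw [ENNReal.toReal_mul, ENNReal.toReal_ofReal (by positivity)] at this
    calc I.toReal ≤ C * n * C' * J.toReal := this
      _ = _ := by ring

/-- General comparison theorem for two families of smooth bodies. -/
theorem compare_families (hm : 0 < m) {K K' : ∀ i, Set (E i)} (hK : ∀ i, IsSmoothBody (K i))
    (hK' : ∀ i, IsSmoothBody (K' i)) (hd : ∀ i, 0 < finrank ℝ (E i)) :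
    (∀ j < finrank ℝ (∀ i, E i), SameOrder (expFaces j (Set.pi univ K)) (expFaces j (Set.pi univ K'))) ∧
    SameOrder (expDeficit (Set.pi univ K)) (expDeficit (Set.pi univ K')) := by
  constructor
  · intro j hj
    obtain ⟨c₁, hc₁, C₁, hC₁, h₁⟩ := faces_model hm hK hd hj
    obtain ⟨c₂, hc₂, C₂, hC₂, h₂⟩ := faces_model hm hK' hd hj
    refine sameOrder_of hc₁ hC₁ hc₂ hC₂ (N := finrank ℝ (∀ i, E i) + 1)
      (x := fun n => n * (modelJ (fun i => finrank ℝ (E i)) n).toReal) ?_ ?_
    · intro n _
      exact mul_nonneg (Nat.cast_nonneg n) ENNReal.toReal_nonneg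
    · intro n hn
      exact ⟨(h₁ n hn).1, (h₁ n hn).2, (h₂ n hn).1, (h₂ n hn).2⟩
  · obtain ⟨c₁, hc₁, C₁, hC₁, h₁⟩ := deficit_model hm hK hd
    obtain ⟨c₂, hc₂, C₂, hC₂, h₂⟩ := deficit_model hm hK' hd
    refine sameOrder_of hc₁ hC₁ hc₂ hC₂ (N := 1)
      (x := fun n => (modelJ (fun i => finrank ℝ (E i)) n).toReal) ?_ ?_
    · intro n _
      exact ENNReal.toReal_nonneg
    · intro n hn
      exact ⟨(h₁ n hn).1, (h₁ n hn).2, (h₂ n hn).1, (h₂ n hn).2⟩

/-- The Euclidean unit ball is a smooth body. -/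
theorem ball_smooth {F : Type*} [NormedAddCommGroup F] [InnerProductSpace ℝ F]
    [FiniteDimensional ℝ F] : IsSmoothBody (Metric.closedBall (0:F) 1) where
  compact := isCompact_closedBall _ _
  convex := convex_closedBall _ _
  interior_nonempty := ⟨0, by
    apply mem_interior_iff_mem_nhds.mpr
    exact Metric.closedBall_mem_nhds 0 one_pos⟩
  boundary := by
    intro p hp
    rw [frontier_closedBall _ one_ne_zero, mem_sphere_zero_iff_norm] at hp
    have hder : ∀ x : F, HasFDerivAt (fun x : F => ‖x‖^2 - 1) (2 • (innerSL ℝ x)) x := by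
      intro x
      exact (hasStrictFDerivAt_norm_sq x).hasFDerivAt.sub_const 1
    have hfd : fderiv ℝ (fun x : F => ‖x‖^2 - 1) = fun x => (2:ℕ) • (innerSL ℝ x) := by
      ext1 x; exact (hder x).fderiv
    have hsec : HasFDerivAt (fun x : F => (2:ℕ) • (innerSL ℝ x)) ((2:ℕ) • (innerSL ℝ : F →L[ℝ] F →L[ℝ] ℝ)) p :=
      ((2:ℕ) • (innerSL ℝ : F →L[ℝ] F →L[ℝ] ℝ)).hasFDerivAt
    refine ⟨fun x => ‖x‖^2 - 1, Eventually.of_forall fun x => (hder x).differentiableAt, ?_, ?_, ?_, ?_⟩
    · rw [hfd]; exact hsec.differentiableAt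
    · rw [hfd]
      intro h
      have := congrArg (fun L : F →L[ℝ] ℝ => L p) h
      simp only [smul_apply, innerSL_apply_apply, zero_apply] at this
      rw [real_inner_self_eq_norm_sq, hp] at this
      norm_num at this
    · intro v hv _
      rw [hfd, hsec.fderiv]
      have e : ((innerSL ℝ) v) v = ‖v‖^2 := real_inner_self_eq_norm_sq v
      have h2 : 0 < ‖v‖^2 := by positivity
      simp only [smul_apply]
      rw [← e] at h2
      exact nsmul_pos h2 (by norm_num)
    · apply Eventually.of_forall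
      intro x
      rw [mem_closedBall_zero_iff]
      constructor
      · intro h
        have := norm_nonneg x
        show ‖x‖^2 - 1 ≤ 0
        nlinarith
      · intro h
        have h' : ‖x‖^2 - 1 ≤ 0 := h
        nlinarith [norm_nonneg x]

end RPoly
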