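import Pool.Agent.Lib_helper50.RP.Upper2

open MeasureTheory Set Module
open scoped ENNReal Pointwise Topology NNReal

set_option linter.unusedSectionVars false

namespace RPoly

variable {E : Type*} [NormedAddCommGroup E] [NormedSpace ℝ E]

/-- second difference of the gauge -/
noncomputable def d2 (K : Set E) (z y : E) : ℝ := gauge K (z + y) + gauge K (z - y) - 2 * gauge K z

section basic

variable {K : Set E} (hK : Convex ℝ K) {r : ℝ} (hr : 0 < r) (hball : Metric.ball 0 r ⊆ K)

include hr hball in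
lemma absorbent_of_ball : Absorbent ℝ K :=
  absorbent_nhds_zero (Filter.mem_of_superset (Metric.ball_mem_nhds 0 hr) hball)

include hr hball in
lemma nhds_of_ball : K ∈ 𝓝 (0:E) :=
  Filter.mem_of_superset (Metric.ball_mem_nhds 0 hr) hball

include hK hr hball

lemma gauge_add_le' (x y : E) : gauge K (x + y) ≤ gauge K x + gauge K y :=
  gauge_add_le hK (absorbent_of_ball hr hball) x y

lemma gauge_lip (x y : E) : |gauge K x - gauge K y| ≤ ‖x - y‖ / r := by
  have h := hK.lipschitzWith_gauge (r := ⟨r, hr.le⟩) (by exact hr) (by exact hball)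
  have h2 := h.dist_le_mul x y
  rw [Real.dist_eq, dist_eq_norm] at h2
  have : ((⟨r, hr.le⟩ : ℝ≥0)⁻¹ : ℝ≥0) = (r⁻¹ : ℝ) := rfl
  rw [this] at h2
  rw [div_eq_inv_mul]
  exact h2

lemma gauge_smul' {a : ℝ} (ha : 0 ≤ a) (x : E) : gauge K (a • x) = a * gauge K x := by
  rw [gauge_smul_of_nonneg ha, smul_eq_mul]

lemma mem_iff_gauge (hc : IsClosed K) (x : E) : x ∈ K ↔ gauge K x ≤ 1 := by
  rw [gauge_le_one_iff_mem_closure hK (nhds_of_ball hr hball), hc.closure_eq]

lemma d2_nonneg (z y : E) : 0 ≤ d2 K z y := by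
  unfold d2
  have h1 : gauge K ((2:ℝ) • z) = 2 * gauge K z := gauge_smul' hK hr hball (by norm_num) z
  have h2 := gauge_add_le' hK hr hball (z + y) (z - y)
  have h3 : (z + y) + (z - y) = (2:ℝ) • z := by module
  rw [h3, h1] at h2
  linarith

lemma d2_smul {a : ℝ} (ha : 0 ≤ a) (z y : E) : d2 K (a • z) (a • y) = a * d2 K z y := by
  unfold d2
  rw [← smul_add, ← smul_sub, gauge_smul' hK hr hball ha, gauge_smul' hK hr hball ha,
    gauge_smul' hK hr hball ha]
  ring

lemma d2_mul_le {θ : ℝ} (h0 : 0 ≤ θ) (h1 : θ ≤ 1) (z y : E) : d2 K z (θ • y) ≤ θ * d2 K z y := by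
  unfold d2
  have e1 : z + θ • y = (1 - θ) • z + θ • (z + y) := by module
  have e2 : z - θ • y = (1 - θ) • z + θ • (z - y) := by module
  have h2 := gauge_add_le' hK hr hball ((1 - θ) • z) (θ • (z + y))
  have h3 := gauge_add_le' hK hr hball ((1 - θ) • z) (θ • (z - y))
  rw [gauge_smul' hK hr hball (by linarith), gauge_smul' hK hr hball h0] at h2 h3
  rw [e1, e2]
  linarith

lemma d2_le (z y : E) : d2 K z y ≤ 2 * (‖y‖ / r) := by
  unfold d2
  have h1 := (abs_le.mp (gauge_lip hK hr hball (z + y) z)).2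
  have h2 := (abs_le.mp (gauge_lip hK hr hball (z - y) z)).2
  rw [add_sub_cancel_left] at h1
  rw [sub_sub_cancel_left, norm_neg] at h2
  linarith

/-- For `y` with small second difference, a long interval of `η` satisfies `z ± (y + η z) ∈ K`. -/
lemma interval_bound (hc : IsClosed K) {z y : E} {t : ℝ} (hz : gauge K z = 1 - t) (ht0 : 0 < t)
    (ht : t ≤ 1/8) (hy : ‖y‖ ≤ r/8) (hS : d2 K z ((2:ℝ) • y) ≤ t) :
    ENNReal.ofReal t ≤
      volume {η : ℝ | η ∈ Icc (-(1/2):ℝ) (1/2) ∧ y + η • z ∈ mac K z} := by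
  set γ := gauge K z with hγ
  set a1 := gauge K (z + (2:ℝ) • y) with ha1
  set a2 := gauge K (z - (2:ℝ) • y) with ha2
  have hγ0 : 7/8 ≤ γ := by rw [hz]; linarith
  have hsum : a1 + a2 ≤ 2 * γ + t := by
    unfold d2 at hS; linarith
  have hb1 := abs_le.mp (gauge_lip hK hr hball (z + (2:ℝ) • y) z)
  have hb2 := abs_le.mp (gauge_lip hK hr hball (z - (2:ℝ) • y) z)
  have hn : ‖(2:ℝ) • y‖ / r ≤ 1/4 := by
    rw [norm_smul, Real.norm_eq_abs, abs_of_pos (by norm_num : (0:ℝ) < 2), div_le_iff₀ hr]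
    linarith
  rw [add_sub_cancel_left] at hb1
  rw [sub_sub_cancel_left, norm_neg] at hb2
  set lo := ((a2 + γ)/2 - 1)/γ with hlo
  set hi := (1 - (a1 + γ)/2)/γ with hhi
  have hγpos : 0 < γ := by linarith
  have hlo2 : -(1/2) ≤ lo := by
    rw [hlo, le_div_iff₀ hγpos]; linarith [hb2.1]
  have hhi2 : hi ≤ 1/2 := by
    rw [hhi, div_le_iff₀ hγpos]; linarith [hb1.1]
  have hlen : t ≤ hi - lo := by
    rw [hhi, hlo, ← sub_div, le_div_iff₀ hγpos]
    nlinarith
  have hsub : Icc lo hi ⊆ {η : ℝ | η ∈ Icc (-(1/2):ℝ) (1/2) ∧ y + η • z ∈ mac K z} := by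
    rintro η ⟨h1, h2⟩
    have h1' : (a2 + γ)/2 - 1 ≤ η * γ := by
      rw [hlo, div_le_iff₀ hγpos] at h1; exact h1
    have h2' : η * γ ≤ 1 - (a1 + γ)/2 := by
      rw [hhi, le_div_iff₀ hγpos] at h2; exact h2
    refine ⟨⟨by linarith, by linarith⟩, ?_, ?_⟩
    · rw [mem_iff_gauge hK hr hball hc]
      have e : z + (y + η • z) = (1/2:ℝ) • (z + (2:ℝ) • y) + ((1/2 + η):ℝ) • z := by module
      rw [e]
      refine (gauge_add_le' hK hr hball _ _).trans ?_
      rw [gauge_smul' hK hr hball (by norm_num), gauge_smul' hK hr hball (by linarith)]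
      linarith
    · rw [mem_iff_gauge hK hr hball hc]
      have e : z - (y + η • z) = (1/2:ℝ) • (z - (2:ℝ) • y) + ((1/2 - η):ℝ) • z := by module
      rw [e]
      refine (gauge_add_le' hK hr hball _ _).trans ?_
      rw [gauge_smul' hK hr hball (by norm_num), gauge_smul' hK hr hball (by linarith)]
      linarith
  calc ENNReal.ofReal t ≤ ENNReal.ofReal (hi - lo) := ENNReal.ofReal_le_ofReal hlen
    _ = volume (Icc lo hi) := (Real.volume_Icc).symm
    _ ≤ _ := measure_mono hsub

end basic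

variable [MeasurableSpace E] [BorelSpace E] [FiniteDimensional ℝ E] (μ : Measure E)
  [μ.IsAddHaarMeasure]

lemma line_bound {z : E} (hz : z ≠ 0) (w : E) {h : ℝ} :
    volume {η : ℝ | ‖w - η • z‖ ≤ h} ≤ ENNReal.ofReal (2 * h / ‖z‖) := by
  refine (Real.volume_le_diam _).trans ?_
  apply Metric.ediam_le
  intro a ha b hb
  rw [edist_dist]
  apply ENNReal.ofReal_le_ofReal
  have hz' : 0 < ‖z‖ := norm_pos_iff.mpr hz
  rw [le_div_iff₀ hz', Real.dist_eq]
  have h1 : |a - b| * ‖z‖ = ‖(a - b) • z‖ := by rw [norm_smul, Real.norm_eq_abs]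
  rw [h1]
  have h2 : (a - b) • z = (w - b • z) - (w - a • z) := by module
  rw [h2]
  refine (norm_sub_le _ _).trans ?_
  have ha' : ‖w - a • z‖ ≤ h := ha
  have hb' : ‖w - b • z‖ ≤ h := hb
  linarith

/-- Lower bound for the Macbeath region via lines parallel to `z`. -/
theorem mac_lower {K : Set E} (hK : Convex ℝ K) (hc : IsClosed K) {r : ℝ} (hr : 0 < r)
    (hball : Metric.ball 0 r ⊆ K) {z : E} {t h : ℝ} (hz : gauge K z = 1 - t) (ht0 : 0 < t)
    (ht : t ≤ 1/8) (hhr : h ≤ r/8) :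
    ENNReal.ofReal t * μ {y | ‖y‖ ≤ h ∧ d2 K z ((2:ℝ) • y) ≤ t} ≤
      ENNReal.ofReal (2 * h / ‖z‖) * μ (mac K z) := by
  have hz0 : z ≠ 0 := by
    rintro rfl
    rw [gauge_zero] at hz
    linarith
  have hgc : Continuous (gauge K) := continuous_gauge hK (nhds_of_ball hr hball)
  have hDc : IsClosed (mac K z) := mac_isClosed hc z
  set S : Set E := {y | ‖y‖ ≤ h ∧ d2 K z ((2:ℝ) • y) ≤ t} with hS
  have hd2c : Continuous fun y : E => d2 K z ((2:ℝ) • y) := by
    unfold d2
    fun_prop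
  have hSm : MeasurableSet S :=
    ((isClosed_le continuous_norm continuous_const).inter
      (isClosed_le hd2c continuous_const)).measurableSet
  set Ω : Set (E × ℝ) := {p | ‖p.1‖ ≤ h ∧ p.2 ∈ Icc (-(1/2):ℝ) (1/2) ∧ p.1 + p.2 • z ∈ mac K z}
    with hΩ
  have hΩm : MeasurableSet Ω := by
    have h1 : IsClosed {p : E × ℝ | ‖p.1‖ ≤ h} :=
      isClosed_le (continuous_norm.comp continuous_fst) continuous_const
    have h2 : IsClosed {p : E × ℝ | p.2 ∈ Icc (-(1/2):ℝ) (1/2)} := isClosed_Icc.preimage continuous_snd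
    have h3 : IsClosed {p : E × ℝ | p.1 + p.2 • z ∈ mac K z} := hDc.preimage (by fun_prop)
    exact (h1.inter (h2.inter h3)).measurableSet
  have hlow : ENNReal.ofReal t * μ S ≤ (μ.prod volume) Ω := by
    rw [Measure.prod_apply hΩm]
    calc ENNReal.ofReal t * μ S = ∫⁻ y in S, ENNReal.ofReal t ∂μ := by
          rw [setLIntegral_const]
      _ ≤ ∫⁻ y in S, volume (Prod.mk y ⁻¹' Ω) ∂μ := by
          apply setLIntegral_mono_ae' hSm
          apply Filter.Eventually.of_forall
          intro y hy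
          have h1 := interval_bound hK hr hball hc hz ht0 ht (hy.1.trans hhr) hy.2
          refine h1.trans (measure_mono ?_)
          intro η hη
          exact ⟨hy.1, hη.1, hη.2⟩
      _ ≤ ∫⁻ y, volume (Prod.mk y ⁻¹' Ω) ∂μ := setLIntegral_le_lintegral _ _
  set Ω' : Set (E × ℝ) := {p | ‖p.1 - p.2 • z‖ ≤ h ∧ p.2 ∈ Icc (-(1/2):ℝ) (1/2) ∧ p.1 ∈ mac K z}
    with hΩ'
  have hΩ'm : MeasurableSet Ω' := by
    have h1 : IsClosed {p : E × ℝ | ‖p.1 - p.2 • z‖ ≤ h} := isClosed_le (by fun_prop) continuous_const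
    have h2 : IsClosed {p : E × ℝ | p.2 ∈ Icc (-(1/2):ℝ) (1/2)} := isClosed_Icc.preimage continuous_snd
    have h3 : IsClosed {p : E × ℝ | p.1 ∈ mac K z} := hDc.preimage (by fun_prop)
    exact (h1.inter (h2.inter h3)).measurableSet
  have heq : (μ.prod volume) Ω = (μ.prod volume) Ω' := by
    rw [Measure.prod_apply_symm hΩm, Measure.prod_apply_symm hΩ'm]
    apply lintegral_congr
    intro η
    have : (fun x => (x, η)) ⁻¹' Ω = (fun x => x + η • z) ⁻¹' ((fun x => (x, η)) ⁻¹' Ω') := by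
      ext x
      simp only [hΩ, hΩ', mem_preimage, mem_ofPred_eq, add_sub_cancel_right]
    rw [this, measure_preimage_add_right]
  have hup : (μ.prod volume) Ω' ≤ ENNReal.ofReal (2 * h / ‖z‖) * μ (mac K z) := by
    rw [Measure.prod_apply hΩ'm]
    calc ∫⁻ w, volume (Prod.mk w ⁻¹' Ω') ∂μ
        ≤ ∫⁻ w, (mac K z).indicator (fun _ => ENNReal.ofReal (2 * h / ‖z‖)) w ∂μ := by
          apply lintegral_mono
          intro w
          by_cases hw : w ∈ mac K z
          · rw [Set.indicator_of_mem hw]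
            refine (measure_mono ?_).trans (line_bound hz0 w)
            intro η hη
            exact hη.1
          · rw [Set.indicator_of_notMem hw]
            have : Prod.mk w ⁻¹' Ω' = ∅ := by
              ext η
              simp only [mem_preimage, mem_empty_iff_false, iff_false]
              intro hη
              exact hw hη.2.2
            simp only [this, measure_empty]
            exact zero_le
      _ = _ := by
          rw [lintegral_indicator_const hDc.measurableSet]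
  exact hlow.trans (heq.le.trans hup)

end RPoly
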