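import Pool.Agent.Lib_helper50.RP.Gauge1

open MeasureTheory Set Module
open scoped ENNReal Pointwise Topology NNReal

set_option linter.unusedSectionVars false

namespace RPoly

variable {E : Type*} [NormedAddCommGroup E] [NormedSpace ℝ E]
variable [MeasurableSpace E] [BorelSpace E] [FiniteDimensional ℝ E] (μ : Measure E)
  [μ.IsAddHaarMeasure]
variable {K : Set E} (hK : Convex ℝ K) (hc : IsCompact K) {r : ℝ} (hr : 0 < r)
  (hball : Metric.ball 0 r ⊆ K)

include hK hr hball in
lemma gauge_cont : Continuous (gauge K) := continuous_gauge hK (nhds_of_ball hr hball)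

include hK hr hball in
lemma d2_cont : Continuous fun p : E × E => d2 K p.1 p.2 := by
  have h := gauge_cont hK hr hball
  unfold d2
  fun_prop

include hK hc hr hball in
lemma level_eq {a : ℝ} (ha : 0 < a) : {w | gauge K w ≤ a} = {w | a⁻¹ • (w - 0) ∈ K} := by
  ext w
  simp only [mem_ofPred_eq, sub_zero]
  rw [mem_iff_gauge hK hr hball hc.isClosed, gauge_smul' hK hr hball (by positivity),
    inv_mul_le_iff₀ ha, mul_one]

include hK hc hr hball in
lemma vol_level {a : ℝ} (ha : 0 < a) :
    μ {w | gauge K w ≤ a} = ENNReal.ofReal (a ^ finrank ℝ E) * μ K := by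
  rw [level_eq hK hc hr hball ha, vol_scaled μ (by positivity), abs_of_nonneg (by positivity)]
  rw [inv_pow, inv_inv]

include hK hc hr hball in
lemma level_compact {a : ℝ} (ha : 0 < a) : IsCompact {w | gauge K w ≤ a} := by
  have e : {w | gauge K w ≤ a} = (fun x => a • x) '' K := by
    rw [level_eq hK hc hr hball ha]
    ext w
    simp only [mem_ofPred_eq, sub_zero, mem_image]
    constructor
    · intro h
      exact ⟨_, h, by rw [smul_smul, mul_inv_cancel₀ ha.ne', one_smul]⟩
    · rintro ⟨x, hx, rfl⟩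
      rwa [smul_smul, inv_mul_cancel₀ ha.ne', one_smul]
  rw [e]
  exact hc.image (by fun_prop)

include hK hr hball in
lemma gauge_le_norm_div (y : E) : gauge K y ≤ ‖y‖ / r := by
  have := mul_gauge_le_norm hball (x := y)
  rw [le_div_iff₀ hr]; linarith

include hK hc hr hball in
/-- volume lost by a translation. -/
lemma shift_bound {y : E} (hy : ‖y‖ ≤ r) :
    (μ ({w | gauge K w ≤ 2} \ {w | gauge K (w + y) ≤ 2})).toReal ≤
      (finrank ℝ E : ℝ) * (‖y‖/r) * (2 ^ finrank ℝ E * (μ K).toReal) := by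
  set d := finrank ℝ E with hd
  set δ := ‖y‖/r with hδ
  have hδ0 : 0 ≤ δ := by positivity
  have hδ1 : δ ≤ 1 := by rw [hδ, div_le_one hr]; exact hy
  have hsub : {w | gauge K w ≤ 2 - δ} ⊆ {w | gauge K w ≤ 2} ∩ {w | gauge K (w + y) ≤ 2} := by
    intro w hw
    have hw' : gauge K w ≤ 2 - δ := hw
    refine ⟨by show gauge K w ≤ 2; linarith, ?_⟩
    show gauge K (w + y) ≤ 2
    have h1 := gauge_add_le' hK hr hball w y
    have h2 := gauge_le_norm_div hK hr hball y
    linarith
  have hKfin : μ K ≠ ∞ := hc.measure_lt_top.ne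
  have h1 : {w | gauge K w ≤ 2} \ {w | gauge K (w + y) ≤ 2} ⊆
      {w | gauge K w ≤ 2} \ {w | gauge K w ≤ 2 - δ} := by
    intro w hw
    exact ⟨hw.1, fun h => hw.2 (hsub h).2⟩
  have hm : MeasurableSet {w | gauge K w ≤ 2 - δ} :=
    (level_compact hK hc hr hball (by linarith)).isClosed.measurableSet
  have h2 : μ ({w | gauge K w ≤ 2} \ {w | gauge K w ≤ 2 - δ}) =
      ENNReal.ofReal ((2 ^ d - (2 - δ) ^ d) * (μ K).toReal) := by
    rw [measure_sdiff (fun w hw => (hsub hw).1) hm.nullMeasurableSet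
      (level_compact hK hc hr hball (by linarith)).measure_lt_top.ne,
      vol_level μ hK hc hr hball (by norm_num), vol_level μ hK hc hr hball (by linarith)]
    rw [sub_mul, ENNReal.ofReal_sub _ (mul_nonneg (pow_nonneg (by linarith) _)
      ENNReal.toReal_nonneg), ENNReal.ofReal_mul (by positivity),
      ENNReal.ofReal_mul (pow_nonneg (by linarith) _), ENNReal.ofReal_toReal hKfin]
  have h3 : (μ ({w | gauge K w ≤ 2} \ {w | gauge K (w + y) ≤ 2})).toReal ≤
      (2 ^ d - (2 - δ) ^ d) * (μ K).toReal := by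
    apply ENNReal.toReal_le_of_le_ofReal
    · apply mul_nonneg _ ENNReal.toReal_nonneg
      rw [sub_nonneg]
      exact pow_le_pow_left₀ (by linarith) (by linarith) _
    · rw [← h2]; exact measure_mono h1
  refine h3.trans ?_
  rw [← mul_assoc]
  apply mul_le_mul_of_nonneg_right _ ENNReal.toReal_nonneg
  have h4 : (2 - δ) ^ d = 2 ^ d * (1 + (-(δ/2))) ^ d := by
    rw [← mul_pow]; congr 1; ring
  have h5 := one_add_mul_le_pow (a := -(δ/2)) (by linarith) d
  rw [h4]
  have h6 : (2:ℝ) ^ d * (1 + d * (-(δ/2))) ≤ 2 ^ d * (1 + (-(δ/2))) ^ d :=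
    mul_le_mul_of_nonneg_left h5 (by positivity)
  have h7 : (0:ℝ) ≤ 2 ^ d * (d * δ) := by positivity
  nlinarith

include hK hc hr hball in
/-- Integrated second difference bound. -/
theorem integral_d2 {y : E} (hy : ‖y‖ ≤ r) :
    ∫⁻ w in {w | gauge K w ≤ 2}, ENNReal.ofReal (d2 K w y) ∂μ ≤
      ENNReal.ofReal (2 * (finrank ℝ E : ℝ) * 2 ^ finrank ℝ E * (μ K).toReal * (‖y‖/r)^2) := by
  set M : Set E := {w | gauge K w ≤ 2} with hM
  set q : E → ℝ := fun w => gauge K (w + y) - gauge K w with hq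
  have hgc := gauge_cont hK hr hball
  have hMc : IsCompact M := level_compact hK hc hr hball (by norm_num)
  have hMm : MeasurableSet M := hMc.isClosed.measurableSet
  have hqc : Continuous q := by rw [hq]; fun_prop
  set N : Set E := {w | gauge K (w + y) ≤ 2} with hN
  have hNpre : N = (fun w => w + y) ⁻¹' M := rfl
  have hNm : MeasurableSet N := (isClosed_le (by fun_prop) continuous_const).measurableSet
  have hNc : IsCompact N := by
    rw [hNpre]
    exact (Homeomorph.addRight y).isCompact_preimage.mpr hMc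
  have hqb : ∀ w, ‖q w‖ ≤ ‖y‖/r := by
    intro w
    have := gauge_lip hK hr hball (w + y) w
    rw [add_sub_cancel_left] at this
    exact this
  -- rewrite the integral
  have hint1 : IntegrableOn q M μ := hqc.continuousOn.integrableOn_compact hMc
  have hint2 : IntegrableOn q N μ := hqc.continuousOn.integrableOn_compact hNc
  have hint3 : IntegrableOn (fun w => q (w - y)) M μ :=
    (hqc.comp (by fun_prop : Continuous fun w : E => w - y)).continuousOn.integrableOn_compact hMc
  have e1 : ∫ w in M, d2 K w y ∂μ = ∫ w in M, q w ∂μ - ∫ w in N, q w ∂μ := by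
    have h1 : ∀ w, d2 K w y = q w - q (w - y) := by
      intro w
      simp only [d2, hq, sub_add_cancel]; ring
    simp only [h1]
    rw [integral_sub hint1 hint3]
    congr 1
    rw [← integral_indicator hMm, ← integral_indicator hNm,
      ← integral_sub_right_eq_self (N.indicator q) y]
    congr 1
    ext w
    by_cases h : w ∈ M
    · rw [Set.indicator_of_mem h, Set.indicator_of_mem]
      rw [hNpre, mem_preimage, sub_add_cancel]; exact h
    · rw [Set.indicator_of_notMem h, Set.indicator_of_notMem]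
      rw [hNpre, mem_preimage, sub_add_cancel]; exact h
  have e2 : ∫ w in M, q w ∂μ = ∫ w in M ∩ N, q w ∂μ + ∫ w in M \ N, q w ∂μ :=
    (integral_inter_add_sdiff hNm hint1).symm
  have e3 : ∫ w in N, q w ∂μ = ∫ w in N ∩ M, q w ∂μ + ∫ w in N \ M, q w ∂μ :=
    (integral_inter_add_sdiff hMm hint2).symm
  have b1 : ‖∫ w in M \ N, q w ∂μ‖ ≤ ‖y‖/r * (μ (M \ N)).toReal :=
    norm_setIntegral_le_of_norm_le_const
      ((measure_mono sdiff_subset).trans_lt hMc.measure_lt_top) (fun w _ => hqb w)
  have b2 : ‖∫ w in N \ M, q w ∂μ‖ ≤ ‖y‖/r * (μ (N \ M)).toReal :=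
    norm_setIntegral_le_of_norm_le_const
      ((measure_mono sdiff_subset).trans_lt hNc.measure_lt_top) (fun w _ => hqb w)
  have m1 := shift_bound μ hK hc hr hball hy
  have m2 : (μ (N \ M)).toReal ≤
      (finrank ℝ E : ℝ) * (‖y‖/r) * (2 ^ finrank ℝ E * (μ K).toReal) := by
    have h1 := shift_bound μ hK hc hr hball (y := -y) (by rwa [norm_neg])
    rw [norm_neg] at h1
    refine le_trans (le_of_eq ?_) h1
    congr 1
    have h2 : N \ M = (fun w => w + y) ⁻¹' ({w | gauge K w ≤ 2} \ {w | gauge K (w + -y) ≤ 2}) := by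
      ext w
      simp only [mem_sdiff, mem_preimage, hN, hM, mem_ofPred_eq, add_neg_cancel_right]
    rw [h2, measure_preimage_add_right]
  have total : ∫ w in M, d2 K w y ∂μ ≤
      2 * (finrank ℝ E : ℝ) * 2 ^ finrank ℝ E * (μ K).toReal * (‖y‖/r)^2 := by
    rw [e1, e2, e3, inter_comm N M]
    have c1 := (abs_le.mp b1).2
    have c2 := (abs_le.mp b2).1
    have hyr : 0 ≤ ‖y‖/r := by positivity
    have f1 := mul_le_mul_of_nonneg_left m1 hyr
    have f2 := mul_le_mul_of_nonneg_left m2 hyr
    have : 2 * (finrank ℝ E : ℝ) * 2 ^ finrank ℝ E * (μ K).toReal * (‖y‖/r)^2 =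
      ‖y‖/r * ((finrank ℝ E : ℝ) * (‖y‖/r) * (2 ^ finrank ℝ E * (μ K).toReal)) +
      ‖y‖/r * ((finrank ℝ E : ℝ) * (‖y‖/r) * (2 ^ finrank ℝ E * (μ K).toReal)) := by ring
    rw [this]
    linarith
  have hd2c : Continuous fun w => d2 K w y :=
    (d2_cont hK hr hball).comp (f := fun w : E => (w, y)) (by fun_prop)
  rw [← ofReal_integral_eq_lintegral_ofReal (hd2c.continuousOn.integrableOn_compact hMc)
    (Filter.Eventually.of_forall fun w => d2_nonneg hK hr hball w y)]
  exact ENNReal.ofReal_le_ofReal total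

end RPoly
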