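import Pool.Agent.Lib_helper50.RP.Gauge2

open MeasureTheory Set Module
open scoped ENNReal Pointwise Topology NNReal

set_option linter.unusedSectionVars false

namespace RPoly

variable {E : Type*} [NormedAddCommGroup E] [NormedSpace ℝ E]

/-- shell at depth between `τ` and `2τ`. -/
def shell (K : Set E) (τ : ℝ) : Set E := {z | 1 - 2*τ < gauge K z ∧ gauge K z ≤ 1 - τ}

variable [MeasurableSpace E] [BorelSpace E] [FiniteDimensional ℝ E] (μ : Measure E)
  [μ.IsAddHaarMeasure]
variable {K : Set E} (hK : Convex ℝ K) (hc : IsCompact K) {r : ℝ} (hr : 0 < r)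
  (hball : Metric.ball 0 r ⊆ K)

include hK hr hball in
lemma shell_meas (τ : ℝ) : MeasurableSet (shell K τ) := by
  have hgc := gauge_cont hK hr hball
  exact (isOpen_lt continuous_const hgc).measurableSet.inter
    (isClosed_le hgc continuous_const).measurableSet

include hK hr hball in
lemma ratio_bound {τ : ℝ} (hτ0 : 0 < τ) (hτ : τ ≤ 1/16) (w : E) :
    volume {l : ℝ | l ∈ Icc (1:ℝ) 2 ∧ l⁻¹ • w ∈ shell K τ} ≤
      {w | gauge K w ≤ 2}.indicator (fun _ => ENNReal.ofReal (4*τ)) w := by
  set g := gauge K w with hg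
  have hg0 : 0 ≤ g := gauge_nonneg w
  by_cases h : g ≤ 2
  · rw [Set.indicator_of_mem (by exact h)]
    have hsub : {l : ℝ | l ∈ Icc (1:ℝ) 2 ∧ l⁻¹ • w ∈ shell K τ} ⊆ Icc (g/(1-τ)) (g/(1-2*τ)) := by
      rintro l ⟨hl, h1, h2⟩
      have hl0 : 0 < l := by linarith [hl.1]
      rw [gauge_smul' hK hr hball (by positivity), ← hg] at h1 h2
      have h1' : (1 - 2*τ) * l < g := by
        have := mul_lt_mul_of_pos_right h1 hl0
        rwa [mul_comm l⁻¹ g, mul_assoc, inv_mul_cancel₀ hl0.ne', mul_one] at this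
      have h2' : g ≤ (1 - τ) * l := by
        have := mul_le_mul_of_nonneg_right h2 hl0.le
        rwa [mul_comm l⁻¹ g, mul_assoc, inv_mul_cancel₀ hl0.ne', mul_one] at this
      constructor
      · rw [div_le_iff₀ (by linarith)]; linarith
      · rw [le_div_iff₀ (by linarith)]; linarith
    refine (measure_mono hsub).trans ?_
    rw [Real.volume_Icc]
    apply ENNReal.ofReal_le_ofReal
    rw [div_sub_div _ _ (by linarith) (by linarith), div_le_iff₀ (by nlinarith)]
    nlinarith [mul_nonneg hτ0.le hg0, mul_pos hτ0 hτ0, mul_nonneg (mul_nonneg hτ0.le hτ0.le) hg0,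
      mul_nonneg hτ0.le (sub_nonneg.mpr h)]
  · rw [Set.indicator_of_notMem (by exact h)]
    have : {l : ℝ | l ∈ Icc (1:ℝ) 2 ∧ l⁻¹ • w ∈ shell K τ} = ∅ := by
      ext l
      simp only [mem_ofPred_eq, mem_empty_iff_false, iff_false, not_and]
      rintro hl ⟨_, h2⟩
      have hl0 : 0 < l := by linarith [hl.1]
      rw [gauge_smul' hK hr hball (by positivity), ← hg] at h2
      have h2' : g ≤ (1 - τ) * l := by
        have := mul_le_mul_of_nonneg_right h2 hl0.le
        rwa [mul_comm l⁻¹ g, mul_assoc, inv_mul_cancel₀ hl0.ne', mul_one] at this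
      have := hl.2
      nlinarith
    rw [this]; simp

include hK hc hr hball in
/-- second differences on thin shells -/
theorem shell_d2 {τ : ℝ} (hτ0 : 0 < τ) (hτ : τ ≤ 1/16) {y : E} (hy : ‖(2:ℝ) • y‖ ≤ r) :
    ∫⁻ z in shell K τ, ENNReal.ofReal (d2 K z y) ∂μ ≤
      ENNReal.ofReal (4*τ) * ENNReal.ofReal (2 * (finrank ℝ E : ℝ) * 2 ^ finrank ℝ E *
        (μ K).toReal * (‖(2:ℝ) • y‖/r)^2) := by
  have hSm := shell_meas hK hr hball τ
  have hd2c := d2_cont hK hr hball
  set F : E → ℝ≥0∞ := (shell K τ).indicator fun z => ENNReal.ofReal (d2 K z y) with hF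
  have hFm : Measurable F := by
    apply Measurable.indicator _ hSm
    have : Continuous fun z => d2 K z y := hd2c.comp (f := fun w : E => (w, y)) (by fun_prop)
    exact this.measurable.ennreal_ofReal
  set I := ∫⁻ z in shell K τ, ENNReal.ofReal (d2 K z y) ∂μ with hI
  have hIF : I = ∫⁻ z, F z ∂μ := by rw [hI, hF, lintegral_indicator hSm]
  have hd2y : Measurable fun w : E => ENNReal.ofReal (d2 K w ((2:ℝ) • y)) := by
    have : Continuous fun z => d2 K z ((2:ℝ) • y) :=
      hd2c.comp (f := fun w : E => (w, (2:ℝ) • y)) (by fun_prop)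
    exact this.measurable.ennreal_ofReal
  set T : Set (ℝ × E) := {p | p.1 ∈ Icc (1:ℝ) 2 ∧ p.1⁻¹ • p.2 ∈ shell K τ} with hT
  have hTm : MeasurableSet T := by
    have h1 : MeasurableSet {p : ℝ × E | p.1 ∈ Icc (1:ℝ) 2} := measurableSet_Icc.preimage measurable_fst
    have h2 : MeasurableSet {p : ℝ × E | p.1⁻¹ • p.2 ∈ shell K τ} :=
      hSm.preimage (by fun_prop)
    exact h1.inter h2
  have step : ∀ l ∈ Icc (1:ℝ) 2, I ≤ ∫⁻ w, T.indicator 1 (l, w) *
      ENNReal.ofReal (d2 K w ((2:ℝ) • y)) ∂μ := by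
    intro l hl
    have hl0 : 0 < l := by linarith [hl.1]
    have hmap := Measure.map_addHaar_smul μ (r := l⁻¹) (by positivity)
    have h1 : ∫⁻ w, F (l⁻¹ • w) ∂μ = ENNReal.ofReal (l ^ finrank ℝ E) * I := by
      rw [← lintegral_map hFm (by fun_prop : Measurable fun w : E => l⁻¹ • w), hmap,
        lintegral_smul_measure, ← hIF, smul_eq_mul]
      congr 2
      rw [inv_pow, inv_inv, abs_of_nonneg (by positivity)]
    calc I = ENNReal.ofReal 1 * I := by simp
      _ ≤ ENNReal.ofReal (l ^ finrank ℝ E) * I := by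
          gcongr
          exact one_le_pow₀ hl.1
      _ = ∫⁻ w, F (l⁻¹ • w) ∂μ := h1.symm
      _ ≤ _ := by
          apply lintegral_mono
          intro w
          simp only [hF]
          by_cases h : l⁻¹ • w ∈ shell K τ
          · have hmem : (l, w) ∈ T := ⟨hl, h⟩
            rw [Set.indicator_of_mem h, Set.indicator_of_mem hmem, Pi.one_apply, one_mul]
            apply ENNReal.ofReal_le_ofReal
            have e1 : y = l⁻¹ • (l • y) := by
              rw [smul_smul, inv_mul_cancel₀ hl0.ne', one_smul]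
            have e2 : l • y = (l/2) • ((2:ℝ) • y) := by
              rw [smul_smul]; congr 1; ring
            rw [e1, d2_smul hK hr hball (by positivity), ← e1, e2]
            have h2 := d2_mul_le hK hr hball (θ := l/2) (by positivity) (by linarith [hl.2]) w
              ((2:ℝ) • y)
            have h3 := d2_nonneg hK hr hball w ((2:ℝ) • y)
            have h4 := mul_le_mul_of_nonneg_left h2 (inv_nonneg.mpr hl0.le)
            have h5 : l⁻¹ * (l/2 * d2 K w ((2:ℝ) • y)) = d2 K w ((2:ℝ) • y) / 2 := by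
              field_simp
            linarith
          · rw [Set.indicator_of_notMem h]; exact zero_le
  have hvol : volume (Icc (1:ℝ) 2) = 1 := by rw [Real.volume_Icc]; norm_num
  calc I = ∫⁻ l in Icc (1:ℝ) 2, I := by rw [setLIntegral_const, hvol, mul_one]
    _ ≤ ∫⁻ l in Icc (1:ℝ) 2, ∫⁻ w, T.indicator 1 (l, w) *
      ENNReal.ofReal (d2 K w ((2:ℝ) • y)) ∂μ := by
        apply setLIntegral_mono_ae' measurableSet_Icc
        exact Filter.Eventually.of_forall step
    _ = ∫⁻ w, (∫⁻ l in Icc (1:ℝ) 2, T.indicator 1 (l, w) *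
      ENNReal.ofReal (d2 K w ((2:ℝ) • y))) ∂μ := by
        rw [lintegral_lintegral_swap]
        apply Measurable.aemeasurable
        exact (measurable_one.indicator hTm).mul (hd2y.comp measurable_snd)
    _ ≤ ∫⁻ w, {w | gauge K w ≤ 2}.indicator (fun w => ENNReal.ofReal (4*τ) *
          ENNReal.ofReal (d2 K w ((2:ℝ) • y))) w ∂μ := by
        apply lintegral_mono
        intro w
        simp only
        have hz : MeasurableSet {l : ℝ | (l, w) ∈ T} := hTm.preimage (by fun_prop)
        have e1 : ∀ l : ℝ, T.indicator (1 : ℝ × E → ℝ≥0∞) (l, w) =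
            {l : ℝ | (l, w) ∈ T}.indicator 1 l := by
          intro l; rfl
        simp only [e1]
        rw [lintegral_mul_const _ (measurable_one.indicator hz), lintegral_indicator_one hz]
        have hb := ratio_bound hK hr hball hτ0 hτ w
        have hle : (volume.restrict (Icc (1:ℝ) 2)) {l : ℝ | (l, w) ∈ T} ≤
            {w | gauge K w ≤ 2}.indicator (fun _ => ENNReal.ofReal (4*τ)) w :=
          (Measure.restrict_apply_le _ _).trans hb
        refine (mul_le_mul_left hle _).trans ?_
        by_cases h : w ∈ {w | gauge K w ≤ 2}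
        · rw [Set.indicator_of_mem h, Set.indicator_of_mem h]
        · rw [Set.indicator_of_notMem h, Set.indicator_of_notMem h, zero_mul]
    _ = ENNReal.ofReal (4*τ) * ∫⁻ w in {w | gauge K w ≤ 2},
          ENNReal.ofReal (d2 K w ((2:ℝ) • y)) ∂μ := by
        rw [lintegral_indicator (level_compact hK hc hr hball (by norm_num)).isClosed.measurableSet,
          lintegral_const_mul _ hd2y]
    _ ≤ _ := by
        gcongr
        exact integral_d2 μ hK hc hr hball hy

include hK hc hr hball in
/-- few points of a shell have a small Macbeath region -/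
theorem shell_bad {τ : ℝ} (hτ0 : 0 < τ) (hτ : τ ≤ 1/16) {h : ℝ} (hh : 0 < h) (hhr : h ≤ r/8)
    (hd : 0 < finrank ℝ E) {s : ℝ} 
    (hs : s ≤ r * (μ (Metric.ball 0 1)).toReal / 8 * τ * h ^ (finrank ℝ E - 1)) :
    μ {z ∈ shell K τ | μ (mac K z) ≤ ENNReal.ofReal s} ≤
      ENNReal.ofReal (128 * (2 * (finrank ℝ E : ℝ) * 2 ^ finrank ℝ E *
        (μ K).toReal) / r^2 * h^2) := by
  set κ := (μ (Metric.ball (0:E) 1)).toReal with hκ
  have hκfin : μ (Metric.ball (0:E) 1) ≠ ∞ := measure_ball_lt_top.ne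
  have hκpos : 0 < κ := ENNReal.toReal_pos (Metric.measure_ball_pos μ _ one_pos).ne' hκfin
  set C := 2 * (finrank ℝ E : ℝ) * 2 ^ finrank ℝ E * (μ K).toReal with hC
  have hC0 : 0 ≤ C := by positivity
  set B := Metric.closedBall (0:E) h with hB
  have hBvol : μ B = ENNReal.ofReal (h ^ finrank ℝ E * κ) := by
    rw [hB, Measure.addHaar_closedBall μ _ hh.le, ENNReal.ofReal_mul (by positivity), hκ,
      ENNReal.ofReal_toReal hκfin]
  have hBm : MeasurableSet B := Metric.isClosed_closedBall.measurableSet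
  have hSm := shell_meas hK hr hball τ
  have hmm := measurable_macVol μ hc.isClosed (K := K)
  set Z := {z ∈ shell K τ | μ (mac K z) ≤ ENNReal.ofReal s} with hZ
  have hZm : MeasurableSet Z := hSm.inter (measurableSet_le hmm measurable_const)
  have hd2c := d2_cont hK hr hball
  have hd2m : Measurable fun p : E × E => ENNReal.ofReal (d2 K p.1 ((2:ℝ) • p.2)) := by
    have : Continuous fun p : E × E => d2 K p.1 ((2:ℝ) • p.2) :=
      hd2c.comp (f := fun p : E × E => (p.1, (2:ℝ) • p.2)) (by fun_prop)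
    exact this.measurable.ennreal_ofReal
  -- key pointwise estimate
  have key : ∀ z ∈ Z, ENNReal.ofReal (τ/2) * μ B ≤
      ∫⁻ y in B, ENNReal.ofReal (d2 K z ((2:ℝ) • y)) ∂μ := by
    rintro z ⟨⟨hz1, hz2⟩, hz3⟩
    set t := 1 - gauge K z with ht
    have ht0 : 0 < t := by rw [ht]; linarith
    have ht1 : t ≤ 1/8 := by rw [ht]; linarith
    have hτt : τ ≤ t := by rw [ht]; linarith
    have hnorm : r/2 ≤ ‖z‖ := by
      have := mul_gauge_le_norm hball (x := z)
      nlinarith
    have hml := mac_lower μ hK hc.isClosed hr hball (z := z) (t := t) (h := h) (by rw [ht]; ring)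
      ht0 ht1 hhr
    set S : Set E := {y | ‖y‖ ≤ h ∧ d2 K z ((2:ℝ) • y) ≤ t} with hS
    have hSclosed : IsClosed S := by
      have : Continuous fun y : E => d2 K z ((2:ℝ) • y) :=
        hd2c.comp (f := fun p : E => (z, (2:ℝ) • p)) (by fun_prop)
      exact (isClosed_le continuous_norm continuous_const).inter
        (isClosed_le this continuous_const)
    have hSB : S ⊆ B := by
      intro y hy
      rw [hB, mem_closedBall_zero_iff]; exact hy.1
    have hSvol : μ S ≤ ENNReal.ofReal (h ^ finrank ℝ E * κ / 2) := by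
      have h1 : ENNReal.ofReal τ * μ S ≤ ENNReal.ofReal (4*h/r) * ENNReal.ofReal s := by
        calc ENNReal.ofReal τ * μ S ≤ ENNReal.ofReal t * μ S := by gcongr
          _ ≤ ENNReal.ofReal (2 * h / ‖z‖) * μ (mac K z) := hml
          _ ≤ ENNReal.ofReal (4*h/r) * ENNReal.ofReal s := by
              refine mul_le_mul' (ENNReal.ofReal_le_ofReal ?_) hz3
              rw [div_le_div_iff₀ (by linarith) hr]
              nlinarith
      have h2 : ENNReal.ofReal (4*h/r) * ENNReal.ofReal s ≤
          ENNReal.ofReal τ * ENNReal.ofReal (h ^ finrank ℝ E * κ / 2) := by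
        rw [← ENNReal.ofReal_mul (by positivity), ← ENNReal.ofReal_mul hτ0.le]
        apply ENNReal.ofReal_le_ofReal
        calc 4*h/r * s ≤ 4*h/r * (r * κ / 8 * τ * h ^ (finrank ℝ E - 1)) := by gcongr
          _ = τ * (h * h ^ (finrank ℝ E - 1) * κ / 2) := by field_simp; ring
          _ = τ * (h ^ finrank ℝ E * κ / 2) := by
              rw [← pow_succ', Nat.sub_add_cancel hd]
      have h3 := h1.trans h2
      have hτ' : ENNReal.ofReal τ ≠ 0 := by simpa using hτ0
      exact (ENNReal.mul_le_mul_iff_right hτ' ENNReal.ofReal_ne_top).mp h3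
    have hdiff : ENNReal.ofReal (1/2) * μ B ≤ μ (B \ S) := by
      rw [measure_sdiff hSB hSclosed.measurableSet.nullMeasurableSet
        ((measure_mono hSB).trans_lt Metric.isBounded_closedBall.measure_lt_top).ne]
      rw [hBvol]
      refine le_trans ?_ (tsub_le_tsub_left hSvol _)
      rw [← ENNReal.ofReal_sub _ (by positivity), ← ENNReal.ofReal_mul (by norm_num)]
      apply ENNReal.ofReal_le_ofReal
      linarith
    calc ENNReal.ofReal (τ/2) * μ B = ENNReal.ofReal τ * (ENNReal.ofReal (1/2) * μ B) := by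
          rw [← mul_assoc, ← ENNReal.ofReal_mul hτ0.le]; congr 2; ring
      _ ≤ ENNReal.ofReal τ * μ (B \ S) := by gcongr
      _ = ∫⁻ y in B \ S, ENNReal.ofReal τ ∂μ := by rw [setLIntegral_const]
      _ ≤ ∫⁻ y in B \ S, ENNReal.ofReal (d2 K z ((2:ℝ) • y)) ∂μ := by
          apply setLIntegral_mono_ae' (hBm.diff hSclosed.measurableSet)
          apply Filter.Eventually.of_forall
          rintro y ⟨hyB, hyS⟩
          apply ENNReal.ofReal_le_ofReal
          rw [hB, mem_closedBall_zero_iff] at hyB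
          by_contra hcon
          exact hyS ⟨hyB, by linarith [not_le.mp hcon]⟩
      _ ≤ _ := lintegral_mono_set sdiff_subset
  have hfin : ENNReal.ofReal (τ/2) * μ B * μ Z ≤
      ENNReal.ofReal (τ/2) * μ B * ENNReal.ofReal (128 * C / r^2 * h^2) := by
    calc ENNReal.ofReal (τ/2) * μ B * μ Z = ∫⁻ z in Z, ENNReal.ofReal (τ/2) * μ B ∂μ := by
          rw [setLIntegral_const]
      _ ≤ ∫⁻ z in Z, ∫⁻ y in B, ENNReal.ofReal (d2 K z ((2:ℝ) • y)) ∂μ ∂μ := by
          apply setLIntegral_mono_ae' hZm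
          exact Filter.Eventually.of_forall key
      _ ≤ ∫⁻ z in shell K τ, ∫⁻ y in B, ENNReal.ofReal (d2 K z ((2:ℝ) • y)) ∂μ ∂μ :=
          lintegral_mono_set (fun z hz => hz.1)
      _ = ∫⁻ y in B, ∫⁻ z in shell K τ, ENNReal.ofReal (d2 K z ((2:ℝ) • y)) ∂μ ∂μ := by
          rw [lintegral_lintegral_swap]
          exact hd2m.aemeasurable
      _ ≤ ∫⁻ y in B, ENNReal.ofReal (4*τ) * ENNReal.ofReal (C * (4*h/r)^2) ∂μ := by
          apply setLIntegral_mono_ae' hBm
          apply Filter.Eventually.of_forall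
          intro y hy
          rw [hB, mem_closedBall_zero_iff] at hy
          have hn : ‖(2:ℝ) • ((2:ℝ) • y)‖ ≤ 4 * h := by
            rw [smul_smul, norm_smul]; norm_num; linarith
          refine (shell_d2 μ hK hc hr hball hτ0 hτ (y := (2:ℝ) • y) (hn.trans (by linarith))).trans ?_
          gcongr
      _ = ENNReal.ofReal (τ/2) * μ B * ENNReal.ofReal (128 * C / r^2 * h^2) := by
          rw [setLIntegral_const, mul_right_comm (ENNReal.ofReal (τ/2)), ← ENNReal.ofReal_mul (by positivity),
            ← ENNReal.ofReal_mul (by positivity)]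
          congr 2
          field_simp; ring
  have hne : ENNReal.ofReal (τ/2) * μ B ≠ 0 := by
    rw [hBvol, ← ENNReal.ofReal_mul (by positivity)]
    simp only [ne_eq, ENNReal.ofReal_eq_zero, not_le]
    positivity
  have hnt : ENNReal.ofReal (τ/2) * μ B ≠ ∞ :=
    ENNReal.mul_ne_top ENNReal.ofReal_ne_top (by rw [hBvol]; exact ENNReal.ofReal_ne_top)
  exact (ENNReal.mul_le_mul_iff_right hne hnt).mp hfin

end RPoly
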