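import Pool.Agent.Lib_helper50.RP.Gauge3

open MeasureTheory Set Module
open scoped ENNReal Pointwise Topology NNReal

set_option linter.unusedSectionVars false

namespace RPoly

variable {E : Type*} [NormedAddCommGroup E] [NormedSpace ℝ E]

variable [MeasurableSpace E] [BorelSpace E] [FiniteDimensional ℝ E] (μ : Measure E)
  [μ.IsAddHaarMeasure]

section
variable {K : Set E} (hK : Convex ℝ K) (hc : IsCompact K) {r : ℝ} (hr : 0 < r)
  (hball : Metric.ball 0 r ⊆ K)

include hK hc hr hball in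
lemma outer_layer {ε : ℝ} (h0 : 0 ≤ ε) (h1 : ε < 1) :
    μ {z ∈ K | 1 - ε < gauge K z} ≤ ENNReal.ofReal ((finrank ℝ E : ℝ) * ε * (μ K).toReal) := by
  have hKfin : μ K ≠ ∞ := hc.measure_lt_top.ne
  have e : {z ∈ K | 1 - ε < gauge K z} = K \ {z | gauge K z ≤ 1 - ε} := by
    ext z; simp
  have hsub : {z | gauge K z ≤ 1 - ε} ⊆ K := by
    intro z hz
    rw [mem_iff_gauge hK hr hball hc.isClosed]
    have : gauge K z ≤ 1 - ε := hz
    linarith
  have hlc := level_compact hK hc hr hball (a := 1 - ε) (by linarith)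
  rw [e, measure_sdiff hsub hlc.isClosed.measurableSet.nullMeasurableSet hlc.measure_lt_top.ne,
    vol_level μ hK hc hr hball (by linarith)]
  have h2 : μ K - ENNReal.ofReal ((1-ε) ^ finrank ℝ E) * μ K =
      ENNReal.ofReal ((μ K).toReal - (1-ε) ^ finrank ℝ E * (μ K).toReal) := by
    rw [ENNReal.ofReal_sub _ (mul_nonneg (pow_nonneg (by linarith) _) ENNReal.toReal_nonneg),
      ENNReal.ofReal_mul (pow_nonneg (by linarith) _), ENNReal.ofReal_toReal hKfin]
  rw [h2]
  apply ENNReal.ofReal_le_ofReal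
  have h3 := one_add_mul_le_pow (a := -ε) (by linarith) (finrank ℝ E)
  have h4 := mul_le_mul_of_nonneg_right h3 (ENNReal.toReal_nonneg (a := μ K))
  have h5 : (1 + -ε) = 1 - ε := by ring
  rw [h5] at h4
  nlinarith

include hK hc hr hball in
lemma deep_mac {z : E} (hz : gauge K z ≤ 15/16) :
    ENNReal.ofReal ((r/16) ^ finrank ℝ E * (μ (Metric.ball 0 1)).toReal) ≤ μ (mac K z) := by
  have hsub : Metric.closedBall (0:E) (r/16) ⊆ mac K z := by
    intro a ha
    rw [mem_closedBall_zero_iff] at ha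
    have h1 : gauge K a ≤ 1/16 := by
      refine (gauge_le_norm_div hK hr hball a).trans ?_
      rw [div_le_iff₀ hr]; linarith
    have h2 : gauge K (-a) ≤ 1/16 := by
      refine (gauge_le_norm_div hK hr hball (-a)).trans ?_
      rw [norm_neg, div_le_iff₀ hr]; linarith
    constructor
    · rw [mem_iff_gauge hK hr hball hc.isClosed]
      have := gauge_add_le' hK hr hball z a
      linarith
    · rw [mem_iff_gauge hK hr hball hc.isClosed, sub_eq_add_neg]
      have := gauge_add_le' hK hr hball z (-a)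
      linarith
  refine le_trans ?_ (measure_mono hsub)
  rw [Measure.addHaar_closedBall μ _ (by positivity), ENNReal.ofReal_mul (by positivity),
    ENNReal.ofReal_toReal measure_ball_lt_top.ne]

include hK hc hr hball in
theorem wet_upper0 (hd : 0 < finrank ℝ E) :
    ∃ C > (0:ℝ), ∃ σ₀ > (0:ℝ), ∀ σ, 0 < σ → σ ≤ σ₀ →
      μ {z ∈ K | μ (mac K z) ≤ ENNReal.ofReal (σ ^ (finrank ℝ E + 1))} ≤
        ENNReal.ofReal (C * σ^2) := by
  set d := finrank ℝ E with hdd
  set κ := (μ (Metric.ball (0:E) 1)).toReal with hκ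
  have hκfin : μ (Metric.ball (0:E) 1) ≠ ∞ := measure_ball_lt_top.ne
  have hκpos : 0 < κ := ENNReal.toReal_pos (Metric.measure_ball_pos μ _ one_pos).ne' hκfin
  set B := 8/(r*κ) with hB
  have hBpos : 0 < B := by positivity
  set V := (μ K).toReal with hV
  set C1 := 128 * (2 * (d : ℝ) * 2 ^ d * V) / r^2 with hC1
  have hC10 : 0 ≤ C1 := by positivity
  set q : ℝ := 1 - 1/(2*d) with hq
  have hd1 : (1:ℝ) ≤ d := by exact_mod_cast hd
  have hq0 : 0 < q := by
    rw [hq, sub_pos, div_lt_one (by positivity)]; linarith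
  have hq1 : q < 1 := by
    rw [hq]; have : 0 < 1/(2*(d:ℝ)) := by positivity
    linarith
  have hq2 : q^2 < 1 := by nlinarith
  have hqd : 1 ≤ 2 * q^(d-1) := by
    have h1 := one_add_mul_le_pow (a := -(1/(2*(d:ℝ)))) (by
      have : 1/(2*(d:ℝ)) ≤ 1 := by rw [div_le_one (by positivity)]; linarith
      linarith) (d-1)
    have h2 : 1 + -(1/(2*(d:ℝ))) = q := by rw [hq]; ring
    rw [h2] at h1
    have h3 : ((d-1 : ℕ) : ℝ) * (1/(2*(d:ℝ))) ≤ 1/2 := by
      rw [Nat.cast_sub hd]
      rw [mul_one_div, div_le_iff₀ (by positivity)]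
      push_cast; linarith
    linarith
  set m0 := (r/16) ^ d * κ with hm0
  have hm0pos : 0 < m0 := by positivity
  refine ⟨(d : ℝ) * B * V + C1 / (1 - q^2) + 1, by
      have : 0 < 1 - q^2 := by linarith
      positivity, min (min 1 (r/8)) (min (m0/2) (1/(2*(B+1)))), by
      refine lt_min (lt_min one_pos (by positivity)) (lt_min (by positivity) (by positivity)), ?_⟩
  intro σ hσ0 hσ
  have hσ1 : σ ≤ 1 := hσ.trans ((min_le_left _ _).trans (min_le_left _ _))
  have hσr : σ ≤ r/8 := hσ.trans ((min_le_left _ _).trans (min_le_right _ _))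
  have hσm : σ ≤ m0/2 := hσ.trans ((min_le_right _ _).trans (min_le_left _ _))
  have hσB : σ ≤ 1/(2*(B+1)) := hσ.trans ((min_le_right _ _).trans (min_le_right _ _))
  have hBσ : B * σ^2 < 1 := by
    have h1 : B * σ ≤ 1/2 := by
      calc B * σ ≤ (B+1) * σ := by nlinarith
        _ ≤ (B+1) * (1/(2*(B+1))) := by gcongr
        _ = 1/2 := by field_simp
    nlinarith
  set s := σ^(d+1) with hs
  set Z : ℕ → Set E := fun k => if B * 2^k * σ^2 ≤ 1/16 then
    {z ∈ shell K (B * 2^k * σ^2) | μ (mac K z) ≤ ENNReal.ofReal s} else ∅ with hZ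
  have hZbound : ∀ k, μ (Z k) ≤ ENNReal.ofReal (C1 * σ^2 * (q^2)^k) := by
    intro k
    simp only [hZ]
    split_ifs with h
    · have hcond : s ≤ r * κ / 8 * (B * 2^k * σ^2) * (q^k * σ)^(d-1) := by
        have e1 : r * κ / 8 * (B * 2^k * σ^2) * (q^k * σ)^(d-1) =
            (2 * q^(d-1))^k * (σ^2 * σ^(d-1)) := by
          rw [hB, mul_pow, mul_pow, ← pow_mul, ← pow_mul, mul_comm k (d-1)]
          field_simp
        have e2 : σ^2 * σ^(d-1) = σ^(d+1) := by
          rw [← pow_add]; congr 1; omega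
        rw [e1, e2, hs]
        have := one_le_pow₀ hqd (n := k)
        nlinarith [pow_pos hσ0 (d+1)]
      have hqk : q^k ≤ 1 := pow_le_one₀ hq0.le hq1.le
      have hh : q^k * σ ≤ r/8 := by nlinarith
      have := shell_bad μ hK hc hr hball (τ := B * 2^k * σ^2) (by positivity) h
        (h := q^k * σ) (by positivity) hh hd hcond
      refine this.trans (ENNReal.ofReal_le_ofReal (le_of_eq ?_))
      rw [hC1, hV, hdd]; ring_nf
    · simp
  have hcover : {z ∈ K | μ (mac K z) ≤ ENNReal.ofReal s} ⊆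
      {z ∈ K | 1 - B * σ^2 < gauge K z} ∪ ⋃ k, Z k := by
    rintro z ⟨hzK, hz⟩
    by_cases h1 : 1 - B * σ^2 < gauge K z
    · exact Or.inl ⟨hzK, h1⟩
    · right
      push Not at h1
      set t := 1 - gauge K z with ht
      have hBσ0 : 0 < B * σ^2 := by positivity
      have htB : B * σ^2 ≤ t := by rw [ht]; linarith
      have ht16 : t < 1/16 := by
        by_contra hcon
        push Not at hcon
        have h2 := deep_mac μ hK hc hr hball (z := z) (by rw [ht] at hcon; linarith)
        have h3 := h2.trans hz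
        rw [ENNReal.ofReal_le_ofReal_iff (by positivity)] at h3
        have h4 : s ≤ σ := by
          rw [hs]
          calc σ^(d+1) ≤ σ^1 := pow_le_pow_of_le_one hσ0.le hσ1 (by omega)
            _ = σ := pow_one σ
        linarith
      obtain ⟨k, hk1, hk2⟩ := exists_nat_pow_near (x := t/(B*σ^2)) (y := (2:ℝ))
        (by rw [le_div_iff₀ hBσ0]; linarith) (by norm_num)
      rw [le_div_iff₀ hBσ0] at hk1
      rw [div_lt_iff₀ hBσ0, pow_succ] at hk2
      rw [mem_iUnion]
      refine ⟨k, ?_⟩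
      simp only [hZ]
      have e : B * 2^k * σ^2 = 2^k * (B * σ^2) := by ring
      rw [if_pos (by rw [e]; linarith), e]
      refine ⟨⟨?_, ?_⟩, hz⟩
      · rw [ht] at hk2; linarith
      · rw [ht] at hk1; linarith
  have hsum : ∑' k, ENNReal.ofReal (C1 * σ^2 * (q^2)^k) = ENNReal.ofReal (C1 * σ^2 * (1 - q^2)⁻¹) := by
    have hsummable : Summable fun k : ℕ => C1 * σ^2 * (q^2)^k :=
      (summable_geometric_of_lt_one (by positivity) hq2).mul_left _
    rw [← ENNReal.ofReal_tsum_of_nonneg (fun k => by positivity) hsummable, tsum_mul_left,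
      tsum_geometric_of_lt_one (by positivity) hq2]
  calc μ {z ∈ K | μ (mac K z) ≤ ENNReal.ofReal s}
      ≤ μ {z ∈ K | 1 - B * σ^2 < gauge K z} + μ (⋃ k, Z k) :=
        (measure_mono hcover).trans (measure_union_le _ _)
    _ ≤ ENNReal.ofReal ((d : ℝ) * (B * σ^2) * V) + ∑' k, ENNReal.ofReal (C1 * σ^2 * (q^2)^k) := by
        gcongr
        · exact outer_layer μ hK hc hr hball (by positivity) hBσ
        · exact (measure_iUnion_le _).trans (ENNReal.tsum_le_tsum hZbound)
    _ = ENNReal.ofReal ((d : ℝ) * (B * σ^2) * V + C1 * σ^2 * (1 - q^2)⁻¹) := by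
        have : 0 < 1 - q^2 := by linarith
        rw [hsum, ENNReal.ofReal_add (by positivity) (by positivity)]
    _ ≤ _ := by
        apply ENNReal.ofReal_le_ofReal
        have h1 : ((d : ℝ) * B * V + C1 / (1 - q^2) + 1) * σ^2 =
          (d : ℝ) * (B * σ^2) * V + C1 * σ^2 * (1 - q^2)⁻¹ + σ^2 := by ring
        rw [h1]
        nlinarith [sq_nonneg σ]

end

/-- **Wet part bound** for arbitrary convex bodies. -/
theorem wet_upper {K : Set E} (hK : IsBody K) (hd : 0 < finrank ℝ E) :
    ∃ C > (0:ℝ), ∀ σ, 0 < σ →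
      μ {z ∈ K | macR μ K z ≤ σ ^ (finrank ℝ E + 1)} ≤ ENNReal.ofReal (C * min 1 (σ^2)) := by
  obtain ⟨x₀, hx₀⟩ := hK.int
  obtain ⟨r, hr, hball⟩ := Metric.isOpen_iff.mp isOpen_interior x₀ hx₀
  set K' : Set E := (fun x => x + x₀) ⁻¹' K with hK'
  have hconv' : Convex ℝ K' := by
    have := hK.convex.translate_preimage_right x₀
    convert this using 1
    ext x; simp [hK', add_comm]
  have hcomp' : IsCompact K' := (Homeomorph.addRight x₀).isCompact_preimage.mpr hK.compact
  have hball' : Metric.ball 0 r ⊆ K' := by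
    intro y hy
    rw [mem_ball_zero_iff] at hy
    show y + x₀ ∈ K
    apply interior_subset
    apply hball
    rw [Metric.mem_ball, dist_eq_norm, add_sub_cancel_right]
    exact hy
  obtain ⟨C, hC, σ₀, hσ₀, h⟩ := wet_upper0 μ hconv' hcomp' hr hball' hd
  have hmac : ∀ z, mac K' z = mac K (z + x₀) := by
    intro z
    ext a
    simp only [mac, hK', mem_preimage, mem_ofPred_eq]
    rw [add_right_comm, sub_add_eq_add_sub]
  have hset : ∀ s : ℝ, 0 ≤ s → μ {z ∈ K | macR μ K z ≤ s} =
      μ {z ∈ K' | μ (mac K' z) ≤ ENNReal.ofReal s} := by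
    intro s hs
    have : {z ∈ K' | μ (mac K' z) ≤ ENNReal.ofReal s} =
        (fun x => x + x₀) ⁻¹' {z ∈ K | macR μ K z ≤ s} := by
      ext z
      simp only [mem_ofPred_eq, mem_preimage]
      rw [hmac]
      have h1 : z ∈ K' ↔ z + x₀ ∈ K := Iff.rfl
      rw [h1]
      unfold macR
      rw [ENNReal.le_ofReal_iff_toReal_le ((mac_le μ K _).trans_lt (hK.fin μ).lt_top).ne hs]
    rw [this, measure_preimage_add_right]
  have hV := toReal_pos μ hK
  set σ₁ := min σ₀ 1 with hσ₁
  have hσ₁0 : 0 < σ₁ := lt_min hσ₀ one_pos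
  refine ⟨max C ((μ K).toReal / σ₁^2), lt_max_of_lt_left hC, fun σ hσ => ?_⟩
  by_cases hle : σ ≤ σ₁
  · rw [hset _ (by positivity)]
    refine (h σ hσ (hle.trans (min_le_left _ _))).trans ?_
    apply ENNReal.ofReal_le_ofReal
    have h1 : σ ≤ 1 := hle.trans (min_le_right _ _)
    have h2 : σ^2 ≤ 1 := by nlinarith
    rw [min_eq_right h2]
    gcongr
    exact le_max_left _ _
  · push Not at hle
    have h1 : μ {z ∈ K | macR μ K z ≤ σ ^ (finrank ℝ E + 1)} ≤ μ K := measure_mono (fun z hz => hz.1)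
    refine (h1.trans (ENNReal.ofReal_toReal (hK.fin μ)).ge).trans ?_
    apply ENNReal.ofReal_le_ofReal
    have h2 : σ₁^2 ≤ min 1 (σ^2) := by
      apply le_min
      · have : σ₁ ≤ 1 := min_le_right _ _
        nlinarith
      · gcongr
    calc (μ K).toReal = (μ K).toReal / σ₁^2 * σ₁^2 := by field_simp
      _ ≤ max C ((μ K).toReal / σ₁^2) * min 1 (σ^2) := by
          gcongr
          exact le_max_right _ _

end RPoly
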