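import Pool.Agent.Lib_helper50.RP.Sample

open MeasureTheory Set Module
open scoped ENNReal Pointwise Topology

set_option linter.unusedSectionVars false

namespace RPoly

section hull
variable {E : Type*} [NormedAddCommGroup E] [NormedSpace ℝ E]

lemma mem_hull_range {n : ℕ} (X : Fin n → E) (x : E) :
    x ∈ convexHull ℝ (range X) ↔ ∃ w ∈ stdSimplex ℝ (Fin n), ∑ i, w i • X i = x := by
  constructor
  · intro hx
    have hsub : convexHull ℝ (range X) ⊆
        (fun w : Fin n → ℝ => ∑ i, w i • X i) '' stdSimplex ℝ (Fin n) := by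
      apply convexHull_min
      · rintro _ ⟨i, rfl⟩
        refine ⟨Pi.single i 1, single_mem_stdSimplex ℝ i, ?_⟩
        simp [Pi.single_apply]
      · let L : (Fin n → ℝ) →ₗ[ℝ] E :=
          ∑ i, (LinearMap.proj (R := ℝ) (φ := fun _ : Fin n => ℝ) i).smulRight (X i)
        have : (fun w : Fin n → ℝ => ∑ i, w i • X i) = L := by
          ext w; simp [L]
        rw [this]
        exact (convex_stdSimplex ℝ (Fin n)).linear_image L
    obtain ⟨w, hw, h⟩ := hsub hx
    exact ⟨w, hw, h⟩
  · rintro ⟨w, hw, rfl⟩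
    exact (convex_convexHull ℝ _).sum_mem (fun i _ => hw.1 i) hw.2
      (fun i _ => subset_convexHull ℝ _ ⟨i, rfl⟩)

lemma isClosed_hull (n : ℕ) :
    IsClosed {p : (Fin n → E) × E | p.2 ∈ convexHull ℝ (range p.1)} := by
  have h1 : IsClosed {q : ((Fin n → E) × E) × (stdSimplex ℝ (Fin n)) |
      ∑ i, q.2.1 i • q.1.1 i = q.1.2} := by
    apply isClosed_eq
    · exact continuous_finset_sum _ fun i _ =>
        ((continuous_apply i).comp (continuous_subtype_val.comp continuous_snd)).smul
          ((continuous_apply i).comp (continuous_fst.comp continuous_fst))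
    · fun_prop
  have h2 := isClosedMap_fst_of_compactSpace _ h1
  convert h2 using 1
  ext p
  simp only [mem_ofPred_eq, mem_image, Prod.exists, exists_and_right, exists_eq_right]
  rw [mem_hull_range]
  constructor
  · rintro ⟨w, hw, h⟩
    exact ⟨⟨w, hw⟩, h⟩
  · rintro ⟨w, h⟩
    exact ⟨w.1, w.2, h⟩

end hull

variable {E : Type*} [NormedAddCommGroup E] [NormedSpace ℝ E]
variable [MeasurableSpace E] [BorelSpace E] [FiniteDimensional ℝ E] (μ : Measure E)
  [μ.IsAddHaarMeasure]

lemma measurableSet_hull (n : ℕ) :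
    MeasurableSet {p : (Fin n → E) × E | p.2 ∈ convexHull ℝ (range p.1)} :=
  (isClosed_hull n).measurableSet

/-- `w` bounds the volume of some cap through each interior point. -/
def CapBound (K : Set E) (w : E → ℝ) : Prop :=
  ∀ x ∈ interior K, 0 ≤ w x ∧
    ∃ ℓ : E →L[ℝ] ℝ, μ {y ∈ K | ℓ x ≤ ℓ y} ≤ ENNReal.ofReal (w x)

lemma prob_notMem_ge {K : Set E} (hK : IsBody K) {w : E → ℝ} (hw : CapBound μ K w) (n : ℕ)
    {x : E} (hx : x ∈ interior K) :
    (ENNReal.ofReal (1 - w x / (μ K).toReal)) ^ n ≤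
      samp μ K n {X | x ∉ convexHull ℝ (range X)} := by
  have := unif_prob μ hK
  obtain ⟨hw0, ℓ, hℓ⟩ := hw x hx
  have hV := ENNReal.toReal_pos (hK.pos μ) (hK.fin μ)
  have h1 : Set.pi univ (fun _ : Fin n => {y | ℓ y < ℓ x}) ⊆
      {X : Fin n → E | x ∉ convexHull ℝ (range X)} := by
    intro X hX hmem
    have hsub : convexHull ℝ (range X) ⊆ {y | ℓ y < ℓ x} := by
      apply convexHull_min
      · rintro _ ⟨i, rfl⟩
        exact hX i (mem_univ i)
      · exact convex_halfSpace_lt (f := ℓ) ⟨map_add ℓ, map_smul ℓ⟩ _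
    exact lt_irrefl (ℓ x) (hsub hmem)
  refine le_trans ?_ (measure_mono h1)
  rw [samp, Measure.pi_pi, Finset.prod_const, Finset.card_univ, Fintype.card_fin]
  gcongr
  have hm : MeasurableSet {y : E | ℓ x ≤ ℓ y} :=
    (isClosed_le continuous_const ℓ.continuous).measurableSet
  have h2 : {y : E | ℓ y < ℓ x} = {y : E | ℓ x ≤ ℓ y}ᶜ := by ext y; simp
  rw [h2, prob_compl_eq_one_sub hm]
  have h3 : unif μ K {y : E | ℓ x ≤ ℓ y} ≤ ENNReal.ofReal (w x / (μ K).toReal) := by
    have h4 : unif μ K {y : E | ℓ x ≤ ℓ y} = (μ K)⁻¹ * μ {y ∈ K | ℓ x ≤ ℓ y} := by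
      unfold unif
      rw [Measure.smul_apply, smul_eq_mul, Measure.restrict_apply hm]
      congr 2
      ext y; simp [and_comm]
    rw [h4, ENNReal.ofReal_div_of_pos hV, ENNReal.ofReal_toReal (hK.fin μ),
      ENNReal.div_eq_inv_mul]
    gcongr
  rw [ENNReal.ofReal_sub _ (div_nonneg hw0 hV.le), ENNReal.ofReal_one]
  exact tsub_le_tsub_left h3 _

/-- Lower bound for the expected volume deficit. -/
theorem deficit_lower {K : Set E} (hK : IsBody K) {w : E → ℝ} (hw : CapBound μ K w) (n : ℕ) :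
    ∫⁻ x in K, (ENNReal.ofReal (1 - w x / (μ K).toReal)) ^ n ∂μ ≤
      ∫⁻ X, μ (K \ convexHull ℝ (range X)) ∂(samp μ K n) := by
  have := unif_prob μ hK
  have : IsProbabilityMeasure (samp μ K n) := by unfold samp; infer_instance
  have hKm : MeasurableSet K := hK.compact.isClosed.measurableSet
  set S : Set ((Fin n → E) × E) := {p | p.2 ∈ convexHull ℝ (range p.1)} with hS
  have hSm : MeasurableSet S := measurableSet_hull n
  have e0 : ∀ X : Fin n → E, μ (K \ convexHull ℝ (range X)) =
      ∫⁻ x in K, Sᶜ.indicator 1 (X, x) ∂μ := by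
    intro X
    have hcomp : IsCompact (convexHull ℝ (range X)) := (finite_range X).isCompact_convexHull ℝ
    have : ∀ x, Sᶜ.indicator (1 : (Fin n → E) × E → ℝ≥0∞) (X, x) =
        (convexHull ℝ (range X))ᶜ.indicator 1 x := fun x => rfl
    simp only [this]
    rw [lintegral_indicator_one hcomp.isClosed.measurableSet.compl,
        Measure.restrict_apply hcomp.isClosed.measurableSet.compl, sdiff_eq, inter_comm]
  simp only [e0]
  rw [lintegral_lintegral_swap]
  · apply lintegral_mono_ae
    have h1 : ∀ᵐ x ∂(μ.restrict K), x ∈ interior K := restrict_ae_interior μ hK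
    filter_upwards [h1] with x hx
    refine (prob_notMem_ge μ hK hw n hx).trans ?_
    have hz : MeasurableSet {X : Fin n → E | (X, x) ∈ Sᶜ} := hSm.compl.preimage (by fun_prop)
    have e1 : ∀ X : Fin n → E, Sᶜ.indicator (1 : (Fin n → E) × E → ℝ≥0∞) (X, x) =
        {X : Fin n → E | (X, x) ∈ Sᶜ}.indicator 1 X := by
      intro X; rfl
    simp only [e1]
    rw [lintegral_indicator_one hz]
    apply le_of_eq
    congr 1
  · apply Measurable.aemeasurable
    exact measurable_one.indicator hSm.compl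

/-- `X i` is not in the convex hull of the other points. -/
def Vert {n : ℕ} (X : Fin n → E) (i : Fin n) : Prop := X i ∉ convexHull ℝ (X '' {i}ᶜ)

theorem vert_lower {K : Set E} (hK : IsBody K) {w : E → ℝ} (hw : CapBound μ K w) (N : ℕ)
    (i : Fin (N+1)) :
    (μ K)⁻¹ * ∫⁻ x in K, (ENNReal.ofReal (1 - w x / (μ K).toReal)) ^ N ∂μ ≤
      samp μ K (N+1) {X | Vert X i} := by
  have := unif_prob μ hK
  have : IsProbabilityMeasure (samp μ K N) := by unfold samp; infer_instance
  have hmp := measurePreserving_piFinSuccAbove (fun _ : Fin (N+1) => unif μ K) i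
  set S : Set (E × (Fin N → E)) := {p | p.1 ∉ convexHull ℝ (range p.2)} with hS
  have hSm : MeasurableSet S :=
    (measurableSet_hull (E := E) N).compl.preimage (f := fun p : E × (Fin N → E) => (p.2, p.1))
      (by fun_prop)
  have e1 : {X : Fin (N+1) → E | Vert X i} =
      (MeasurableEquiv.piFinSuccAbove (fun _ => E) i) ⁻¹' S := by
    ext X
    have : X '' {i}ᶜ = range (fun j => X (i.succAbove j)) := by
      ext y
      constructor
      · rintro ⟨k, hk, rfl⟩
        obtain ⟨j, rfl⟩ := Fin.exists_succAbove_eq hk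
        exact ⟨j, rfl⟩
      · rintro ⟨j, rfl⟩
        exact ⟨_, Fin.succAbove_ne i j, rfl⟩
    simp only [mem_ofPred_eq, Vert, this]
    rfl
  rw [e1, samp, hmp.measure_preimage_equiv]
  rw [Measure.prod_apply hSm]
  have e2 : (μ K)⁻¹ * ∫⁻ x in K, (ENNReal.ofReal (1 - w x / (μ K).toReal)) ^ N ∂μ =
      ∫⁻ x, (ENNReal.ofReal (1 - w x / (μ K).toReal)) ^ N ∂(unif μ K) := by
    unfold unif
    rw [lintegral_smul_measure, smul_eq_mul]
  rw [e2]
  apply lintegral_mono_ae
  filter_upwards [unif_ae_interior μ hK] with x hx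
  exact prob_notMem_ge μ hK hw N hx

end RPoly
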