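import Mathlib

open MeasureTheory Set Module
open scoped ENNReal Pointwise Topology

set_option linter.unusedSectionVars false

namespace RPoly

variable {E : Type*} [NormedAddCommGroup E] [NormedSpace ℝ E]

/-- The (centred) Macbeath region of `K` at `z`. -/
def mac (K : Set E) (z : E) : Set E := {a | z + a ∈ K ∧ z - a ∈ K}

lemma mac_neg {K : Set E} {z a : E} (h : a ∈ mac K z) : -a ∈ mac K z := by
  obtain ⟨h1, h2⟩ := h
  exact ⟨by simpa [sub_eq_add_neg] using h2, by simpa using h1⟩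

lemma mac_convex {K : Set E} (hK : Convex ℝ K) (z : E) : Convex ℝ (mac K z) := by
  intro a ha b hb s t hs ht hst
  constructor
  · have := hK ha.1 hb.1 hs ht hst
    have e : s • (z + a) + t • (z + b) = z + (s • a + t • b) := by
      rw [smul_add, smul_add, add_add_add_comm, ← add_smul, hst, one_smul]
    rwa [e] at this
  · have := hK ha.2 hb.2 hs ht hst
    have e : s • (z - a) + t • (z - b) = z - (s • a + t • b) := by
      rw [smul_sub, smul_sub, sub_add_sub_comm, ← add_smul, hst, one_smul]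
    rwa [e] at this

lemma mac_center {K : Set E} {z : E} (hz : z ∈ K) : (0 : E) ∈ mac K z := by
  constructor <;> simpa using hz

lemma center_mem {K : Set E} (hK : Convex ℝ K) {z a : E} (h : a ∈ mac K z) : z ∈ K := by
  have := hK h.1 h.2 (show (0:ℝ) ≤ 1/2 by norm_num) (show (0:ℝ) ≤ 1/2 by norm_num) (by norm_num)
  have e : (1/2:ℝ) • (z + a) + (1/2:ℝ) • (z - a) = z := by
    rw [← smul_add, add_add_sub_cancel, smul_add, ← add_smul]; norm_num
  rwa [e] at this

lemma mac_smul {K : Set E} (hK : Convex ℝ K) {z a : E} (h : a ∈ mac K z) {s : ℝ}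
    (hs : |s| ≤ 1) : s • a ∈ mac K z := by
  obtain ⟨h1, h2⟩ := abs_le.mp hs
  have := (mac_convex hK z) h (mac_neg h) (show (0:ℝ) ≤ (1+s)/2 by linarith)
    (show (0:ℝ) ≤ (1-s)/2 by linarith) (by ring)
  have e : ((1+s)/2) • a + ((1-s)/2) • (-a) = s • a := by
    rw [smul_neg, ← sub_eq_add_neg, ← sub_smul]; congr 1; ring
  rwa [e] at this

/-- Existence of a center of a convex body, by Helly's theorem. -/
lemma exists_center [FiniteDimensional ℝ E] {C : Set E} (hC : Convex ℝ C) (hc : IsCompact C)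
    (hne : C.Nonempty) (hd : 0 < finrank ℝ E) :
    ∃ g ∈ C, ∀ y ∈ C, g - (1/(finrank ℝ E : ℝ)) • (y - g) ∈ C := by
  classical
  set d := finrank ℝ E with hdef
  have hd' : (0:ℝ) < d := by exact_mod_cast hd
  obtain ⟨y0, hy0⟩ := hne
  let F : C → Set E := fun y => {g | g - (1/(d:ℝ)) • ((y:E) - g) ∈ C}
  have hform : ∀ (y : E) (g : E), g - (1/(d:ℝ)) • (y - g) = (1 + 1/(d:ℝ)) • g - (1/(d:ℝ)) • y := by
    intro y g
    rw [smul_sub, add_smul, one_smul]; abel
  have h_convex : ∀ y, Convex ℝ (F y) := by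
    intro y g1 hg1 g2 hg2 s t hs ht hst
    have := hC hg1 hg2 hs ht hst
    show (s • g1 + t • g2) - (1/(d:ℝ)) • ((y:E) - (s • g1 + t • g2)) ∈ C
    have ht' : t = 1 - s := by linarith
    subst ht'
    convert this using 1
    module
  have h_compact : ∀ y, IsCompact (F y) := by
    intro y
    have e : F y = (fun x : E => (1 + 1/(d:ℝ))⁻¹ • (x + (1/(d:ℝ)) • (y:E))) '' C := by
      ext g
      constructor
      · intro hg
        refine ⟨g - (1/(d:ℝ)) • ((y:E) - g), hg, ?_⟩
        simp only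
        rw [hform, sub_add_cancel, smul_smul, inv_mul_cancel₀ (by positivity), one_smul]
      · rintro ⟨x, hx, rfl⟩
        show _ ∈ C
        rw [hform, smul_smul, mul_inv_cancel₀ (by positivity), one_smul, add_sub_cancel_right]
        exact hx
    rw [e]
    exact hc.image (by fun_prop)
  have h_inter : ∀ I : Finset C, I.card ≤ finrank ℝ E + 1 → (⋂ i ∈ I, F i).Nonempty := by
    intro I hI
    rw [← hdef] at hI
    set k := I.card with hk
    refine ⟨(1/((d:ℝ)+1)) • (∑ i ∈ I, (i:E) + ((d:ℝ)+1-k) • y0), ?_⟩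
    rw [Set.mem_iInter₂]
    intro i hi
    show _ ∈ C
    rw [hform, smul_smul]
    have e1 : (1 + 1/(d:ℝ)) * (1/((d:ℝ)+1)) = 1/(d:ℝ) := by field_simp
    rw [e1, ← smul_sub]
    have e2 : (∑ j ∈ I, (j:E) + ((d:ℝ)+1-k) • y0) - (i:E) =
        ∑ j ∈ I.erase i, (j:E) + ((d:ℝ)+1-k) • y0 := by
      rw [← Finset.add_sum_erase I (fun j => (j:E)) hi]; abel
    rw [e2]
    have hk1 : (k:ℝ) ≤ (d:ℝ) + 1 := by exact_mod_cast hI
    -- convex combination
    have e3 : (1/(d:ℝ)) • (∑ j ∈ I.erase i, (j:E) + ((d:ℝ)+1-k) • y0) =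
        ∑ j ∈ Finset.insertNone (I.erase i), (j.elim (((d:ℝ)+1-k)/d) (fun _ => 1/(d:ℝ))) •
          (j.elim y0 (fun j => (j:E))) := by
      rw [Finset.sum_insertNone, smul_add, smul_smul, Finset.smul_sum, add_comm]
      simp only [Option.elim]
      congr 2; ring
    rw [e3]
    apply hC.sum_mem
    · intro j _
      cases j with
      | none => exact div_nonneg (by linarith) hd'.le
      | some j => simp only [Option.elim]; positivity
    · rw [Finset.sum_insertNone]
      simp only [Option.elim, Finset.sum_const, nsmul_eq_mul, Finset.card_erase_of_mem hi]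
      have hk0 : 1 ≤ I.card := Finset.card_pos.mpr ⟨i, hi⟩
      rw [Nat.cast_sub hk0, ← hk]
      field_simp
      push_cast
      ring
    · intro j _
      cases j with
      | none => exact hy0
      | some j => exact j.2
  obtain ⟨g, hg⟩ := Convex.helly_theorem_compact' (𝕜 := ℝ) h_convex h_compact h_inter
  rw [Set.mem_iInter] at hg
  have hg' : ∀ y ∈ C, g - (1/(d:ℝ)) • (y - g) ∈ C := fun y hy => hg ⟨y, hy⟩
  refine ⟨g, ?_, hg'⟩
  have h1 := hg' y0 hy0
  have := hC h1 hy0 (show (0:ℝ) ≤ d/(d+1) by positivity) (show (0:ℝ) ≤ 1/(d+1) by positivity)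
    (by field_simp)
  have e : ((d:ℝ)/(d+1)) • (g - (1/(d:ℝ)) • (y0 - g)) + ((1:ℝ)/(d+1)) • y0 = g := by
    rw [hform, smul_sub, smul_smul, smul_smul]
    have e1 : (d:ℝ)/(d+1) * (1 + 1/(d:ℝ)) = 1 := by field_simp
    have e2 : (d:ℝ)/(d+1) * (1/(d:ℝ)) = 1/(d+1) := by field_simp
    rw [e1, e2, one_smul, sub_add_cancel]
  rwa [e] at this

lemma mac_lin_bound {K : Set E} {ℓ : E →L[ℝ] ℝ} {c M : ℝ} {z : E} {D : ℝ}
    (hM : ∀ y ∈ K, ℓ y ≤ M) (hz : M - ℓ z ≤ D * (ℓ z - c)) {a : E} (ha : a ∈ mac K z) :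
    |ℓ a| ≤ D * (ℓ z - c) := by
  have h1 := hM _ ha.1
  have h2 := hM _ ha.2
  rw [map_add] at h1
  rw [map_sub] at h2
  rw [abs_le]
  constructor <;> linarith

/-- Geometry of a cap: there is a center `z` such that all points `z'` of a small Macbeath
region around `z` see the cap from the inside at the right scale. -/
theorem cap_geometry [FiniteDimensional ℝ E] {K : Set E} (hK : Convex ℝ K) (hc : IsCompact K)
    (ℓ : E →L[ℝ] ℝ) (c : ℝ) (hex : ∃ y ∈ K, c < ℓ y) (hd : 0 < finrank ℝ E) :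
    ∃ z ∈ K,
      (∀ y ∈ K, c ≤ ℓ y → (1/(finrank ℝ E : ℝ)) • (y - z) ∈ mac K z) ∧
      (∀ b ∈ mac K z,
        z + (1/(2*(finrank ℝ E : ℝ))) • b ∈ K ∧
        (∀ a ∈ mac K (z + (1/(2*(finrank ℝ E : ℝ))) • b), (1/2:ℝ) • a ∈ mac K z) ∧
        (∀ y ∈ K, c ≤ ℓ y → (1/(2*(finrank ℝ E : ℝ)+1)) •
          (y - (z + (1/(2*(finrank ℝ E : ℝ))) • b)) ∈ mac K (z + (1/(2*(finrank ℝ E : ℝ))) • b)) ∧
        (∀ x, (5*(finrank ℝ E : ℝ)) • (x - (z + (1/(2*(finrank ℝ E : ℝ))) • b)) ∈
          mac K (z + (1/(2*(finrank ℝ E : ℝ))) • b) → c < ℓ x)) := by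
  set d : ℝ := (finrank ℝ E : ℝ) with hdef
  have hd1 : (1:ℝ) ≤ d := by rw [hdef]; exact_mod_cast hd
  have hd' : (0:ℝ) < d := by linarith
  obtain ⟨y1, hy1, hy1c⟩ := hex
  set C : Set E := {y ∈ K | c ≤ ℓ y} with hC
  have hCc : IsCompact C :=
    hc.inter_right (isClosed_le continuous_const ℓ.continuous)
  have hCconv : Convex ℝ C :=
    hK.inter (convex_halfSpace_ge (f := ℓ) ⟨map_add ℓ, map_smul ℓ⟩ c)
  obtain ⟨z, hzC, hz⟩ := exists_center hCconv hCc ⟨y1, hy1, hy1c.le⟩ hd
  obtain ⟨ys, hys, hmax⟩ := hCc.exists_isMaxOn ⟨y1, hy1, hy1c.le⟩ ℓ.continuous.continuousOn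
  have hmax' : ∀ y ∈ K, ℓ y ≤ ℓ ys := by
    intro y hy
    by_cases h : c ≤ ℓ y
    · exact hmax ⟨hy, h⟩
    · exact (not_le.mp h).le.trans hys.2
  have hM : ℓ ys - ℓ z ≤ d * (ℓ z - c) := by
    have := (hz ys hys).2
    rw [map_sub, map_smul, map_sub, smul_eq_mul] at this
    have h2 : d * (1/d * (ℓ ys - ℓ z)) ≤ d * (ℓ z - c) :=
      mul_le_mul_of_nonneg_left (by linarith) hd'.le
    have h3 : d * (1/d * (ℓ ys - ℓ z)) = ℓ ys - ℓ z := by field_simp
    linarith
  have hzc : c < ℓ z := by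
    have h1 : c < ℓ ys := hy1c.trans_le (hmax' y1 hy1)
    by_contra h
    have h2 : ℓ z - c ≤ 0 := by linarith
    have h3 : ℓ z = c := le_antisymm (by linarith) hzC.2
    rw [h3] at hM
    linarith [mul_zero d, show d * (c - c) = 0 by ring]
  have hA : ∀ y ∈ K, c ≤ ℓ y → (1/d) • (y - z) ∈ mac K z := by
    intro y hy hyc
    constructor
    · have := hCconv ⟨hy, hyc⟩ hzC (show (0:ℝ) ≤ 1/d by positivity)
        (show (0:ℝ) ≤ 1 - 1/d by rw [sub_nonneg, div_le_one hd']; exact hd1) (by ring)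
      have e : (1/d) • y + (1 - 1/d) • z = z + (1/d) • (y - z) := by
        rw [smul_sub, sub_smul, one_smul]; abel
      rw [e] at this
      exact this.1
    · exact (hz y ⟨hy, hyc⟩).1
  refine ⟨z, hzC.1, hA, ?_⟩
  intro b hb
  set z' := z + (1/(2*d)) • b with hz'
  have hε0 : (0:ℝ) ≤ 1/(2*d) := by positivity
  have hε : 1/(2*d) ≤ 1/2 := by
    apply one_div_le_one_div_of_le (by norm_num); linarith
  have hεabs : |1/(2*d)| ≤ 1 := by rw [abs_of_nonneg hε0]; linarith
  have hb' := mac_smul hK hb hεabs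
  -- scaled Macbeath region
  have hshift : ∀ a ∈ mac K z, (1 - 1/(2*d)) • a ∈ mac K z' := by
    intro a ha
    constructor
    · have := hK hb.1 ha.1 hε0 (show (0:ℝ) ≤ 1 - 1/(2*d) by linarith) (by ring)
      convert this using 1
      rw [hz']; module
    · have := hK hb.1 ha.2 hε0 (show (0:ℝ) ≤ 1 - 1/(2*d) by linarith) (by ring)
      convert this using 1
      rw [hz']; module
  have hhalf : ∀ a ∈ mac K z', (1/2:ℝ) • a ∈ mac K z := by
    intro a ha
    constructor
    · have := hK ha.1 hb'.2 (show (0:ℝ) ≤ 1/2 by norm_num) (show (0:ℝ) ≤ 1/2 by norm_num)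
        (by norm_num)
      convert this using 1
      rw [hz']; module
    · have := hK ha.2 hb'.2 (show (0:ℝ) ≤ 1/2 by norm_num) (show (0:ℝ) ≤ 1/2 by norm_num)
        (by norm_num)
      convert this using 1
      rw [hz']; module
  refine ⟨hb'.1, hhalf, ?_, ?_⟩
  · intro y hy hyc
    -- y - z' = d a - ε b
    have ha := hA y hy hyc
    -- (1/(2d+1)) (y - z') = (1-ε) ∘ convex comb
    have hnb := mac_neg hb
    have h0 : (0:E) ∈ mac K z := mac_center hzC.1
    have hden : (0:ℝ) < (2*d+1) * (1 - 1/(2*d)) := by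
      apply mul_pos (by positivity); linarith
    set p : ℝ := d / ((2*d+1) * (1 - 1/(2*d))) with hp
    set q : ℝ := (1/(2*d)) / ((2*d+1) * (1 - 1/(2*d))) with hq
    have hp0 : 0 ≤ p := by positivity
    have hq0 : 0 ≤ q := by positivity
    have hpq : p + q ≤ 1 := by
      rw [hp, hq, ← add_div, div_le_one hden]
      have : (2*d+1) * (1 - 1/(2*d)) - (d + 1/(2*d)) = (d^2 - 1)/d := by
        field_simp; ring
      have h2 : 0 ≤ (d^2 - 1)/d := div_nonneg (by nlinarith) hd'.le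
      linarith
    have hcomb : p • ((1/d) • (y - z)) + q • (-b) ∈ mac K z := by
      have hconv := mac_convex hK z
      by_cases hpq0 : p + q = 0
      · have hp' : p = 0 := by linarith
        have hq' : q = 0 := by linarith
        rw [hp', hq']; simpa using h0
      · have hpos : 0 < p + q := lt_of_le_of_ne (by positivity) (Ne.symm hpq0)
        have h1 := hconv ha hnb (show 0 ≤ p/(p+q) by positivity) (show 0 ≤ q/(p+q) by positivity)
          (by field_simp)
        have h2 := mac_smul hK h1 (s := p+q) (by rw [abs_of_nonneg hpos.le]; exact hpq)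
        convert h2 using 1
        rw [smul_add, smul_smul (p+q), smul_smul (p+q), mul_div_cancel₀ _ hpos.ne',
          mul_div_cancel₀ _ hpos.ne']
    have h3 := hshift _ hcomb
    convert h3 using 1
    rw [hz', smul_add, smul_neg, smul_neg, smul_smul, smul_smul, smul_smul, hp, hq]
    have hd2 : (2*d - 1) ≠ 0 := by linarith
    have hne : (1 - 1/(2*d)) ≠ 0 := by linarith
    have e1 : (1 - 1 / (2 * d)) * (d / ((2 * d + 1) * (1 - 1 / (2 * d)))) * (1 / d) = 1/(2*d+1) := by
      field_simp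
    have e2 : (1 - 1 / (2 * d)) * (1 / (2 * d) / ((2 * d + 1) * (1 - 1 / (2 * d)))) =
        1/(2*d+1) * (1/(2*d)) := by
      field_simp
    rw [e1, e2]
    module
  · intro x hx
    have hx2 := hhalf _ hx
    have b1 := mac_lin_bound hmax' hM hx2
    have b2 := mac_lin_bound hmax' hM hb
    rw [smul_smul, map_smul, map_sub, hz', map_add, map_smul, smul_eq_mul, smul_eq_mul] at b1
    have b1' := (abs_le.mp b1).1
    have b2' := (abs_le.mp b2).1
    have e1 : -(2/5 * (ℓ z - c)) ≤ ℓ x - (ℓ z + 1 / (2 * d) * ℓ b) := by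
      by_contra h
      have h' := not_le.mp h
      have := mul_lt_mul_of_pos_left h' (show (0:ℝ) < 1/2 * (5*d) by positivity)
      nlinarith
    have e2 : -(1/2 * (ℓ z - c)) ≤ 1 / (2 * d) * ℓ b := by
      have := mul_le_mul_of_nonneg_left b2' hε0
      have e : 1/(2*d) * -(d * (ℓ z - c)) = -(1/2 * (ℓ z - c)) := by field_simp
      linarith
    linarith

end RPoly
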