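import Pool.Agent.Lib_helper50.RP.Gauge4

open MeasureTheory Set Module Filter
open scoped ENNReal Pointwise Topology NNReal

set_option linter.unusedSectionVars false

namespace RPoly

variable {E : Type*} [NormedAddCommGroup E] [NormedSpace ℝ E]

/-- Second order Taylor lower bound at a point of twice differentiability. -/
lemma taylor_lower {F : E → ℝ} {p : E} (h1 : ∀ᶠ x in 𝓝 p, DifferentiableAt ℝ F x)
    (h2 : DifferentiableAt ℝ (fderiv ℝ F) p) {ε : ℝ} (hε : 0 < ε) :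
    ∃ δ > 0, ∀ v : E, ‖v‖ < δ →
      F p + fderiv ℝ F p v + 1/2 * fderiv ℝ (fderiv ℝ F) p v v - ε * ‖v‖^2 ≤ F (p + v) := by
  set L := fderiv ℝ F p with hL
  set Q := fderiv ℝ (fderiv ℝ F) p with hQ
  have h3 := h2.hasFDerivAt.isLittleO.def hε
  obtain ⟨δ, hδ, hball⟩ := Metric.eventually_nhds_iff_ball.mp (h1.and h3)
  refine ⟨δ, hδ, fun v hv => ?_⟩
  -- the auxiliary function on `[0,1]`
  set φ : ℝ → ℝ := fun s => F (p + s • v) - s * L v - 1/2 * s^2 * Q v v with hφ
  have hmem : ∀ s ∈ Icc (0:ℝ) 1, p + s • v ∈ Metric.ball p δ := by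
    intro s hs
    rw [Metric.mem_ball, dist_eq_norm, add_sub_cancel_left, norm_smul, Real.norm_eq_abs,
      abs_of_nonneg hs.1]
    calc s * ‖v‖ ≤ 1 * ‖v‖ := by gcongr; exact hs.2
      _ = ‖v‖ := one_mul _
      _ < δ := hv
  have hderiv : ∀ s ∈ Icc (0:ℝ) 1, HasDerivAt φ (fderiv ℝ F (p + s • v) v - L v - s * Q v v) s := by
    intro s hs
    have hF := (hball _ (hmem s hs)).1.hasFDerivAt
    have hline : HasDerivAt (fun s : ℝ => p + s • v) v s := by
      have := (hasDerivAt_id s).smul_const v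
      simpa using this.const_add p
    have hc := hF.comp_hasDerivAt s hline
    have h4 : HasDerivAt (fun s : ℝ => s * L v) (L v) s := by
      simpa using (hasDerivAt_id s).mul_const (L v)
    have h5 : HasDerivAt (fun s : ℝ => 1/2 * s^2 * Q v v) (s * Q v v) s := by
      have := ((hasDerivAt_pow 2 s).const_mul (1/2)).mul_const (Q v v)
      refine this.congr_deriv ?_
      norm_num
      left; ring
    exact (hc.sub h4).sub h5
  have hbound : ∀ s ∈ Ico (0:ℝ) 1, ‖fderiv ℝ F (p + s • v) v - L v - s * Q v v‖ ≤ ε * ‖v‖^2 := by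
    intro s hs
    have hs' : s ∈ Icc (0:ℝ) 1 := ⟨hs.1, hs.2.le⟩
    have h4 := (hball _ (hmem s hs')).2
    rw [add_sub_cancel_left, map_smul] at h4
    have h5 : fderiv ℝ F (p + s • v) v - L v - s * Q v v =
        (fderiv ℝ F (p + s • v) - L - s • Q v) v := by
      simp
    rw [h5]
    calc ‖(fderiv ℝ F (p + s • v) - L - s • Q v) v‖
        ≤ ‖fderiv ℝ F (p + s • v) - L - s • Q v‖ * ‖v‖ := ContinuousLinearMap.le_opNorm _ _
      _ ≤ (ε * ‖s • v‖) * ‖v‖ := by gcongr
      _ = ε * (s * ‖v‖^2) := by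
          rw [norm_smul, Real.norm_eq_abs, abs_of_nonneg hs.1]; ring
      _ ≤ ε * (1 * ‖v‖^2) := by gcongr; exact hs.2.le
      _ = ε * ‖v‖^2 := by ring
  have hmv := norm_image_sub_le_of_norm_deriv_le_segment_01' (f := φ)
    (fun s hs => (hderiv s hs).hasDerivWithinAt) hbound
  have h6 := (abs_le.mp hmv).1
  simp only [hφ, one_smul, zero_smul, add_zero, one_pow, mul_one, one_mul, zero_mul, ne_eq,
    OfNat.ofNat_ne_zero, not_false_eq_true, zero_pow, mul_zero, sub_zero] at h6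
  linarith

/-- positivity on the kernel implies coercivity after adding a multiple of `L²`. -/
lemma exists_coercive [FiniteDimensional ℝ E] (L : E →L[ℝ] ℝ) (Q : E →L[ℝ] (E →L[ℝ] ℝ))
    (hQ : ∀ v, v ≠ 0 → L v = 0 → 0 < Q v v) :
    ∃ c > (0:ℝ), ∃ A ≥ (0:ℝ), ∀ v, c * ‖v‖^2 ≤ Q v v + A * (L v)^2 := by
  have hS : IsCompact (Metric.sphere (0:E) 1) := isCompact_sphere _ _
  have hQc : Continuous fun v => Q v v := by fun_prop
  have hLc : Continuous fun v => (L v)^2 := by fun_prop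
  set U : ℕ → Set E := fun n => {v | 1/((n:ℝ)+1) < Q v v + n * (L v)^2} with hU
  have hUo : ∀ n, IsOpen (U n) := by
    intro n
    exact isOpen_lt continuous_const (hQc.add (continuous_const.mul hLc))
  have hUm : Monotone U := by
    intro m n hmn v hv
    have hv' : 1/((m:ℝ)+1) < Q v v + m * (L v)^2 := hv
    show 1/((n:ℝ)+1) < Q v v + n * (L v)^2
    have h1 : (m:ℝ) ≤ n := by exact_mod_cast hmn
    have h2 : 1/((n:ℝ)+1) ≤ 1/((m:ℝ)+1) := one_div_le_one_div_of_le (by positivity) (by linarith)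
    have h3 : (m:ℝ) * (L v)^2 ≤ n * (L v)^2 := mul_le_mul_of_nonneg_right h1 (sq_nonneg _)
    linarith
  have hcov : Metric.sphere (0:E) 1 ⊆ ⋃ n, U n := by
    intro v hv
    rw [mem_sphere_zero_iff_norm] at hv
    have hv0 : v ≠ 0 := by rintro rfl; simp at hv
    rw [mem_iUnion]
    by_cases hL : L v = 0
    · obtain ⟨n, hn⟩ := exists_nat_one_div_lt (hQ v hv0 hL)
      refine ⟨n, ?_⟩
      show 1/((n:ℝ)+1) < Q v v + n * (L v)^2
      rw [hL]; simpa using hn
    · have hpos : 0 < (L v)^2 := by positivity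
      obtain ⟨n, hn⟩ := exists_nat_gt ((1 - Q v v) / (L v)^2)
      refine ⟨n, ?_⟩
      show 1/((n:ℝ)+1) < Q v v + n * (L v)^2
      rw [div_lt_iff₀ hpos] at hn
      have : 1/((n:ℝ)+1) ≤ 1 := by
        rw [div_le_one (by positivity)]
        have : (0:ℝ) ≤ n := Nat.cast_nonneg n
        linarith
      linarith
  obtain ⟨n, hn⟩ := hS.elim_directed_cover U hUo hcov (hUm.directed_le)
  refine ⟨1/((n:ℝ)+1), by positivity, n, Nat.cast_nonneg n, fun v => ?_⟩
  by_cases hv : v = 0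
  · rw [hv]; simp
  · have hvn : 0 < ‖v‖ := norm_pos_iff.mpr hv
    have hmem : (‖v‖⁻¹ • v) ∈ Metric.sphere (0:E) 1 := by
      rw [mem_sphere_zero_iff_norm, norm_smul, norm_inv, norm_norm, inv_mul_cancel₀ hvn.ne']
    have h1 : 1/((n:ℝ)+1) < Q (‖v‖⁻¹ • v) (‖v‖⁻¹ • v) + n * (L (‖v‖⁻¹ • v))^2 := hn hmem
    simp only [map_smul, smul_apply, smul_eq_mul] at h1
    have h2 : ‖v‖⁻¹ * (‖v‖⁻¹ * Q v v) + n * (‖v‖⁻¹ * L v)^2 = (Q v v + n * (L v)^2) / ‖v‖^2 := by
      field_simp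
    rw [h2, lt_div_iff₀ (by positivity)] at h1
    exact h1.le

/-- Outer ball condition at `p` with parameter `R`. -/
def OB (K : Set E) (p : E) (R : ℝ) : Prop :=
  ∃ ℓ : E →L[ℝ] ℝ, ‖ℓ‖ = 1 ∧ ∀ y ∈ K, ‖y - p‖^2 ≤ R * ℓ (p - y)

/-- Every boundary point satisfies an outer ball condition. -/
lemma IsSmoothBody.exists_OB [FiniteDimensional ℝ E] {K : Set E} (hK : IsSmoothBody K) {p : E}
    (hp : p ∈ frontier K) : ∃ R > 0, OB K p R := by
  obtain ⟨F, h1, h2, h3, h4, h5⟩ := hK.boundary p hp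
  set L := fderiv ℝ F p with hL
  set Q := fderiv ℝ (fderiv ℝ F) p with hQ
  have hLn : 0 < ‖L‖ := norm_pos_iff.mpr h3
  obtain ⟨c, hc, A, hA, hcoer⟩ := exists_coercive L Q h4
  obtain ⟨δ₁, hδ₁, htay⟩ := taylor_lower h1 h2 (ε := c/4) (by positivity)
  obtain ⟨δ₂, hδ₂, hball⟩ := Metric.eventually_nhds_iff_ball.mp h5
  have hpK : p ∈ K := by
    have := frontier_subset_closure hp
    rwa [hK.compact.isClosed.closure_eq] at this
  -- `F p = 0`
  have hFp : 0 ≤ F p := by
    by_contra hcon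
    push Not at hcon
    have hcont : ContinuousAt F p := h1.self_of_nhds.continuousAt
    have h6 : ∀ᶠ x in 𝓝 p, F x < 0 := hcont.eventually_lt continuousAt_const hcon
    have h7 : ∀ᶠ x in 𝓝 p, x ∈ K := by
      filter_upwards [h5, h6] with x hx1 hx2
      exact hx1.mpr hx2.le
    exact hp.2 (mem_interior_iff_mem_nhds.mpr h7)
  -- local estimate
  set δ := min (min δ₁ δ₂) (1/(A * ‖L‖ + 1)) with hδdef
  have hδ : 0 < δ := lt_min (lt_min hδ₁ hδ₂) (by positivity)
  set ℓ : E →L[ℝ] ℝ := (‖L‖⁻¹) • L with hℓ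
  have hℓn : ‖ℓ‖ = 1 := by
    rw [hℓ, norm_smul, norm_inv, norm_norm, inv_mul_cancel₀ hLn.ne']
  set R₀ := 6 * ‖L‖ / c with hR₀
  have hR₀pos : 0 < R₀ := by positivity
  have hloc : ∀ y ∈ K, ‖y - p‖ < δ → ‖y - p‖^2 ≤ R₀ * ℓ (p - y) := by
    intro y hy hyδ
    set v := y - p with hv
    have hyv : y = p + v := by rw [hv]; abel
    have hv1 : ‖v‖ < δ₁ := hyδ.trans_le ((min_le_left _ _).trans (min_le_left _ _))
    have hv2 : ‖v‖ < δ₂ := hyδ.trans_le ((min_le_left _ _).trans (min_le_right _ _))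
    have hv3 : ‖v‖ ≤ 1/(A * ‖L‖ + 1) := (hyδ.trans_le (min_le_right _ _)).le
    have hFy : F y ≤ 0 := (hball y (by rw [Metric.mem_ball, dist_eq_norm]; exact hv2)).mp hy
    have ht := htay v hv1
    rw [← hyv] at ht
    have hco := hcoer v
    have hLv : |L v| ≤ ‖L‖ * ‖v‖ := L.le_opNorm v
    have hsmall : A * (L v)^2 ≤ |L v| := by
      have h6 : A * (L v)^2 = (A * |L v|) * |L v| := by rw [← sq_abs (L v)]; ring
      rw [h6]
      have h7 : A * |L v| ≤ 1 := by
        calc A * |L v| ≤ A * (‖L‖ * ‖v‖) := by gcongr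
          _ = (A * ‖L‖) * ‖v‖ := by ring
          _ ≤ (A * ‖L‖ + 1) * (1/(A * ‖L‖ + 1)) := by gcongr; linarith
          _ = 1 := by field_simp
      calc (A * |L v|) * |L v| ≤ 1 * |L v| := by gcongr
        _ = |L v| := one_mul _
    -- `(c/4)‖v‖² ≤ -L v + |L v|/2`
    have hmain : c/4 * ‖v‖^2 ≤ - L v + |L v|/2 := by linarith
    have hneg : L v ≤ 0 := by
      by_contra hcon
      push Not at hcon
      rw [abs_of_pos hcon] at hmain
      have : 0 ≤ c/4 * ‖v‖^2 := by positivity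
      linarith
    rw [abs_of_nonpos hneg] at hmain
    have hℓv : ℓ (p - y) = ‖L‖⁻¹ * (- L v) := by
      have : p - y = -v := by rw [hv]; abel
      rw [this, map_neg, hℓ, smul_apply, smul_eq_mul]; ring
    rw [hℓv, hR₀]
    have : 6 * ‖L‖ / c * (‖L‖⁻¹ * -L v) = 6 / c * (- L v) := by
      field_simp
    rw [this]
    rw [div_mul_eq_mul_div, le_div_iff₀ hc]
    linarith
  -- globalise
  obtain ⟨D, hD⟩ := hK.compact.isBounded.subset_closedBall p
  have hDpos : 0 ≤ D := by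
    have := hD hpK
    rw [Metric.mem_closedBall, dist_self] at this
    exact this
  refine ⟨max R₀ (2 * R₀ * (D+1) / δ), lt_max_of_lt_left hR₀pos, ℓ, hℓn, ?_⟩
  intro y hy
  by_cases hyδ : ‖y - p‖ < δ
  · have h6 := hloc y hy hyδ
    have h7 : 0 ≤ ℓ (p - y) := by
      by_contra hcon
      push Not at hcon
      have : R₀ * ℓ (p - y) < 0 := mul_neg_of_pos_of_neg hR₀pos hcon
      have : 0 ≤ ‖y - p‖^2 := by positivity
      linarith
    exact h6.trans (mul_le_mul_of_nonneg_right (le_max_left _ _) h7)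
  · push Not at hyδ
    have hn : 0 < ‖y - p‖ := hδ.trans_le hyδ
    set s := δ / (2 * ‖y - p‖) with hs
    have hs0 : 0 < s := by positivity
    have hs1 : s ≤ 1 := by
      rw [hs, div_le_one (by positivity)]; linarith
    set y' := p + s • (y - p) with hy'
    have hy'K : y' ∈ K := by
      have := hK.convex hpK hy (show (0:ℝ) ≤ 1 - s by linarith) hs0.le (by ring)
      convert this using 1
      rw [hy']; module
    have hy'p : y' - p = s • (y - p) := by rw [hy']; abel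
    have hy'n : ‖y' - p‖ = δ/2 := by
      rw [hy'p, norm_smul, Real.norm_eq_abs, abs_of_pos hs0, hs]
      field_simp
    have h6 := hloc y' hy'K (by rw [hy'n]; linarith)
    have h7 : p - y' = s • (p - y) := by rw [hy']; module
    rw [h7, map_smul, hy'p, norm_smul, Real.norm_eq_abs, abs_of_pos hs0, smul_eq_mul, mul_pow] at h6
    have h8 : s * ‖y - p‖^2 ≤ R₀ * ℓ (p - y) := by
      have : s * (s * ‖y - p‖^2) ≤ s * (R₀ * ℓ (p - y)) := by linarith
      exact le_of_mul_le_mul_left this hs0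
    have h9 : 0 ≤ ℓ (p - y) := by
      by_contra hcon
      push Not at hcon
      have : R₀ * ℓ (p - y) < 0 := mul_neg_of_pos_of_neg hR₀pos hcon
      have : 0 ≤ s * ‖y - p‖^2 := by positivity
      linarith
    have h10 : ‖y - p‖ ≤ D + 1 := by
      have := hD hy
      rw [Metric.mem_closedBall, dist_eq_norm] at this
      linarith
    calc ‖y - p‖^2 = (1/s) * (s * ‖y - p‖^2) := by field_simp
      _ ≤ (1/s) * (R₀ * ℓ (p - y)) := by gcongr
      _ = (2 * R₀ * ‖y - p‖ / δ) * ℓ (p - y) := by rw [hs]; field_simp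
      _ ≤ (2 * R₀ * (D+1) / δ) * ℓ (p - y) := by gcongr
      _ ≤ _ := mul_le_mul_of_nonneg_right (le_max_right _ _) h9

lemma OB.mono {K : Set E} {p : E} {R R' : ℝ} (h : OB K p R) (hR : 0 < R) (hRR' : R ≤ R') :
    OB K p R' := by
  obtain ⟨ℓ, h1, h2⟩ := h
  refine ⟨ℓ, h1, fun y hy => (h2 y hy).trans ?_⟩
  apply mul_le_mul_of_nonneg_right hRR'
  by_contra hcon
  push Not at hcon
  have h3 := h2 y hy
  have : R * ℓ (p - y) < 0 := mul_neg_of_pos_of_neg hR hcon
  have : 0 ≤ ‖y - p‖^2 := by positivity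
  linarith

/-- On an open patch of the boundary the outer ball condition is uniform (Baire). -/
lemma IsSmoothBody.exists_patch [FiniteDimensional ℝ E] {K : Set E} (hK : IsSmoothBody K)
    (hd : 0 < finrank ℝ E) :
    ∃ p₀ ∈ frontier K, ∃ δ > 0, ∃ R > 0, ∀ q ∈ frontier K, dist q p₀ < δ → OB K q R := by
  have hne : (frontier K).Nonempty := by
    rw [nonempty_frontier_iff]
    refine ⟨hK.interior_nonempty.mono interior_subset, ?_⟩
    intro h
    have : Nontrivial E := finrank_pos_iff.mp hd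
    exact (noncompact_univ E) (h ▸ hK.compact)
  have hcl : IsClosed (frontier K) := isClosed_frontier
  have : Nonempty (frontier K) := hne.to_subtype
  have : CompleteSpace (frontier K) := hcl.completeSpace_coe
  set f : ℕ → Set (frontier K) := fun n => {q | OB K q ((n:ℝ)+1)} with hf
  have hclosed : ∀ n, IsClosed (f n) := by
    intro n
    have hcomp : CompactSpace (Metric.sphere (0 : E →L[ℝ] ℝ) 1) :=
      isCompact_iff_compactSpace.mp (isCompact_sphere _ _)
    have h1 : IsClosed {p : (frontier K) × (Metric.sphere (0 : E →L[ℝ] ℝ) 1) |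
        ∀ y ∈ K, ‖y - (p.1 : E)‖^2 ≤ ((n:ℝ)+1) * p.2.1 ((p.1 : E) - y)} := by
      have e : {p : (frontier K) × (Metric.sphere (0 : E →L[ℝ] ℝ) 1) |
        ∀ y ∈ K, ‖y - (p.1 : E)‖^2 ≤ ((n:ℝ)+1) * p.2.1 ((p.1 : E) - y)} =
        ⋂ y, ⋂ (_ : y ∈ K), {p | ‖y - (p.1 : E)‖^2 ≤ ((n:ℝ)+1) * p.2.1 ((p.1 : E) - y)} := by
        ext p; simp
      rw [e]
      refine isClosed_iInter fun y => isClosed_iInter fun _ => ?_
      apply isClosed_le
      · fun_prop
      · apply continuous_const.mul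
        exact (continuous_subtype_val.comp continuous_snd).clm_apply
          ((continuous_subtype_val.comp continuous_fst).sub continuous_const)
    have h2 := isClosedMap_fst_of_compactSpace _ h1
    convert h2 using 1
    ext q
    constructor
    · rintro ⟨ℓ, hℓ, h⟩
      exact ⟨(q, ⟨ℓ, by simp [hℓ]⟩), h, rfl⟩
    · rintro ⟨⟨q', ℓ⟩, h, rfl⟩
      exact ⟨ℓ.1, by simpa using ℓ.2, h⟩
  have hunion : ⋃ n, f n = univ := by
    rw [eq_univ_iff_forall]
    intro q
    obtain ⟨R, hR, hOB⟩ := hK.exists_OB q.2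
    obtain ⟨n, hn⟩ := exists_nat_gt R
    rw [mem_iUnion]
    exact ⟨n, hOB.mono hR (by linarith)⟩
  obtain ⟨n, ⟨q, hq⟩⟩ := nonempty_interior_of_iUnion_of_closed hclosed hunion
  rw [mem_interior_iff_mem_nhds, Metric.mem_nhds_iff] at hq
  obtain ⟨δ, hδ, hball⟩ := hq
  refine ⟨q, q.2, δ, hδ, (n:ℝ)+1, by positivity, fun q' hq' hdist => ?_⟩
  exact hball (show (⟨q', hq'⟩ : frontier K) ∈ Metric.ball q δ from hdist)

end RPoly
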