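import Pool.Agent.Lib_helper50.RP.Lower

open MeasureTheory Set Module
open scoped ENNReal Pointwise Topology

set_option linter.unusedSectionVars false

namespace RPoly

variable {E : Type*} [NormedAddCommGroup E] [NormedSpace ℝ E]

/-- General position: any at most `d+1` of the points are affinely independent. -/
def GP {n : ℕ} (X : Fin n → E) : Prop :=
  ∀ s : Finset (Fin n), s.card ≤ finrank ℝ E + 1 → AffineIndependent ℝ (fun i : s => X i)

/-- The points indexed by `J` are exactly the points on some supporting hyperplane. -/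
def SExp {n : ℕ} (J : Finset (Fin n)) (X : Fin n → E) : Prop :=
  ∃ ℓ : E →L[ℝ] ℝ, ∃ c : ℝ, (∀ i ∈ J, ℓ (X i) = c) ∧ ∀ i ∉ J, ℓ (X i) < c

lemma hull_le {n : ℕ} {X : Fin n → E} {ℓ : E →L[ℝ] ℝ} {c : ℝ} (h : ∀ i, ℓ (X i) ≤ c) {x : E}
    (hx : x ∈ convexHull ℝ (range X)) : ℓ x ≤ c := by
  have : convexHull ℝ (range X) ⊆ {y | ℓ y ≤ c} := by
    apply convexHull_min
    · rintro _ ⟨i, rfl⟩; exact h i
    · exact convex_halfSpace_le (f := ℓ) ⟨map_add ℓ, map_smul ℓ⟩ _
  exact this hx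

lemma tight_hull {n : ℕ} {X : Fin n → E} {ℓ : E →L[ℝ] ℝ} {c : ℝ} (h : ∀ i, ℓ (X i) ≤ c)
    (J : Finset (Fin n)) (hJ : ∀ i, i ∈ J ↔ ℓ (X i) = c) :
    {x ∈ convexHull ℝ (range X) | ℓ x = c} = convexHull ℝ (X '' J) := by
  apply Subset.antisymm
  · rintro x ⟨hx, hxc⟩
    obtain ⟨w, hw, rfl⟩ := (mem_hull_range X x).mp hx
    have h1 : ∑ i, w i * (c - ℓ (X i)) = 0 := by
      have : ∑ i, w i * (c - ℓ (X i)) = (∑ i, w i) * c - ℓ (∑ i, w i • X i) := by
        rw [map_sum, Finset.sum_mul, ← Finset.sum_sub_distrib]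
        apply Finset.sum_congr rfl
        intro i _
        rw [map_smul, smul_eq_mul]; ring
      rw [this, hw.2, hxc]; ring
    have h2 := (Finset.sum_eq_zero_iff_of_nonneg (fun i _ =>
      mul_nonneg (hw.1 i) (sub_nonneg.mpr (h i)))).mp h1
    have h3 : ∀ i, i ∉ J → w i = 0 := by
      intro i hi
      have := h2 i (Finset.mem_univ i)
      rcases mul_eq_zero.mp this with h | h
      · exact h
      · exact absurd ((hJ i).mpr (by linarith)) hi
    have h4 : ∑ i, w i • X i = ∑ i ∈ J, w i • X i := by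
      symm
      apply Finset.sum_subset (Finset.subset_univ J)
      intro i _ hi
      rw [h3 i hi, zero_smul]
    have h5 : ∑ i ∈ J, w i = 1 := by
      rw [← hw.2]
      apply Finset.sum_subset (Finset.subset_univ J)
      intro i _ hi
      exact h3 i hi
    rw [h4]
    exact (convex_convexHull ℝ _).sum_mem (fun i _ => hw.1 i) h5
      (fun i hi => subset_convexHull ℝ _ ⟨i, hi, rfl⟩)
  · have h1 : convexHull ℝ (X '' J) ⊆ {y | ℓ y = c} := by
      apply convexHull_min
      · rintro _ ⟨i, hi, rfl⟩; exact (hJ i).mp hi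
      · exact convex_hyperplane (f := ℓ) ⟨map_add ℓ, map_smul ℓ⟩ _
    intro x hx
    exact ⟨convexHull_mono (image_subset_range X _) hx, h1 hx⟩

lemma vectorSpan_hull (s : Set E) : vectorSpan ℝ (convexHull ℝ s) = vectorSpan ℝ s := by
  rw [← direction_affineSpan, ← direction_affineSpan, affineSpan_convexHull]

lemma finrank_hull {n : ℕ} {X : Fin n → E} {J : Finset (Fin n)} {j : ℕ}
    (hJ : J.card = j + 1) (hind : AffineIndependent ℝ (fun i : J => X i)) :
    finrank ℝ (vectorSpan ℝ (convexHull ℝ (X '' J))) = j := by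
  rw [vectorSpan_hull]
  have h1 : range (fun i : J => X i) = X '' J := by
    ext y; constructor
    · rintro ⟨i, rfl⟩; exact ⟨i, i.2, rfl⟩
    · rintro ⟨i, hi, rfl⟩; exact ⟨⟨i, hi⟩, rfl⟩
  rw [← h1]
  exact hind.finrank_vectorSpan (by simpa using hJ)

variable [FiniteDimensional ℝ E]

/-- in general position no non-zero functional is constant on `d+1` points. -/
lemma GP.card_le {n : ℕ} {X : Fin n → E} (hX : GP X) {ℓ : E →L[ℝ] ℝ} (hℓ : ℓ ≠ 0) {c : ℝ}
    {T : Finset (Fin n)} (hT : ∀ i ∈ T, ℓ (X i) = c) : T.card ≤ finrank ℝ E := by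
  by_contra h
  push Not at h
  obtain ⟨s, hs, hcard⟩ := Finset.exists_subset_card_eq (n := finrank ℝ E + 1) (s := T) (by omega)
  have hind := hX s hcard.le
  have htop : vectorSpan ℝ (range fun i : s => X i) = ⊤ :=
    hind.vectorSpan_eq_top_of_card_eq_finrank_add_one (by simpa using hcard)
  have hle : vectorSpan ℝ (range fun i : s => X i) ≤ LinearMap.ker (ℓ : E →ₗ[ℝ] ℝ) := by
    rw [vectorSpan_def, Submodule.span_le]
    rintro _ ⟨_, ⟨i, rfl⟩, _, ⟨j, rfl⟩, rfl⟩
    show ℓ (X i -ᵥ X j) = 0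
    rw [vsub_eq_sub, map_sub, hT _ (hs i.2), hT _ (hs j.2), sub_self]
  rw [htop, top_le_iff] at hle
  apply hℓ
  ext v
  have : v ∈ LinearMap.ker (ℓ : E →ₗ[ℝ] ℝ) := by rw [hle]; trivial
  exact this

lemma SExp.isFace {n : ℕ} {X : Fin n → E} (hX : GP X) {J : Finset (Fin n)} {j : ℕ}
    (hj : j < finrank ℝ E) (hJ : J.card = j + 1) (h : SExp J X) :
    convexHull ℝ (X '' J) ∈ faces j (convexHull ℝ (range X)) := by
  obtain ⟨ℓ, c, h1, h2⟩ := h
  have hle : ∀ i, ℓ (X i) ≤ c := by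
    intro i
    by_cases hi : i ∈ J
    · exact (h1 i hi).le
    · exact (h2 i hi).le
  have hiff : ∀ i, i ∈ J ↔ ℓ (X i) = c := by
    intro i
    refine ⟨h1 i, fun h => ?_⟩
    by_contra hi
    exact (h2 i hi).ne h
  have hne : J.Nonempty := Finset.card_pos.mp (by omega)
  obtain ⟨i0, hi0⟩ := hne
  have ht := tight_hull hle J hiff
  refine ⟨⟨X i0, subset_convexHull ℝ _ ⟨i0, hi0, rfl⟩⟩, ?_, ?_⟩
  · intro _
    refine ⟨ℓ, ?_⟩
    rw [← ht]
    ext x
    constructor
    · rintro ⟨hx, hxc⟩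
      exact ⟨hx, fun y hy => (hull_le hle hy).trans hxc.ge⟩
    · rintro ⟨hx, hmax⟩
      refine ⟨hx, le_antisymm (hull_le hle hx) ?_⟩
      have := hmax (X i0) (subset_convexHull ℝ _ ⟨i0, rfl⟩)
      rwa [h1 i0 hi0] at this
  · exact finrank_hull hJ (hX J (by omega))

lemma GP.faces_eq {n : ℕ} {X : Fin n → E} (hX : GP X) (hn : finrank ℝ E + 1 ≤ n) {j : ℕ}
    (hj : j < finrank ℝ E) :
    faces j (convexHull ℝ (range X)) =
      (fun J : Finset (Fin n) => convexHull ℝ (X '' J)) '' {J | J.card = j + 1 ∧ SExp J X} := by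
  classical
  apply Subset.antisymm
  · rintro F ⟨hne, hexp, hdim⟩
    obtain ⟨ℓ, hF⟩ := hexp hne
    obtain ⟨x0, hx0⟩ := hne
    have hx0' := hx0
    rw [hF] at hx0'
    set c := ℓ x0 with hc
    have hle : ∀ i, ℓ (X i) ≤ c := fun i => hx0'.2 _ (subset_convexHull ℝ _ ⟨i, rfl⟩)
    set T : Finset (Fin n) := Finset.univ.filter fun i => ℓ (X i) = c with hT
    have hTiff : ∀ i, i ∈ T ↔ ℓ (X i) = c := by intro i; simp [hT]
    have hFT : F = convexHull ℝ (X '' T) := by
      rw [← tight_hull hle T hTiff, hF]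
      ext x
      constructor
      · rintro ⟨hx, hmax⟩
        exact ⟨hx, le_antisymm (hull_le hle hx) (hmax x0 hx0'.1)⟩
      · rintro ⟨hx, hxc⟩
        exact ⟨hx, fun y hy => (hull_le hle hy).trans hxc.ge⟩
    have hTne : T.Nonempty := by
      rw [Finset.nonempty_iff_ne_empty]
      intro h0
      rw [hFT, h0] at hx0
      simp at hx0
    have hTcard : T.card ≤ finrank ℝ E := by
      by_cases hℓ : ℓ = 0
      · exfalso
        have hTuniv : T = Finset.univ := by
          ext i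
          rw [hTiff, hc, hℓ]; simp
        obtain ⟨s, hs, hcard⟩ := Finset.exists_subset_card_eq (n := finrank ℝ E + 1)
          (s := (Finset.univ : Finset (Fin n))) (by simpa using hn)
        have h1 := finrank_hull hcard (hX s hcard.le)
        have h2 : vectorSpan ℝ (convexHull ℝ (X '' s)) ≤ vectorSpan ℝ F := by
          rw [hFT, hTuniv]
          apply vectorSpan_mono
          apply convexHull_mono
          apply image_mono
          exact_mod_cast hs
        have h3 := Submodule.finrank_mono h2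
        omega
      · exact hX.card_le hℓ (fun i hi => (hTiff i).mp hi)
    have hTc : T.card = j + 1 := by
      have h1 : T.card = (T.card - 1) + 1 := by
        have := Finset.card_pos.mpr hTne
        omega
      have h2 := finrank_hull h1 (hX T (by omega))
      rw [← hFT, hdim] at h2
      omega
    refine ⟨T, ⟨hTc, ℓ, c, fun i hi => (hTiff i).mp hi, fun i hi => ?_⟩, hFT.symm⟩
    exact lt_of_le_of_ne (hle i) (fun h => hi ((hTiff i).mpr h))
  · rintro _ ⟨J, ⟨hJ, hS⟩, rfl⟩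
    exact SExp.isFace hX hj hJ hS

lemma SExp.mem_iff {n : ℕ} {X : Fin n → E} {J : Finset (Fin n)} (h : SExp J X) (i : Fin n) :
    i ∈ J ↔ X i ∈ convexHull ℝ (X '' J) := by
  obtain ⟨ℓ, c, h1, h2⟩ := h
  constructor
  · intro hi; exact subset_convexHull ℝ _ ⟨i, hi, rfl⟩
  · intro hi
    by_contra hcon
    have h3 : convexHull ℝ (X '' J) ⊆ {y | ℓ y = c} := by
      apply convexHull_min
      · rintro _ ⟨i, hi, rfl⟩; exact h1 i hi
      · exact convex_hyperplane (f := ℓ) ⟨map_add ℓ, map_smul ℓ⟩ _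
    exact (h2 i hcon).ne (h3 hi)

lemma GP.ncard_faces {n : ℕ} {X : Fin n → E} (hX : GP X) (hn : finrank ℝ E + 1 ≤ n) {j : ℕ}
    (hj : j < finrank ℝ E) :
    (faces j (convexHull ℝ (range X))).ncard = {J : Finset (Fin n) | J.card = j + 1 ∧ SExp J X}.ncard := by
  rw [hX.faces_eq hn hj]
  apply InjOn.ncard_image
  rintro J ⟨_, hJ⟩ J' ⟨_, hJ'⟩ h
  simp only at h
  ext i
  rw [hJ.mem_iff, hJ'.mem_iff, h]

end RPoly
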