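import Pool.Agent.Lib_helper50.RP.Poly

open MeasureTheory Set Module
open scoped ENNReal Pointwise Topology

set_option linter.unusedSectionVars false

namespace RPoly

variable {E : Type*} [NormedAddCommGroup E] [NormedSpace ℝ E] [FiniteDimensional ℝ E]

/-- strict exposure by a nonzero functional of a set containing `i` -/
def PT {n : ℕ} (X : Fin n → E) (i : Fin n) (T : Finset (Fin n)) : Prop :=
  i ∈ T ∧ ∃ ℓ : E →L[ℝ] ℝ, ℓ ≠ 0 ∧ ∃ c : ℝ, (∀ k ∈ T, ℓ (X k) = c) ∧ ∀ k ∉ T, ℓ (X k) < c

lemma PT.tilt {n : ℕ} {X : Fin n → E} (hX : GP X) (hn : finrank ℝ E + 1 ≤ n) {i : Fin n}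
    {T : Finset (Fin n)} (hT : PT X i T) (hcard : T.card < finrank ℝ E) :
    ∃ T', PT X i T' ∧ T.card < T'.card := by
  classical
  obtain ⟨hi, ℓ, hℓ, c, h1, h2⟩ := hT
  set W := vectorSpan ℝ (X '' (T : Set (Fin n))) with hW
  have hTpos : 0 < T.card := Finset.card_pos.mpr ⟨i, hi⟩
  have hWdim : finrank ℝ W = T.card - 1 := by
    have h := finrank_hull (X := X) (J := T) (j := T.card - 1) (by omega) (hX T (by omega))
    rwa [vectorSpan_hull] at h
  have hker : finrank ℝ E - 1 ≤ finrank ℝ (LinearMap.ker (ℓ : E →ₗ[ℝ] ℝ)) := by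
    have h3 := LinearMap.finrank_range_add_finrank_ker (ℓ : E →ₗ[ℝ] ℝ)
    have h4 : finrank ℝ (LinearMap.range (ℓ : E →ₗ[ℝ] ℝ)) ≤ 1 := by
      have := Submodule.finrank_le (LinearMap.range (ℓ : E →ₗ[ℝ] ℝ))
      simpa using this
    omega
  have hv : ∃ v ∈ LinearMap.ker (ℓ : E →ₗ[ℝ] ℝ), v ∉ W := by
    by_contra hcon
    push Not at hcon
    have hle : LinearMap.ker (ℓ : E →ₗ[ℝ] ℝ) ≤ W := hcon
    have := Submodule.finrank_mono hle
    omega
  obtain ⟨v, hvk, hvW⟩ := hv
  obtain ⟨f, hfv, hfW⟩ := Submodule.exists_le_ker_of_notMem hvW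
  -- choose sign
  have hm : ∃ m : E →L[ℝ] ℝ, m v ≠ 0 ∧ (∀ w ∈ W, m w = 0) ∧ ∃ k, m (X i) < m (X k) := by
    set m0 : E →L[ℝ] ℝ := LinearMap.toContinuousLinearMap f with hm0
    have hm0v : m0 v ≠ 0 := hfv
    have hm0ne : m0 ≠ 0 := by
      intro h; rw [h] at hm0v; simp at hm0v
    have hm0W : ∀ w ∈ W, m0 w = 0 := fun w hw => hfW hw
    have hex : ∃ k, m0 (X k) ≠ m0 (X i) := by
      by_contra hcon
      push Not at hcon
      have := hX.card_le hm0ne (T := Finset.univ) (c := m0 (X i)) (fun k _ => hcon k)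
      simp at this
      omega
    obtain ⟨k, hk⟩ := hex
    rcases lt_or_gt_of_ne hk with h | h
    · refine ⟨-m0, by simpa using hm0v, fun w hw => by simp [hm0W w hw], k, ?_⟩
      simpa using h
    · exact ⟨m0, hm0v, hm0W, k, h⟩
  obtain ⟨m, hmv, hmW, k0, hk0⟩ := hm
  have hmT : ∀ k ∈ T, m (X k) = m (X i) := by
    intro k hk
    have : X k -ᵥ X i ∈ W := vsub_mem_vectorSpan ℝ ⟨k, hk, rfl⟩ ⟨i, hi, rfl⟩
    have := hmW _ this
    rw [vsub_eq_sub, map_sub] at this
    linarith
  set U : Finset (Fin n) := Finset.univ.filter fun k => m (X i) < m (X k) with hU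
  have hUne : U.Nonempty := ⟨k0, by simp [hU, hk0]⟩
  obtain ⟨ks, hks, hmin⟩ := U.exists_min_image
    (fun k => (c - ℓ (X k)) / (m (X k) - m (X i))) hUne
  set s := (c - ℓ (X ks)) / (m (X ks) - m (X i)) with hs
  have hksU : m (X i) < m (X ks) := by simpa [hU] using hks
  have hksT : ks ∉ T := by
    intro h
    exact hksU.ne (hmT ks h).symm
  have hspos : 0 < s := div_pos (by have := h2 ks hksT; linarith) (by linarith)
  have hle : ∀ k, ℓ (X k) ≤ c := by
    intro k
    by_cases hk : k ∈ T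
    · exact (h1 k hk).le
    · exact (h2 k hk).le
  have hle' : ∀ k, (ℓ + s • m) (X k) ≤ c + s * m (X i) := by
    intro k
    simp only [add_apply, smul_apply, smul_eq_mul]
    by_cases hk : m (X i) < m (X k)
    · have h3 := hmin k (by simp [hU, hk])
      rw [le_div_iff₀ (by linarith)] at h3
      nlinarith [hle k]
    · have h3 : s * m (X k) ≤ s * m (X i) := mul_le_mul_of_nonneg_left (not_lt.mp hk) hspos.le
      linarith [hle k]
  set T' : Finset (Fin n) := Finset.univ.filter fun k => (ℓ + s • m) (X k) = c + s * m (X i)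
    with hT'
  have hTT' : insert ks T ⊆ T' := by
    intro k hk
    rw [Finset.mem_insert] at hk
    simp only [hT', Finset.mem_filter, Finset.mem_univ, true_and, add_apply, smul_apply,
      smul_eq_mul]
    rcases hk with rfl | hk
    · have : s * (m (X k) - m (X i)) = c - ℓ (X k) := by
        rw [hs, div_mul_cancel₀]
        linarith
      linarith
    · rw [h1 k hk, hmT k hk]
  refine ⟨T', ⟨hTT' (Finset.mem_insert_of_mem hi), ℓ + s • m, ?_, c + s * m (X i), ?_, ?_⟩, ?_⟩
  · intro h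
    have h3 : ℓ v + s * m v = 0 := by
      have := congrArg (fun g : E →L[ℝ] ℝ => g v) h
      simpa using this
    have h4 : ℓ v = 0 := hvk
    rw [h4, zero_add] at h3
    rcases mul_eq_zero.mp h3 with h | h
    · exact hspos.ne' h
    · exact hmv h
  · intro k hk
    simpa [hT'] using hk
  · intro k hk
    refine lt_of_le_of_ne (hle' k) ?_
    intro h
    exact hk (by rw [hT', Finset.mem_filter]; exact ⟨Finset.mem_univ _, h⟩)
  · calc T.card < (insert ks T).card := by rw [Finset.card_insert_of_notMem hksT]; omega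
      _ ≤ T'.card := Finset.card_le_card hTT'

lemma exists_facet {n : ℕ} {X : Fin n → E} (hX : GP X) (hd : 0 < finrank ℝ E)
    (hn : finrank ℝ E + 1 ≤ n) {i : Fin n}
    (hi : Vert X i) : ∃ T, PT X i T ∧ T.card = finrank ℝ E := by
  classical
  have hstart : PT X i {i} := by
    have hfin : (X '' ({i}ᶜ : Set (Fin n))).Finite := (Set.toFinite _).image X
    obtain ⟨f, u, hu1, hu2⟩ := geometric_hahn_banach_point_closed
      (convex_convexHull ℝ (X '' ({i}ᶜ : Set (Fin n)))) (hfin.isCompact_convexHull ℝ).isClosed hi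
    have hlt : ∀ k, k ≠ i → (-f) (X k) < (-f) (X i) := by
      intro k hk
      have := hu2 (X k) (subset_convexHull ℝ _ ⟨k, hk, rfl⟩)
      simp only [neg_apply]
      linarith
    refine ⟨by simp, -f, ?_, (-f) (X i), ?_, ?_⟩
    · intro h0
      have : ∃ k : Fin n, k ≠ i := by
        by_contra hcon
        push Not at hcon
        have h1 : Fintype.card (Fin n) ≤ 1 := Fintype.card_le_one_iff.mpr (fun a b => by
          rw [hcon a, hcon b])
        simp at h1
        omega
      obtain ⟨k, hk⟩ := this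
      have := hlt k hk
      rw [h0] at this
      simp at this
    · intro k hk
      rw [Finset.mem_singleton] at hk; rw [hk]
    · intro k hk
      rw [Finset.mem_singleton] at hk
      exact hlt k hk
  have hind : ∀ m, m ≤ finrank ℝ E → ∃ T, PT X i T ∧ m ≤ T.card := by
    intro m
    induction m with
    | zero => intro _; exact ⟨{i}, hstart, by simp⟩
    | succ m ih =>
      intro hm
      obtain ⟨T, hT, hmT⟩ := ih (by omega)
      by_cases h : T.card < finrank ℝ E
      · obtain ⟨T', hT', hlt⟩ := hT.tilt hX hn h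
        exact ⟨T', hT', by omega⟩
      · exact ⟨T, hT, by omega⟩
  obtain ⟨T, hT, hcard⟩ := hind _ le_rfl
  refine ⟨T, hT, le_antisymm ?_ hcard⟩
  obtain ⟨_, ℓ, hℓ, c, h1, _⟩ := hT
  exact hX.card_le hℓ h1

/-- a linear functional with prescribed values on a linearly independent family -/
lemma exists_functional {ι : Type*} {v : ι → E} (hv : LinearIndependent ℝ v) (g : ι → ℝ) :
    ∃ f : E →L[ℝ] ℝ, ∀ i, f (v i) = g i := by
  obtain ⟨f, hf⟩ := ((Basis.span hv).constr ℝ g).exists_extend
  refine ⟨LinearMap.toContinuousLinearMap f, fun i => ?_⟩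
  have h1 : ((Basis.span hv) i : E) = v i := by rw [Basis.span_apply hv i]
  have h2 := congrArg (fun L => L ((Basis.span hv) i)) hf
  simp only [LinearMap.comp_apply, Submodule.subtype_apply, Basis.constr_basis] at h2
  rw [h1] at h2
  exact h2

lemma PT.sub {n : ℕ} {X : Fin n → E} (hX : GP X) {i : Fin n} {T J : Finset (Fin n)}
    (hT : PT X i T) (hcard : T.card ≤ finrank ℝ E + 1) (hJT : J ⊆ T) (hiJ : i ∈ J) :
    SExp J X := by
  classical
  obtain ⟨hi, ℓ, hℓ, c, h1, h2⟩ := hT
  have hind := hX T hcard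
  rw [affineIndependent_iff_linearIndependent_vsub ℝ _ (⟨i, hi⟩ : T)] at hind
  obtain ⟨m, hm⟩ := exists_functional hind (fun k => if (k.1 : Fin n) ∈ J then 0 else -1)
  have hm1 : ∀ k ∈ J, m (X k) = m (X i) := by
    intro k hk
    by_cases hki : k = i
    · rw [hki]
    · have := hm ⟨⟨k, hJT hk⟩, by intro h; exact hki (by simpa using h)⟩
      simp only [hk, if_true, vsub_eq_sub, map_sub] at this
      linarith
  have hm2 : ∀ k ∈ T, k ∉ J → m (X k) = m (X i) - 1 := by
    intro k hk hkJ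
    have hki : k ≠ i := by rintro rfl; exact hkJ hiJ
    have := hm ⟨⟨k, hk⟩, by intro h; exact hki (by simpa using h)⟩
    simp only [hkJ, if_false, vsub_eq_sub, map_sub] at this
    linarith
  have hev : ∀ᶠ ε : ℝ in 𝓝[>] 0, ∀ k : Fin n, k ∉ T → ℓ (X k) + ε * m (X k) < c + ε * m (X i) := by
    rw [Filter.eventually_all]
    intro k
    by_cases hk : k ∈ T
    · exact Filter.Eventually.of_forall fun ε h => absurd hk h
    · have hc1 : Filter.Tendsto (fun ε : ℝ => ℓ (X k) + ε * m (X k)) (𝓝[>] 0) (𝓝 (ℓ (X k))) := by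
        have : Continuous fun ε : ℝ => ℓ (X k) + ε * m (X k) := by fun_prop
        have h3 := this.tendsto 0
        simp only [zero_mul, add_zero] at h3
        exact h3.mono_left nhdsWithin_le_nhds
      have hc2 : Filter.Tendsto (fun ε : ℝ => c + ε * m (X i)) (𝓝[>] 0) (𝓝 c) := by
        have : Continuous fun ε : ℝ => c + ε * m (X i) := by fun_prop
        have h3 := this.tendsto 0
        simp only [zero_mul, add_zero] at h3
        exact h3.mono_left nhdsWithin_le_nhds
      filter_upwards [hc1.eventually_lt hc2 (h2 k hk)] with ε hε _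
      exact hε
  have hev2 : ∀ᶠ ε : ℝ in 𝓝[>] 0, 0 < ε := self_mem_nhdsWithin
  obtain ⟨ε, hε1, hε0⟩ := (hev.and hev2).exists
  refine ⟨ℓ + ε • m, c + ε * m (X i), ?_, ?_⟩
  · intro k hk
    simp only [add_apply, smul_apply, smul_eq_mul]
    rw [h1 k (hJT hk), hm1 k hk]
  · intro k hk
    simp only [add_apply, smul_apply, smul_eq_mul]
    by_cases hkT : k ∈ T
    · rw [h1 k hkT, hm2 k hkT hk]
      nlinarith
    · exact hε1 k hkT

/-- every vertex belongs to a strictly exposed `(j+1)`-subset -/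
lemma exists_sexp {n : ℕ} {X : Fin n → E} (hX : GP X) 
    (hn : finrank ℝ E + 1 ≤ n) {j : ℕ} (hj : j < finrank ℝ E) {i : Fin n}
    (hi : Vert X i) : ∃ J : Finset (Fin n), i ∈ J ∧ J.card = j + 1 ∧ SExp J X := by
  obtain ⟨T, hT, hcard⟩ := exists_facet hX (by omega) hn hi
  obtain ⟨J, hJ1, hJ2, hJ3⟩ := Finset.exists_subsuperset_card_eq (s := {i}) (t := T) (n := j+1)
    (by simpa using hT.1) (by simp) (by omega)
  have hiJ : i ∈ J := hJ1 (by simp)
  exact ⟨J, hiJ, hJ3, hT.sub hX (by omega) hJ2 hiJ⟩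

/-- number of vertices is at most `(j+1)` times the number of `j`-faces -/
lemma card_vert_le {n : ℕ} {X : Fin n → E} (hX : GP X) 
    (hn : finrank ℝ E + 1 ≤ n) {j : ℕ} (hj : j < finrank ℝ E) :
    {i | Vert X i}.ncard ≤ (j+1) * {J : Finset (Fin n) | J.card = j + 1 ∧ SExp J X}.ncard := by
  classical
  set S : Finset (Finset (Fin n)) := Finset.univ.filter fun J => J.card = j+1 ∧ SExp J X with hS
  have h1 : {J : Finset (Fin n) | J.card = j + 1 ∧ SExp J X} = (S : Set (Finset (Fin n))) := by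
    ext J; simp [hS]
  rw [h1, ncard_coe_finset]
  have h2 : {i | Vert X i} ⊆ (S.biUnion id : Set (Fin n)) := by
    intro i hi
    obtain ⟨J, hiJ, hJ, hE⟩ := exists_sexp hX hn hj hi
    simp only [Finset.coe_biUnion, mem_iUnion]
    exact ⟨J, by simp [hS, hJ, hE], hiJ⟩
  calc {i | Vert X i}.ncard ≤ (S.biUnion id : Set (Fin n)).ncard := ncard_le_ncard h2 (Finset.finite_toSet _)
    _ = (S.biUnion id).card := ncard_coe_finset _
    _ ≤ S.card * (j+1) := Finset.card_biUnion_le_card_mul _ _ _ (by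
        intro J hJ
        simp only [hS, Finset.mem_filter] at hJ
        exact hJ.2.1.le)
    _ = (j+1) * S.card := mul_comm _ _

end RPoly
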