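import Pool.Agent.Lib_helper50.RP.Poly2

open MeasureTheory Set Module
open scoped ENNReal Pointwise Topology

set_option linter.unusedSectionVars false

namespace RPoly

variable {E : Type*} [NormedAddCommGroup E] [NormedSpace ℝ E] [FiniteDimensional ℝ E]
variable [MeasurableSpace E] [BorelSpace E] (μ : Measure E) [μ.IsAddHaarMeasure]

lemma ae_iff_split {K : Set E} (hK : IsBody K) {N : ℕ} (a : Fin (N+1))
    {p : (Fin (N+1) → E) → Prop} (hp : MeasurableSet {X | p X}) :
    (∀ᵐ X ∂(samp μ K (N+1)), p X) ↔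
      ∀ᵐ Y ∂(samp μ K N), ∀ᵐ x ∂(unif μ K), p (a.insertNth (α := fun _ => E) x Y) := by
  have := unif_prob μ hK
  have : IsProbabilityMeasure (samp μ K N) := by unfold samp; infer_instance
  have hmp := (measurePreserving_piFinSuccAbove (fun _ : Fin (N+1) => unif μ K) a).symm
  have h1 : samp μ K (N+1) = ((unif μ K).prod (samp μ K N)).map
      (MeasurableEquiv.piFinSuccAbove (fun _ => E) a).symm := hmp.map_eq.symm
  rw [h1, ae_map_iff (MeasurableEquiv.measurable _).aemeasurable hp]
  have hp2 : MeasurableSet {z : E × (Fin N → E) | p (a.insertNth (α := fun _ => E) z.1 z.2)} :=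
    (MeasurableEquiv.piFinSuccAbove (fun _ => E) a).symm.measurable hp
  rw [← Measure.ae_ae_comm hp2, ← Measure.ae_prod_iff_ae_ae hp2]
  rfl

lemma affineSpan_ne_top {ι : Type*} [Fintype ι] (Y : ι → E)
    (h : Fintype.card ι ≤ finrank ℝ E) : affineSpan ℝ (range Y) ≠ ⊤ := by
  intro htop
  rcases isEmpty_or_nonempty ι with hE | hN
  · rw [range_eq_empty, AffineSubspace.span_empty] at htop
    exact AffineSubspace.bot_ne_top ℝ E E htop
  · have h1 := finrank_vectorSpan_range_add_one_le ℝ Y
    rw [← direction_affineSpan, htop, AffineSubspace.direction_top, finrank_top] at h1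
    omega

lemma affineIndependent_restrict_open {n : ℕ} (s : Finset (Fin n)) :
    IsOpen {X : Fin n → E | AffineIndependent ℝ (fun i : s => X i)} := by
  have h := isOpen_setOfPred_affineIndependent (𝕜 := ℝ) (E := E) (ι := s)
  exact h.preimage (f := fun (X : Fin n → E) (i : s) => X i) (by fun_prop)

lemma ae_affineIndependent {K : Set E} (hK : IsBody K) {n : ℕ}
    (s : Finset (Fin n)) :
    s.card ≤ finrank ℝ E + 1 → ∀ᵐ X ∂(samp μ K n), AffineIndependent ℝ (fun i : s => X i) := by
  classical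
  have := unif_prob μ hK
  induction s using Finset.induction_on with
  | empty =>
    intro _
    apply Filter.Eventually.of_forall
    intro X
    exact affineIndependent_of_subsingleton ℝ _
  | insert a s ha ih =>
    intro hcard
    rw [Finset.card_insert_of_notMem ha] at hcard
    have ih' := ih (by omega)
    obtain ⟨N, rfl⟩ : ∃ N, n = N + 1 := ⟨n - 1, by have := a.pos; omega⟩
    rw [ae_iff_split μ hK a (affineIndependent_restrict_open s).measurableSet] at ih'
    rw [ae_iff_split μ hK a (affineIndependent_restrict_open (insert a s)).measurableSet]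
    filter_upwards [ih'] with Y hY
    -- the affine span of the points indexed by `s`
    set Z : s → E := fun i => (a.insertNth (α := fun _ => E) 0 Y : Fin (N+1) → E) i with hZ
    have hZ' : ∀ (x : E) (i : s), (a.insertNth (α := fun _ => E) x Y : Fin (N+1) → E) i = Z i := by
      intro x i
      have hia : (i : Fin (N+1)) ≠ a := by rintro h; exact ha (h ▸ i.2)
      obtain ⟨j, hj⟩ := Fin.exists_succAbove_eq hia
      rw [hZ]
      simp only
      rw [← hj, Fin.insertNth_apply_succAbove, Fin.insertNth_apply_succAbove]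
    have hne : affineSpan ℝ (range Z) ≠ ⊤ :=
      affineSpan_ne_top Z (by simp; omega)
    have hnull : μ (affineSpan ℝ (range Z)) = 0 := Measure.addHaar_affineSubspace μ _ hne
    have hnull2 : ∀ᵐ x ∂(unif μ K), x ∉ affineSpan ℝ (range Z) := by
      rw [ae_iff]
      simp only [not_not]
      refine le_antisymm ((unif_apply_le μ K _).trans ?_) zero_le
      have : {x | x ∈ affineSpan ℝ (range Z)} = (affineSpan ℝ (range Z) : Set E) := rfl
      rw [this, hnull, mul_zero]
    filter_upwards [hY, hnull2] with x hx1 hx2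
    set X : Fin (N+1) → E := a.insertNth (α := fun _ => E) x Y with hX
    have hXa : X a = x := by rw [hX]; simp
    refine AffineIndependent.affineIndependent_of_notMem_span
      (i := (⟨a, Finset.mem_insert_self a s⟩ : ↥(insert a s))) ?_ ?_
    · have hmem : ∀ y : {y : ↥(insert a s) // y ≠ ⟨a, Finset.mem_insert_self a s⟩}, y.1.1 ∈ s := by
        intro y
        have h1 := y.1.2
        rw [Finset.mem_insert] at h1
        rcases h1 with h1 | h1
        · exact absurd (Subtype.ext h1) y.2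
        · exact h1
      let f : {y : ↥(insert a s) // y ≠ ⟨a, Finset.mem_insert_self a s⟩} ↪ s :=
        ⟨fun y => ⟨y.1.1, hmem y⟩, by
          intro y z h
          apply Subtype.ext; apply Subtype.ext
          simpa using h⟩
      exact hx1.comp_embedding f
    · simp only [hXa]
      intro hcon
      apply hx2
      refine affineSpan_mono ℝ ?_ hcon
      rintro _ ⟨y, hy, rfl⟩
      have h1 := y.2
      rw [Finset.mem_insert] at h1
      rcases h1 with h1 | h1
      · exact absurd (Subtype.ext h1) hy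
      · exact ⟨⟨y.1, h1⟩, (hZ' x ⟨y.1, h1⟩).symm⟩

lemma samp_ae_gp {K : Set E} (hK : IsBody K) (n : ℕ) :
    ∀ᵐ X ∂(samp μ K n), GP X := by
  unfold GP
  rw [ae_all_iff]
  intro s
  by_cases h : s.card ≤ finrank ℝ E + 1
  · filter_upwards [ae_affineIndependent μ hK s h] with X hX _
    exact hX
  · exact Filter.Eventually.of_forall fun X h' => absurd h' h

lemma measurableSet_sexp {n : ℕ} (J : Finset (Fin n)) :
    MeasurableSet {X : Fin n → E | SExp J X} := by
  have h0 : ∀ N : ℕ, IsClosed {X : Fin n → E | ∃ q ∈ Metric.closedBall (0 : (E →L[ℝ] ℝ) × ℝ) N,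
      (∀ i ∈ J, q.1 (X i) = q.2) ∧ ∀ i ∉ J, q.1 (X i) ≤ q.2 - 1/((N:ℝ)+1)} := by
    intro N
    have hcomp : CompactSpace (Metric.closedBall (0 : (E →L[ℝ] ℝ) × ℝ) (N:ℝ)) :=
      isCompact_iff_compactSpace.mp (isCompact_closedBall _ _)
    have h1 : IsClosed {p : (Fin n → E) × (Metric.closedBall (0 : (E →L[ℝ] ℝ) × ℝ) (N:ℝ)) |
        (∀ i ∈ J, p.2.1.1 (p.1 i) = p.2.1.2) ∧ ∀ i ∉ J, p.2.1.1 (p.1 i) ≤ p.2.1.2 - 1/((N:ℝ)+1)} := by
      have hcont : ∀ i, Continuous fun p : (Fin n → E) ×
          (Metric.closedBall (0 : (E →L[ℝ] ℝ) × ℝ) (N:ℝ)) => p.2.1.1 (p.1 i) := by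
        intro i
        exact (continuous_fst.comp (continuous_subtype_val.comp continuous_snd)).clm_apply
          ((continuous_apply i).comp continuous_fst)
      have hcont2 : Continuous fun p : (Fin n → E) ×
          (Metric.closedBall (0 : (E →L[ℝ] ℝ) × ℝ) (N:ℝ)) => p.2.1.2 :=
        continuous_snd.comp (continuous_subtype_val.comp continuous_snd)
      have e : {p : (Fin n → E) × (Metric.closedBall (0 : (E →L[ℝ] ℝ) × ℝ) (N:ℝ)) |
          (∀ i ∈ J, p.2.1.1 (p.1 i) = p.2.1.2) ∧ ∀ i ∉ J, p.2.1.1 (p.1 i) ≤ p.2.1.2 - 1/((N:ℝ)+1)} =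
          (⋂ i, ⋂ (_ : i ∈ J), {p | p.2.1.1 (p.1 i) = p.2.1.2}) ∩
          (⋂ i, ⋂ (_ : i ∉ J), {p | p.2.1.1 (p.1 i) ≤ p.2.1.2 - 1/((N:ℝ)+1)}) := by
        ext p; simp
      rw [e]
      refine IsClosed.inter ?_ ?_
      · exact isClosed_iInter fun i => isClosed_iInter fun _ => isClosed_eq (hcont i) hcont2
      · exact isClosed_iInter fun i => isClosed_iInter fun _ =>
          isClosed_le (hcont i) (hcont2.sub continuous_const)
    have h2 := isClosedMap_fst_of_compactSpace _ h1
    convert h2 using 1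
    ext X
    constructor
    · rintro ⟨q, hq, h⟩
      exact ⟨(X, ⟨q, hq⟩), h, rfl⟩
    · rintro ⟨⟨X', q⟩, h, rfl⟩
      exact ⟨q.1, q.2, h⟩
  have h1 : {X : Fin n → E | SExp J X} = ⋃ N : ℕ, {X : Fin n → E |
      ∃ q ∈ Metric.closedBall (0 : (E →L[ℝ] ℝ) × ℝ) N,
      (∀ i ∈ J, q.1 (X i) = q.2) ∧ ∀ i ∉ J, q.1 (X i) ≤ q.2 - 1/((N:ℝ)+1)} := by
    ext X
    rw [mem_iUnion]
    constructor
    · rintro ⟨ℓ, c, h1, h2⟩
      have hev : ∀ᶠ N : ℕ in Filter.atTop, ∀ i : Fin n, i ∉ J → ℓ (X i) ≤ c - 1/((N:ℝ)+1) := by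
        rw [Filter.eventually_all]
        intro i
        by_cases hi : i ∈ J
        · exact Filter.Eventually.of_forall fun N h => absurd hi h
        · have hlim : Filter.Tendsto (fun N : ℕ => c - 1/((N:ℝ)+1)) Filter.atTop (𝓝 c) := by
            have := (tendsto_one_div_add_atTop_nhds_zero_nat (𝕜 := ℝ)).const_sub c
            simpa using this
          filter_upwards [hlim.eventually_const_lt (h2 i hi)] with N hN _
          exact hN.le
      have hev2 : ∀ᶠ N : ℕ in Filter.atTop, ‖(ℓ, c)‖ ≤ (N:ℝ) :=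
        tendsto_natCast_atTop_atTop.eventually_ge_atTop _
      obtain ⟨N, hN1, hN2⟩ := (hev.and hev2).exists
      exact ⟨N, (ℓ, c), by simpa using hN2, h1, hN1⟩
    · rintro ⟨N, q, _, h1, h2⟩
      refine ⟨q.1, q.2, h1, fun i hi => (h2 i hi).trans_lt ?_⟩
      have : (0:ℝ) < 1/((N:ℝ)+1) := by positivity
      linarith
  rw [h1]
  exact MeasurableSet.iUnion fun N => (h0 N).measurableSet

end RPoly
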