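import Pool.Agent.Lib_helper50.RP.Upper

open MeasureTheory Set Module
open scoped ENNReal Pointwise Topology

set_option linter.unusedSectionVars false

namespace RPoly

variable {E : Type*} [NormedAddCommGroup E] [NormedSpace ℝ E]

variable [MeasurableSpace E] [BorelSpace E] [FiniteDimensional ℝ E] (μ : Measure E)
  [μ.IsAddHaarMeasure]

/-- Volume of the Macbeath region as a real number. -/
noncomputable def macR (K : Set E) (z : E) : ℝ := (μ (mac K z)).toReal

lemma macR_nonneg (K : Set E) (z : E) : 0 ≤ macR μ K z := ENNReal.toReal_nonneg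

lemma mac_le (K : Set E) (z : E) : μ (mac K z) ≤ μ K := by
  have h : mac K z ⊆ (fun a => a + z) ⁻¹' K := by
    intro a ha
    have := ha.1
    rwa [add_comm] at this
  refine (measure_mono h).trans ?_
  rw [measure_preimage_add_right]

lemma macR_le {K : Set E} (hK : IsBody K) (z : E) : macR μ K z ≤ (μ K).toReal :=
  ENNReal.toReal_mono (hK.fin μ) (mac_le μ K z)

lemma ofReal_macR {K : Set E} (hK : IsBody K) (z : E) :
    ENNReal.ofReal (macR μ K z) = μ (mac K z) :=
  ENNReal.ofReal_toReal ((mac_le μ K z).trans_lt (hK.fin μ).lt_top).ne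

lemma measurable_macR {K : Set E} (hK : IsBody K) : Measurable (macR μ K) :=
  (measurable_macVol μ hK.compact.isClosed).ennreal_toReal

lemma toReal_pos {K : Set E} (hK : IsBody K) : 0 < (μ K).toReal :=
  ENNReal.toReal_pos (hK.pos μ) (hK.fin μ)

lemma unif_nbd_le {K : Set E} (hK : IsBody K) (z : E) :
    unif μ K (nbd K z) ≤ ENNReal.ofReal ((2*(finrank ℝ E : ℝ)+1)^(finrank ℝ E) *
      (macR μ K z / (μ K).toReal)) := by
  refine (unif_apply_le μ K _).trans ?_
  rw [vol_nbd, ← ofReal_macR μ hK z, ENNReal.ofReal_mul (by positivity),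
    ENNReal.ofReal_div_of_pos (toReal_pos μ hK), ENNReal.ofReal_toReal (hK.fin μ)]
  rw [ENNReal.div_eq_inv_mul]
  apply le_of_eq; ring

lemma unif_core_compl {K : Set E} (hK : IsBody K) (hd : 0 < finrank ℝ E) (z : E) :
    unif μ K (core K z)ᶜ ≤ ENNReal.ofReal (Real.exp (-(((5*(finrank ℝ E : ℝ))^(finrank ℝ E))⁻¹ *
      (macR μ K z / (μ K).toReal)))) := by
  have := unif_prob μ hK
  rw [prob_compl_eq_one_sub (measurableSet_core hK.compact.isClosed z),
    unif_apply_of_subset μ (core_subset hd hK.convex z), vol_core μ hd, ← ofReal_macR μ hK z]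
  have e : (μ K)⁻¹ * (ENNReal.ofReal (((5*(finrank ℝ E : ℝ))^(finrank ℝ E))⁻¹) *
      ENNReal.ofReal (macR μ K z)) =
      ENNReal.ofReal (((5*(finrank ℝ E : ℝ))^(finrank ℝ E))⁻¹ * (macR μ K z / (μ K).toReal)) := by
    rw [ENNReal.ofReal_mul (by positivity),
    ENNReal.ofReal_div_of_pos (toReal_pos μ hK), ENNReal.ofReal_toReal (hK.fin μ),
      ENNReal.div_eq_inv_mul]
    ring
  rw [e, ← ENNReal.ofReal_one, ← ENNReal.ofReal_sub _ (by
    exact mul_nonneg (by positivity) (div_nonneg (macR_nonneg μ K z) ENNReal.toReal_nonneg))]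
  apply ENNReal.ofReal_le_ofReal
  have := Real.add_one_le_exp (-(((5*(finrank ℝ E : ℝ))^(finrank ℝ E))⁻¹ *
      (macR μ K z / (μ K).toReal)))
  linarith

/-- the elementary inequality behind the bound for the expected face numbers -/
lemma real_ineq {k n : ℕ} (hk : 1 ≤ k) (hkn : k ≤ n) {κ A : ℝ} (hκ : 0 < κ) (hA0 : 0 ≤ A)
    (hA1 : A ≤ 1) :
    (n:ℝ)^k * (A^(k-1) * Real.exp (-(κ * A)) ^ (n-k)) ≤
      (Real.exp (κ * k) * ((k-1).factorial * (2/κ)^(k-1))) * (n * Real.exp (-(κ/2 * n * A))) := by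
  have h1 : Real.exp (-(κ * A)) ^ (n-k) = Real.exp (κ * A * k) * Real.exp (-(κ * n * A)) := by
    rw [← Real.exp_nat_mul, ← Real.exp_add, Nat.cast_sub hkn]
    congr 1; ring
  have h2 : Real.exp (-(κ * n * A)) = Real.exp (-(κ/2 * n * A)) * Real.exp (-(κ/2 * n * A)) := by
    rw [← Real.exp_add]; congr 1; ring
  have h3 : Real.exp (κ * A * k) ≤ Real.exp (κ * k) := by
    apply Real.exp_le_exp.mpr
    have : κ * A * k ≤ κ * 1 * k := by gcongr
    linarith
  have h4 : ((n:ℝ) * A)^(k-1) * Real.exp (-(κ/2 * n * A)) ≤ (k-1).factorial * (2/κ)^(k-1) := by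
    have h5 := Real.pow_div_factorial_le_exp (κ/2 * n * A) (by positivity) (k-1)
    rw [div_le_iff₀ (by positivity)] at h5
    have h6 : ((n:ℝ) * A)^(k-1) = (2/κ)^(k-1) * (κ/2 * n * A)^(k-1) := by
      rw [← mul_pow]; congr 1; field_simp
    rw [h6, Real.exp_neg]
    rw [mul_assoc, mul_comm ((k-1).factorial : ℝ)]
    apply mul_le_mul_of_nonneg_left _ (by positivity)
    rw [mul_inv_le_iff₀ (Real.exp_pos _)]
    linarith
  have h7 : (n:ℝ)^k = n * n^(k-1) := by
    rw [← pow_succ', Nat.sub_add_cancel hk]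
  calc (n:ℝ)^k * (A^(k-1) * Real.exp (-(κ * A)) ^ (n-k))
      = Real.exp (κ * A * k) * (((n:ℝ) * A)^(k-1) * Real.exp (-(κ/2 * n * A))) *
          (n * Real.exp (-(κ/2 * n * A))) := by
        rw [h1, h2, h7, mul_pow]; ring
    _ ≤ Real.exp (κ * k) * ((k-1).factorial * (2/κ)^(k-1)) *
          (n * Real.exp (-(κ/2 * n * A))) := by
        gcongr

/-- Upper bound for the expected number of supported `k`-subsets. -/
theorem sum_supp_le {K : Set E} (hK : IsBody K) (hd : 0 < finrank ℝ E) (k : ℕ) (hk : 1 ≤ k) :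
    ∃ C > (0:ℝ), ∃ κ > (0:ℝ), ∀ n : ℕ, k ≤ n →
      ∑ I ∈ Finset.powersetCard k (Finset.univ : Finset (Fin n)),
        ∫⁻ X, {X | Supp I X}.indicator 1 X ∂(samp μ K n) ≤
      ENNReal.ofReal (C * n) * ∫⁻ z in K, ENNReal.ofReal (Real.exp (-(n * (κ * macR μ K z)))) ∂μ := by
  set D : ℝ := (finrank ℝ E : ℝ) with hD
  have hd' : (0:ℝ) < D := by rw [hD]; exact_mod_cast hd
  set V : ℝ := (μ K).toReal with hV
  have hVpos : 0 < V := toReal_pos μ hK
  set N : ℝ := (2*D+1)^(finrank ℝ E) with hN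
  set κ : ℝ := ((5*D)^(finrank ℝ E))⁻¹ with hκ
  have hκ0 : 0 < κ := by positivity
  have hN0 : 0 < N := by positivity
  set M : ℝ := (Real.exp (κ * k) * ((k-1).factorial * (2/κ)^(k-1))) with hM
  have hM0 : 0 < M := by positivity
  refine ⟨(4*D)^(finrank ℝ E) * N^k * M / V, by positivity, κ/(2*V), by positivity, ?_⟩
  intro n hn
  have hstep : ∀ I ∈ Finset.powersetCard k (Finset.univ : Finset (Fin n)),
      ∫⁻ X, {X | Supp I X}.indicator 1 X ∂(samp μ K n) ≤
      ENNReal.ofReal ((4*D)^(finrank ℝ E)) * ∫⁻ z in K,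
        ENNReal.ofReal (N^k * (macR μ K z / V)^(k-1) *
          Real.exp (-(κ * (macR μ K z / V)))^(n-k) / V) ∂μ := by
    intro I hI
    have hcard : I.card = k := (Finset.mem_powersetCard.mp hI).2
    have hIne : I.Nonempty := Finset.card_pos.mp (by omega)
    refine (prob_supp_le μ hK hd I hIne).trans ?_
    apply mul_le_mul_right
    apply lintegral_mono
    intro z
    simp only
    rw [hcard]
    have hA0 : 0 ≤ macR μ K z / V := div_nonneg (macR_nonneg μ K z) hVpos.le
    calc (unif μ K (nbd K z)) ^ k * (unif μ K (core K z)ᶜ) ^ (n - k) * (μ (mac K z))⁻¹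
        ≤ (ENNReal.ofReal (N * (macR μ K z / V)))^k *
            (ENNReal.ofReal (Real.exp (-(κ * (macR μ K z / V)))))^(n-k) * (μ (mac K z))⁻¹ := by
          gcongr
          · exact unif_nbd_le μ hK z
          · exact unif_core_compl μ hK hd z
      _ = (ENNReal.ofReal (N^k * (macR μ K z / V)^(k-1)) *
            (ENNReal.ofReal (Real.exp (-(κ * (macR μ K z / V)))^(n-k)))) *
            (ENNReal.ofReal (macR μ K z / V) * (μ (mac K z))⁻¹) := by
          rw [ENNReal.ofReal_pow (Real.exp_nonneg _), ← ENNReal.ofReal_pow (by positivity), mul_pow]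
          rw [show (macR μ K z / V)^k = (macR μ K z / V)^(k-1) * (macR μ K z / V) by
            rw [← pow_succ, Nat.sub_add_cancel hk]]
          rw [← mul_assoc (N^k), ENNReal.ofReal_mul (p := N^k * (macR μ K z / V)^(k-1))
            (by positivity)]
          ring
      _ ≤ (ENNReal.ofReal (N^k * (macR μ K z / V)^(k-1)) *
            (ENNReal.ofReal (Real.exp (-(κ * (macR μ K z / V)))^(n-k)))) *
            ENNReal.ofReal (1/V) := by
          gcongr
          rw [div_eq_mul_one_div, ENNReal.ofReal_mul (macR_nonneg μ K z), ofReal_macR μ hK z]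
          rw [mul_right_comm]
          calc μ (mac K z) * (μ (mac K z))⁻¹ * ENNReal.ofReal (1/V) ≤ 1 * ENNReal.ofReal (1/V) := by
                gcongr
                exact ENNReal.mul_inv_le_one _
            _ = _ := one_mul _
      _ = _ := by
          rw [← ENNReal.ofReal_mul (by positivity), ← ENNReal.ofReal_mul (by positivity)]
          congr 1; ring
  refine (Finset.sum_le_sum hstep).trans ?_
  rw [Finset.sum_const, Finset.card_powersetCard, Finset.card_univ, Fintype.card_fin, nsmul_eq_mul]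
  have hchoose : ((n.choose k : ℕ) : ℝ≥0∞) ≤ ENNReal.ofReal ((n:ℝ)^k) := by
    rw [← Nat.cast_pow, ENNReal.ofReal_natCast]
    exact_mod_cast Nat.choose_le_pow n k
  calc ((n.choose k : ℕ) : ℝ≥0∞) * (ENNReal.ofReal ((4*D)^(finrank ℝ E)) * ∫⁻ z in K,
        ENNReal.ofReal (N^k * (macR μ K z / V)^(k-1) *
          Real.exp (-(κ * (macR μ K z / V)))^(n-k) / V) ∂μ)
      ≤ ENNReal.ofReal ((n:ℝ)^k) * (ENNReal.ofReal ((4*D)^(finrank ℝ E)) * ∫⁻ z in K,
        ENNReal.ofReal (N^k * (macR μ K z / V)^(k-1) *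
          Real.exp (-(κ * (macR μ K z / V)))^(n-k) / V) ∂μ) := by gcongr
    _ = ENNReal.ofReal ((4*D)^(finrank ℝ E)) * ∫⁻ z in K, ENNReal.ofReal ((n:ℝ)^k) *
        ENNReal.ofReal (N^k * (macR μ K z / V)^(k-1) *
          Real.exp (-(κ * (macR μ K z / V)))^(n-k) / V) ∂μ := by
        rw [lintegral_const_mul' _ _ ENNReal.ofReal_ne_top]; ring
    _ ≤ ENNReal.ofReal ((4*D)^(finrank ℝ E)) * ∫⁻ z in K, ENNReal.ofReal (N^k * M / V * n) *
        ENNReal.ofReal (Real.exp (-(n * (κ/(2*V) * macR μ K z)))) ∂μ := by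
        apply mul_le_mul_right
        apply lintegral_mono
        intro z
        simp only
        have hA0 : 0 ≤ macR μ K z / V := div_nonneg (macR_nonneg μ K z) hVpos.le
        rw [← ENNReal.ofReal_mul (by positivity), ← ENNReal.ofReal_mul (by positivity)]
        apply ENNReal.ofReal_le_ofReal
        have := real_ineq hk hn hκ0 hA0 (by
          rw [div_le_one hVpos]; exact macR_le μ hK z)
        calc (n:ℝ)^k * (N^k * (macR μ K z / V)^(k-1) *
              Real.exp (-(κ * (macR μ K z / V)))^(n-k) / V)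
            = N^k / V * ((n:ℝ)^k * ((macR μ K z / V)^(k-1) *
              Real.exp (-(κ * (macR μ K z / V)))^(n-k))) := by ring
          _ ≤ N^k / V * (M * (n * Real.exp (-(κ/2 * n * (macR μ K z / V))))) := by
              gcongr
          _ = N^k * M / V * n * Real.exp (-(n * (κ/(2*V) * macR μ K z))) := by
              have : κ/2 * n * (macR μ K z / V) = n * (κ/(2*V) * macR μ K z) := by
                field_simp
              rw [this]; ring
    _ = _ := by
        rw [lintegral_const_mul' _ _ ENNReal.ofReal_ne_top, ← mul_assoc,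
          ← ENNReal.ofReal_mul (by positivity)]
        congr 2; ring

/-- Upper bound for the expected volume deficit. -/
theorem deficit_upper {K : Set E} (hK : IsBody K) (hd : 0 < finrank ℝ E) :
    ∃ C > (0:ℝ), ∃ κ > (0:ℝ), ∀ n : ℕ, 0 < n →
      ∫⁻ X, μ (K \ convexHull ℝ (range X)) ∂(samp μ K n) ≤
      ENNReal.ofReal C * ∫⁻ z in K, ENNReal.ofReal (Real.exp (-(n * (κ * macR μ K z)))) ∂μ := by
  set D : ℝ := (finrank ℝ E : ℝ) with hD
  have hd' : (0:ℝ) < D := by rw [hD]; exact_mod_cast hd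
  set V : ℝ := (μ K).toReal with hV
  have hVpos : 0 < V := toReal_pos μ hK
  set N : ℝ := (2*D+1)^(finrank ℝ E) with hN
  set κ : ℝ := ((5*D)^(finrank ℝ E))⁻¹ with hκ
  refine ⟨(4*D)^(finrank ℝ E) * N, by positivity, κ/V, by positivity, ?_⟩
  intro n hn
  refine (deficit_le μ hn hK hd).trans ?_
  rw [ENNReal.ofReal_mul (by positivity), mul_assoc]
  apply mul_le_mul_right
  rw [← lintegral_const_mul' _ _ ENNReal.ofReal_ne_top]
  apply lintegral_mono
  intro z
  simp only
  calc μ (nbd K z) * (unif μ K (core K z)ᶜ) ^ n * (μ (mac K z))⁻¹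
      ≤ ENNReal.ofReal N * μ (mac K z) *
        (ENNReal.ofReal (Real.exp (-(κ * (macR μ K z / V))))) ^ n * (μ (mac K z))⁻¹ := by
        gcongr
        · exact (vol_nbd μ K z).le
        · exact unif_core_compl μ hK hd z
    _ = ENNReal.ofReal N * (ENNReal.ofReal (Real.exp (-(κ * (macR μ K z / V))))) ^ n *
          (μ (mac K z) * (μ (mac K z))⁻¹) := by ring
    _ ≤ ENNReal.ofReal N * (ENNReal.ofReal (Real.exp (-(κ * (macR μ K z / V))))) ^ n * 1 := by
        gcongr
        exact ENNReal.mul_inv_le_one _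
    _ = _ := by
        rw [mul_one, ← ENNReal.ofReal_pow (Real.exp_nonneg _), ← Real.exp_nat_mul]
        congr 3
        have : (n:ℝ) * -(κ * (macR μ K z / V)) = -(n * (κ/V * macR μ K z)) := by
          field_simp
        exact this

end RPoly
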