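import Pool.Agent.Lib_helper50.RP.Poly3
import Pool.Agent.Lib_helper50.RP.Upper2

open MeasureTheory Set Module
open scoped ENNReal Pointwise Topology

set_option linter.unusedSectionVars false

namespace RPoly

variable {E : Type*} [NormedAddCommGroup E] [NormedSpace ℝ E] [FiniteDimensional ℝ E]
variable [MeasurableSpace E] [BorelSpace E] (μ : Measure E) [μ.IsAddHaarMeasure]

lemma fcount_ae {K : Set E} (hK : IsBody K) {n : ℕ} (hn : finrank ℝ E + 1 ≤ n) {j : ℕ}
    (hj : j < finrank ℝ E) :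
    ∀ᵐ X ∂(samp μ K n), ((fcount j (convexHull ℝ (range X)) : ℕ) : ℝ≥0∞) =
      ∑ J ∈ Finset.powersetCard (j+1) (Finset.univ : Finset (Fin n)),
        {X : Fin n → E | SExp J X}.indicator 1 X := by
  classical
  filter_upwards [samp_ae_gp μ hK n] with X hX
  unfold fcount
  rw [hX.ncard_faces hn hj]
  have h1 : {J : Finset (Fin n) | J.card = j + 1 ∧ SExp J X} =
      (((Finset.powersetCard (j+1) (Finset.univ : Finset (Fin n))).filter
        fun J => SExp J X : Finset (Finset (Fin n))) : Set (Finset (Fin n))) := by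
    ext J; simp
  rw [h1, ncard_coe_finset, Finset.card_filter]
  push_cast
  apply Finset.sum_congr rfl
  intro J _
  by_cases h : SExp J X
  · rw [Set.indicator_of_mem (by exact h)]; simp [h]
  · rw [Set.indicator_of_notMem (by exact h)]; simp [h]

lemma fcount_aemeasurable {K : Set E} (hK : IsBody K) {n : ℕ} (hn : finrank ℝ E + 1 ≤ n) {j : ℕ}
    (hj : j < finrank ℝ E) :
    AEMeasurable (fun X : Fin n → E => ((fcount j (convexHull ℝ (range X)) : ℕ) : ℝ≥0∞))
      (samp μ K n) := by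
  refine AEMeasurable.congr ?_ ((fcount_ae μ hK hn hj).mono fun X hX => hX.symm)
  apply Measurable.aemeasurable
  apply Finset.measurable_fun_sum
  intro J _
  exact measurable_one.indicator (measurableSet_sexp J)

lemma SExp.supp {n : ℕ} {J : Finset (Fin n)} {X : Fin n → E} (h : SExp J X) (hne : J.Nonempty)
    (hcard : J.card < n) : Supp J X := by
  obtain ⟨ℓ, c, h1, h2⟩ := h
  refine ⟨ℓ, ?_, c, h1, ?_⟩
  · rintro rfl
    obtain ⟨i, hi⟩ := hne
    obtain ⟨k, hk⟩ : ∃ k, k ∉ J := by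
      by_contra hcon
      push Not at hcon
      have : J = Finset.univ := by ext k; simp [hcon k]
      rw [this] at hcard
      simp at hcard
    have h3 := h1 i hi
    have h4 := h2 k hk
    simp only [zero_apply] at h3 h4
    linarith
  · intro i
    by_cases hi : i ∈ J
    · exact (h1 i hi).le
    · exact (h2 i hi).le

theorem face_upper {K : Set E} (hK : IsBody K) {j : ℕ} (hj : j < finrank ℝ E) :
    ∃ C > (0:ℝ), ∃ κ > (0:ℝ), ∀ n : ℕ, finrank ℝ E + 1 ≤ n →
      ∫⁻ X, ((fcount j (convexHull ℝ (range X)) : ℕ) : ℝ≥0∞) ∂(samp μ K n) ≤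
      ENNReal.ofReal (C * n) * ∫⁻ z in K, ENNReal.ofReal (Real.exp (-(n * (κ * macR μ K z)))) ∂μ := by
  obtain ⟨C, hC, κ, hκ, h⟩ := sum_supp_le μ hK (by omega) (j+1) (by omega)
  refine ⟨C, hC, κ, hκ, fun n hn => ?_⟩
  refine le_trans ?_ (h n (by omega))
  rw [lintegral_congr_ae (fcount_ae μ hK hn hj)]
  rw [lintegral_finsetSum]
  · apply Finset.sum_le_sum
    intro J hJ
    have hcard := (Finset.mem_powersetCard.mp hJ).2
    apply lintegral_mono
    intro X
    by_cases hS : SExp J X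
    · have hS' : Supp J X := hS.supp (Finset.card_pos.mp (by omega)) (by omega)
      rw [Set.indicator_of_mem (by exact hS), Set.indicator_of_mem (by exact hS')]
    · rw [Set.indicator_of_notMem (by exact hS)]
      exact zero_le
  · intro J _
    exact measurable_one.indicator (measurableSet_sexp J)

lemma measurableSet_vert {N : ℕ} (i : Fin (N+1)) :
    MeasurableSet {X : Fin (N+1) → E | Vert X i} := by
  set S : Set (E × (Fin N → E)) := {p | p.1 ∉ convexHull ℝ (range p.2)} with hS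
  have hSm : MeasurableSet S :=
    (measurableSet_hull (E := E) N).compl.preimage (f := fun p : E × (Fin N → E) => (p.2, p.1))
      (by fun_prop)
  have e1 : {X : Fin (N+1) → E | Vert X i} =
      (MeasurableEquiv.piFinSuccAbove (fun _ => E) i) ⁻¹' S := by
    ext X
    have : X '' {i}ᶜ = range (fun j => X (i.succAbove j)) := by
      ext y
      constructor
      · rintro ⟨k, hk, rfl⟩
        obtain ⟨j, rfl⟩ := Fin.exists_succAbove_eq hk
        exact ⟨j, rfl⟩
      · rintro ⟨j, rfl⟩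
        exact ⟨_, Fin.succAbove_ne i j, rfl⟩
    simp only [mem_ofPred_eq, Vert, this]
    rfl
  rw [e1]
  exact hSm.preimage (MeasurableEquiv.measurable _)

theorem face_lower {K : Set E} (hK : IsBody K) {w : E → ℝ} (hw : CapBound μ K w) {j : ℕ}
    (hj : j < finrank ℝ E) :
    ∃ c > (0:ℝ), ∀ n : ℕ, finrank ℝ E + 1 ≤ n →
      ENNReal.ofReal (c * n) * ∫⁻ x in K, (ENNReal.ofReal (1 - w x / (μ K).toReal)) ^ n ∂μ ≤
        ∫⁻ X, ((fcount j (convexHull ℝ (range X)) : ℕ) : ℝ≥0∞) ∂(samp μ K n) := by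
  classical
  have hV := toReal_pos μ hK
  refine ⟨1/((j+1) * (μ K).toReal), by positivity, fun n hn => ?_⟩
  obtain ⟨N, rfl⟩ : ∃ N, n = N + 1 := ⟨n - 1, by omega⟩
  set I := ∫⁻ x in K, (ENNReal.ofReal (1 - w x / (μ K).toReal)) ^ (N+1) ∂μ with hI
  set F := ∫⁻ X, ((fcount j (convexHull ℝ (range X)) : ℕ) : ℝ≥0∞) ∂(samp μ K (N+1)) with hF
  have h1 : ∀ i : Fin (N+1), (μ K)⁻¹ * I ≤ samp μ K (N+1) {X | Vert X i} := by
    intro i
    refine le_trans ?_ (vert_lower μ hK hw N i)
    apply mul_le_mul_right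
    apply lintegral_mono_ae
    filter_upwards [restrict_ae_interior μ hK] with x hx
    apply pow_le_pow_right_of_le_one' _ (Nat.le_succ N)
    rw [ENNReal.ofReal_le_one]
    have := (hw x hx).1
    have := div_nonneg this hV.le
    linarith
  have h2 : ((N+1 : ℕ) : ℝ≥0∞) * ((μ K)⁻¹ * I) ≤ ∑ i : Fin (N+1), samp μ K (N+1) {X | Vert X i} := by
    calc ((N+1 : ℕ) : ℝ≥0∞) * ((μ K)⁻¹ * I) = ∑ i : Fin (N+1), (μ K)⁻¹ * I := by
          rw [Finset.sum_const, Finset.card_univ, Fintype.card_fin, nsmul_eq_mul]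
      _ ≤ _ := Finset.sum_le_sum fun i _ => h1 i
  have h3 : ∑ i : Fin (N+1), samp μ K (N+1) {X | Vert X i} =
      ∫⁻ X, ∑ i : Fin (N+1), {X : Fin (N+1) → E | Vert X i}.indicator 1 X ∂(samp μ K (N+1)) := by
    rw [lintegral_finsetSum]
    · apply Finset.sum_congr rfl
      intro i _
      rw [lintegral_indicator_one (measurableSet_vert i)]
    · intro i _
      exact measurable_one.indicator (measurableSet_vert i)
  have h4 : ∫⁻ X, ∑ i : Fin (N+1), {X : Fin (N+1) → E | Vert X i}.indicator 1 X ∂(samp μ K (N+1)) ≤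
      ((j+1 : ℕ) : ℝ≥0∞) * F := by
    rw [hF, ← lintegral_const_mul' _ _ (ENNReal.natCast_ne_top _)]
    apply lintegral_mono_ae
    filter_upwards [samp_ae_gp μ hK (N+1)] with X hX
    have h5 := card_vert_le hX hn hj
    rw [← hX.ncard_faces hn hj] at h5
    have h6 : ∑ i : Fin (N+1), {X : Fin (N+1) → E | Vert X i}.indicator (1 : (Fin (N+1) → E) → ℝ≥0∞) X =
        (({i | Vert X i}.ncard : ℕ) : ℝ≥0∞) := by
      have h7 : {i | Vert X i} = ((Finset.univ.filter fun i => Vert X i : Finset (Fin (N+1))) :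
          Set (Fin (N+1))) := by ext i; simp
      rw [h7, ncard_coe_finset, Finset.card_filter]
      push_cast
      apply Finset.sum_congr rfl
      intro i _
      by_cases h : Vert X i
      · rw [Set.indicator_of_mem (by exact h)]; simp [h]
      · rw [Set.indicator_of_notMem (by exact h)]; simp [h]
    rw [h6]
    exact_mod_cast h5
  have h5 : ((N+1 : ℕ) : ℝ≥0∞) * ((μ K)⁻¹ * I) ≤ ((j+1 : ℕ) : ℝ≥0∞) * F := h2.trans (h3.le.trans h4)
  have h6 : ENNReal.ofReal (1/((j+1) * (μ K).toReal) * ((N+1 : ℕ) : ℝ)) =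
      ((j+1 : ℕ) : ℝ≥0∞)⁻¹ * (((N+1 : ℕ) : ℝ≥0∞) * (μ K)⁻¹) := by
    rw [ENNReal.ofReal_mul (by positivity), one_div, mul_inv, ENNReal.ofReal_mul (by positivity),
      ENNReal.ofReal_inv_of_pos (by positivity), ENNReal.ofReal_inv_of_pos hV,
      ENNReal.ofReal_toReal (hK.fin μ), ENNReal.ofReal_natCast]
    have : ((j:ℝ) + 1) = ((j+1 : ℕ) : ℝ) := by push_cast; ring
    rw [this, ENNReal.ofReal_natCast]
    ring
  rw [h6, mul_assoc, mul_assoc]
  calc ((j+1 : ℕ) : ℝ≥0∞)⁻¹ * (((N+1 : ℕ) : ℝ≥0∞) * ((μ K)⁻¹ * I))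
      ≤ ((j+1 : ℕ) : ℝ≥0∞)⁻¹ * (((j+1 : ℕ) : ℝ≥0∞) * F) := by gcongr
    _ = F := by
        rw [← mul_assoc, ENNReal.inv_mul_cancel (by simp) (ENNReal.natCast_ne_top _), one_mul]

end RPoly
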