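import Pool.Agent.Lib_helper50.RP.WetLow2
import Pool.Agent.Lib_helper50.RP.Compare
import Pool.Agent.Lib_helper50.RP.Poly4

open MeasureTheory Set Module Filter
open scoped ENNReal Pointwise Topology NNReal

set_option linter.unusedSectionVars false

namespace RPoly

variable {m : ℕ} {E : Fin m → Type*} [∀ i, NormedAddCommGroup (E i)] [∀ i, NormedSpace ℝ (E i)]
  [∀ i, MeasureSpace (E i)] [∀ i, BorelSpace (E i)] [∀ i, FiniteDimensional ℝ (E i)]
  [∀ i, (volume : Measure (E i)).IsAddHaarMeasure]

example : BorelSpace (∀ i, E i) := inferInstance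
example : (volume : Measure (∀ i, E i)).IsAddHaarMeasure := inferInstance
example : FiniteDimensional ℝ (∀ i, E i) := inferInstance

lemma body_pi {K : ∀ i, Set (E i)} (hK : ∀ i, IsBody (K i)) : IsBody (Set.pi univ K) where
  convex := convex_pi fun i _ => (hK i).convex
  compact := isCompact_univ_pi fun i => (hK i).compact
  int := by
    rw [interior_pi_set finite_univ]
    choose x hx using fun i => (hK i).int
    exact ⟨x, fun i _ => hx i⟩

lemma mac_pi (K : ∀ i, Set (E i)) (z : ∀ i, E i) :
    mac (Set.pi univ K) z = Set.pi univ fun i => mac (K i) (z i) := by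
  ext a
  simp only [mac, Set.mem_pi, mem_univ, true_implies, mem_ofPred_eq, Pi.add_apply, Pi.sub_apply]
  exact ⟨fun h i => ⟨h.1 i, h.2 i⟩, fun h => ⟨fun i => (h i).1, fun i => (h i).2⟩⟩

lemma macR_pi (K : ∀ i, Set (E i)) (z : ∀ i, E i) :
    macR volume (Set.pi univ K) z = ∏ i, macR volume (K i) (z i) := by
  unfold macR
  rw [mac_pi, volume_pi_pi, ENNReal.toReal_prod]

/-- law of a function of each coordinate -/
noncomputable def lawOf {F : Type*} [MeasureSpace F] (K : Set F) (a : F → ℝ) : Measure ℝ :=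
  (volume.restrict K).map a

lemma lawOf_apply {F : Type*} [MeasureSpace F] {K : Set F} {a : F → ℝ}
    (ha : Measurable a) (s : ℝ) :
    lawOf K a (Iic s) = volume {x ∈ K | a x ≤ s} := by
  unfold lawOf
  rw [Measure.map_apply ha measurableSet_Iic, Measure.restrict_apply (ha measurableSet_Iic)]
  congr 1
  ext x
  simp only [mem_inter_iff, mem_preimage, mem_Iic, mem_ofPred_eq]
  exact and_comm

lemma lawOf_finite {F : Type*} [MeasureSpace F] {K : Set F} {a : F → ℝ}
    (hK : volume K ≠ ∞) : IsFiniteMeasure (lawOf K a) := by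
  have : IsFiniteMeasure (volume.restrict K) := ⟨by rw [Measure.restrict_apply_univ]; exact hK.lt_top⟩
  unfold lawOf
  infer_instance

/-- integrals over the product body of functions of the coordinate functions -/
lemma lintegral_pi_law {K : ∀ i, Set (E i)} (hK : ∀ i, IsBody (K i)) {a : ∀ i, E i → ℝ}
    (ha : ∀ i, Measurable (a i)) {G : (Fin m → ℝ) → ℝ≥0∞} (hG : Measurable G) :
    ∫⁻ z in Set.pi univ K, G (fun i => a i (z i)) = ∫⁻ s, G s ∂(Measure.pi fun i => lawOf (K i) (a i)) := by
  have hfin : ∀ i, IsFiniteMeasure (lawOf (K i) (a i)) :=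
    fun i => lawOf_finite ((hK i).fin volume)
  have h1 : (volume : Measure (∀ i, E i)).restrict (Set.pi univ K) =
      Measure.pi fun i => volume.restrict (K i) := by
    rw [volume_pi]
    exact Measure.restrict_pi_pi _ _
  rw [h1]
  have h2 : Measure.pi (fun i => lawOf (K i) (a i)) =
      (Measure.pi fun i => volume.restrict (K i)).map (fun x i => a i (x i)) := by
    have : ∀ i, SigmaFinite ((volume.restrict (K i)).map (a i)) := by
      intro i
      have := hfin i
      unfold lawOf at this
      infer_instance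
    exact (Measure.pi_map_pi (fun i => (ha i).aemeasurable)).symm
  rw [h2, lintegral_map hG]
  exact measurable_pi_lambda _ fun i => (ha i).comp (measurable_pi_apply i)

/-- caps of product bodies -/
lemma capBound_pi {K : ∀ i, Set (E i)} {w : ∀ i, E i → ℝ}
    (hw : ∀ i, WetLower volume (K i) m (w i)) :
    CapBound volume (Set.pi univ K) (fun x => ∏ i, w i (x i)) := by
  intro x hx
  rw [interior_pi_set finite_univ] at hx
  refine ⟨Finset.prod_nonneg fun i _ => (hw i).nonneg _, ?_⟩
  choose ℓ c h1 h2 h3 using fun i => (hw i).cap (x i) (hx i (mem_univ i))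
  set L : (∀ i, E i) →L[ℝ] ℝ :=
    ∑ i, (1 / (c i - ℓ i (x i))) • (ℓ i).comp (ContinuousLinearMap.proj i) with hL
  have hLy : ∀ y, L y = ∑ i, ℓ i (y i) / (c i - ℓ i (x i)) := by
    intro y
    simp only [hL, sum_apply, smul_apply, ContinuousLinearMap.comp_apply,
      ContinuousLinearMap.proj_apply, smul_eq_mul]
    apply Finset.sum_congr rfl
    intro i _
    ring
  refine ⟨L, ?_⟩
  have hsub : {y ∈ Set.pi univ K | L x ≤ L y} ⊆
      Set.pi univ fun i => {y ∈ K i | c i - ℓ i y ≤ (m:ℝ) * (c i - ℓ i (x i))} := by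
    rintro y ⟨hyK, hy⟩ i _
    refine ⟨hyK i (mem_univ i), ?_⟩
    have hpos : ∀ j, 0 < c j - ℓ j (x j) := fun j => by have := h2 j; linarith
    have hterm : ∀ j, 0 ≤ (c j - ℓ j (y j)) / (c j - ℓ j (x j)) := fun j =>
      div_nonneg (by have := h1 j (y j) (hyK j (mem_univ j)); linarith) (hpos j).le
    have hsum : ∑ j, (c j - ℓ j (y j)) / (c j - ℓ j (x j)) ≤ m := by
      have e1 : ∑ j, (c j - ℓ j (y j)) / (c j - ℓ j (x j)) =
          ∑ j, c j / (c j - ℓ j (x j)) - L y := by
        rw [hLy, ← Finset.sum_sub_distrib]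
        apply Finset.sum_congr rfl; intro j _; ring
      have e2 : ∑ j, (c j - ℓ j (x j)) / (c j - ℓ j (x j)) =
          ∑ j, c j / (c j - ℓ j (x j)) - L x := by
        rw [hLy, ← Finset.sum_sub_distrib]
        apply Finset.sum_congr rfl; intro j _; ring
      have e3 : ∑ j, (c j - ℓ j (x j)) / (c j - ℓ j (x j)) = m := by
        rw [Finset.sum_congr rfl fun j _ => div_self (hpos j).ne']
        simp
      linarith
    have hle : (c i - ℓ i (y i)) / (c i - ℓ i (x i)) ≤ m :=
      (Finset.single_le_sum (fun j _ => hterm j) (Finset.mem_univ i)).trans hsum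
    rwa [div_le_iff₀ (hpos i)] at hle
  refine (measure_mono hsub).trans ?_
  rw [volume_pi_pi, ENNReal.ofReal_prod_of_nonneg fun i _ => (hw i).nonneg _]
  exact Finset.prod_le_prod' fun i _ => h3 i

end RPoly
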