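import Pool.Agent.Lib_helper50.RP.Average
import Pool.Agent.Lib_helper50.RP.Defs

open MeasureTheory Set Module
open scoped ENNReal Pointwise Topology

set_option linter.unusedSectionVars false

namespace RPoly

/-- Convex bodies. -/
structure IsBody {E : Type*} [NormedAddCommGroup E] [NormedSpace ℝ E] (K : Set E) : Prop where
  convex : Convex ℝ K
  compact : IsCompact K
  int : (interior K).Nonempty

variable {E : Type*} [NormedAddCommGroup E] [NormedSpace ℝ E]

variable [MeasurableSpace E] [BorelSpace E] [FiniteDimensional ℝ E] (μ : Measure E)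
  [μ.IsAddHaarMeasure]

lemma IsBody.pos {K : Set E} (hK : IsBody K) : μ K ≠ 0 :=
  (Measure.measure_pos_of_nonempty_interior μ hK.int).ne'

lemma IsBody.fin {K : Set E} (hK : IsBody K) : μ K ≠ ∞ :=
  hK.compact.measure_lt_top.ne

lemma unif_prob {K : Set E} (hK : IsBody K) : IsProbabilityMeasure (unif μ K) := by
  constructor
  unfold unif
  rw [Measure.smul_apply, Measure.restrict_apply_univ, smul_eq_mul]
  exact ENNReal.inv_mul_cancel (hK.pos μ) (hK.fin μ)

lemma unif_apply_of_subset {K S : Set E} (h : S ⊆ K) : unif μ K S = (μ K)⁻¹ * μ S := by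
  unfold unif
  rw [Measure.smul_apply, Measure.restrict_eq_self _ h, smul_eq_mul]

lemma unif_apply_le (K S : Set E) : unif μ K S ≤ (μ K)⁻¹ * μ S := by
  unfold unif
  rw [Measure.smul_apply, smul_eq_mul]
  gcongr
  exact Measure.restrict_le_self

lemma restrict_ae_interior {K : Set E} (hK : IsBody K) :
    ∀ᵐ x ∂(μ.restrict K), x ∈ interior K := by
  rw [ae_restrict_iff' hK.compact.isClosed.measurableSet]
  have h2 : μ (frontier K) = 0 := hK.convex.addHaar_frontier μ
  have h3 : ∀ᵐ x ∂μ, x ∉ frontier K := by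
    rw [ae_iff]; simpa using h2
  filter_upwards [h3] with x hx hxK
  rw [frontier, hK.compact.isClosed.closure_eq] at hx
  by_contra h
  exact hx ⟨hxK, h⟩

lemma unif_ae_interior {K : Set E} (hK : IsBody K) : ∀ᵐ x ∂(unif μ K), x ∈ interior K :=
  Measure.ae_smul_measure (restrict_ae_interior μ hK) _

lemma samp_ae_interior {K : Set E} (hK : IsBody K) (n : ℕ) :
    ∀ᵐ X ∂(samp μ K n), ∀ i, X i ∈ interior K := by
  have := unif_prob μ hK
  rw [ae_all_iff]
  intro i
  have := (measurePreserving_eval (fun _ : Fin n => unif μ K) i).quasiMeasurePreserving.ae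
    (unif_ae_interior μ hK)
  exact this

/-- the closed set of pairs -/
lemma isClosed_mac_pair {K : Set E} (hK : IsClosed K) (s : ℝ) :
    IsClosed {p : E × E | s • (p.1 - p.2) ∈ mac K p.2} := by
  have h1 : IsClosed {p : E × E | p.2 + s • (p.1 - p.2) ∈ K} := hK.preimage (by fun_prop)
  have h2 : IsClosed {p : E × E | p.2 - s • (p.1 - p.2) ∈ K} := hK.preimage (by fun_prop)
  exact h1.inter h2

lemma measurableSet_nbd {K : Set E} (hK : IsClosed K) (z : E) : MeasurableSet (nbd K z) := by
  have : IsClosed (nbd K z) := (mac_isClosed hK z).preimage (by fun_prop)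
  exact this.measurableSet

lemma measurableSet_core {K : Set E} (hK : IsClosed K) (z : E) : MeasurableSet (core K z) := by
  have : IsClosed (core K z) := (mac_isClosed hK z).preimage (by fun_prop)
  exact this.measurableSet

lemma measurable_macVol {K : Set E} (hK : IsClosed K) : Measurable fun z => μ (mac K z) := by
  have h1 : IsClosed {p : E × E | p.1 + p.2 ∈ K} := hK.preimage (by fun_prop)
  have h2 : IsClosed {p : E × E | p.1 - p.2 ∈ K} := hK.preimage (by fun_prop)
  exact measurable_measure_prodMk_left (h1.inter h2).measurableSet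

/-- The event that the points `X i`, `i ∈ I`, lie on a hyperplane supporting all points. -/
def Supp {n : ℕ} (I : Finset (Fin n)) (X : Fin n → E) : Prop :=
  ∃ ℓ : E →L[ℝ] ℝ, ℓ ≠ 0 ∧ ∃ c : ℝ, (∀ i ∈ I, ℓ (X i) = c) ∧ ∀ i, ℓ (X i) ≤ c

/-- the sets constraining the points given a Macbeath center -/
def tgt {n : ℕ} (K : Set E) (I : Finset (Fin n)) (z : E) (i : Fin n) : Set E :=
  if i ∈ I then nbd K z else (core K z)ᶜ

lemma measurableSet_tgt_pair {n : ℕ} {K : Set E} (hK : IsClosed K) (I : Finset (Fin n)) :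
    MeasurableSet {p : (Fin n → E) × E | ∀ i, p.1 i ∈ tgt K I p.2 i} := by
  have : {p : (Fin n → E) × E | ∀ i, p.1 i ∈ tgt K I p.2 i} =
      ⋂ i, {p : (Fin n → E) × E | p.1 i ∈ tgt K I p.2 i} := by
    ext p; simp
  rw [this]
  refine MeasurableSet.iInter fun i => ?_
  by_cases hi : i ∈ I
  · have h1 := (isClosed_mac_pair hK (1/(2*(finrank ℝ E : ℝ)+1))).measurableSet.preimage
      (f := fun p : (Fin n → E) × E => (p.1 i, p.2)) (by fun_prop)
    have h2 : {p : (Fin n → E) × E | p.1 i ∈ tgt K I p.2 i} =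
        (fun p : (Fin n → E) × E => (p.1 i, p.2)) ⁻¹'
          {p : E × E | (1/(2*(finrank ℝ E : ℝ)+1)) • (p.1 - p.2) ∈ mac K p.2} := by
      ext p; simp [tgt, hi, nbd]
    rw [h2]; exact h1
  · have h1 := (isClosed_mac_pair hK (5*(finrank ℝ E : ℝ))).measurableSet.compl.preimage
      (f := fun p : (Fin n → E) × E => (p.1 i, p.2)) (by fun_prop)
    have h2 : {p : (Fin n → E) × E | p.1 i ∈ tgt K I p.2 i} =
        (fun p : (Fin n → E) × E => (p.1 i, p.2)) ⁻¹'
          {p : E × E | (5*(finrank ℝ E : ℝ)) • (p.1 - p.2) ∈ mac K p.2}ᶜ := by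
      ext p; simp [tgt, hi, core]
    rw [h2]; exact h1

lemma samp_tgt {n : ℕ} {K : Set E} (hK : IsBody K) (I : Finset (Fin n)) (z : E) :
    samp μ K n {X | ∀ i, X i ∈ tgt K I z i} =
      (unif μ K (nbd K z)) ^ I.card * (unif μ K (core K z)ᶜ) ^ (n - I.card) := by
  have := unif_prob μ hK
  have h1 : {X : Fin n → E | ∀ i, X i ∈ tgt K I z i} = Set.pi univ (tgt K I z) := by
    ext X; simp
  rw [h1, samp, Measure.pi_pi]
  have h2 : ∀ i, unif μ K (tgt K I z i) =
      if i ∈ I then unif μ K (nbd K z) else unif μ K (core K z)ᶜ := by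
    intro i; unfold tgt; split_ifs <;> rfl
  simp_rw [h2]
  rw [Finset.prod_ite, Finset.prod_const, Finset.prod_const]
  congr 2
  · congr 1; ext i; simp
  · rw [← Finset.compl_filter]
    have : (Finset.univ.filter fun i => i ∈ I) = I := by ext i; simp
    rw [this, Finset.card_compl, Fintype.card_fin]

end RPoly
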