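import Pool.Agent.Lib_helper50.RP.Sample

open MeasureTheory Set Module
open scoped ENNReal Pointwise Topology

set_option linter.unusedSectionVars false

namespace RPoly

variable {E : Type*} [NormedAddCommGroup E] [NormedSpace ℝ E]

lemma exists_gt_of_interior {K : Set E} {x : E} (hx : x ∈ interior K) {ℓ : E →L[ℝ] ℝ}
    (hℓ : ℓ ≠ 0) : ∃ y ∈ K, ℓ x < ℓ y := by
  have : ∃ v, ℓ v ≠ 0 := by
    by_contra h
    push Not at h
    exact hℓ (ContinuousLinearMap.ext h)
  obtain ⟨v, hv⟩ := this
  obtain ⟨w, hw⟩ : ∃ w, 0 < ℓ w := by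
    rcases lt_or_gt_of_ne hv with h | h
    · exact ⟨-v, by rw [map_neg]; linarith⟩
    · exact ⟨v, h⟩
  have hc : Filter.Tendsto (fun t : ℝ => x + t • w) (𝓝[>] 0) (𝓝 x) := by
    have : Continuous fun t : ℝ => x + t • w := by fun_prop
    have h2 := this.tendsto 0
    simp only [zero_smul, add_zero] at h2
    exact h2.mono_left nhdsWithin_le_nhds
  have h1 : ∀ᶠ t : ℝ in 𝓝[>] 0, x + t • w ∈ K := hc (mem_interior_iff_mem_nhds.mp hx)
  have h2 : ∀ᶠ t : ℝ in 𝓝[>] 0, 0 < t := self_mem_nhdsWithin
  obtain ⟨t, ht1, ht2⟩ := (h1.and h2).exists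
  refine ⟨_, ht1, ?_⟩
  rw [map_add, map_smul, smul_eq_mul]
  have := mul_pos ht2 hw
  linarith

variable [MeasurableSpace E] [BorelSpace E] [FiniteDimensional ℝ E] (μ : Measure E)
  [μ.IsAddHaarMeasure]

theorem prob_supp_le {n : ℕ} {K : Set E} (hK : IsBody K) (hd : 0 < finrank ℝ E)
    (I : Finset (Fin n)) (hI : I.Nonempty) :
    ∫⁻ X, {X | Supp I X}.indicator 1 X ∂(samp μ K n) ≤
      ENNReal.ofReal ((4*(finrank ℝ E : ℝ))^(finrank ℝ E)) *
       ∫⁻ z in K, (unif μ K (nbd K z)) ^ I.card * (unif μ K (core K z)ᶜ) ^ (n - I.card) *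
        (μ (mac K z))⁻¹ ∂μ := by
  have := unif_prob μ hK
  have : IsProbabilityMeasure (samp μ K n) := by unfold samp; infer_instance
  set S : Set ((Fin n → E) × E) := {p | ∀ i, p.1 i ∈ tgt K I p.2 i} with hS
  have hSm : MeasurableSet S := measurableSet_tgt_pair hK.compact.isClosed I
  have key : ∀ᵐ X ∂(samp μ K n), {X : Fin n → E | Supp I X}.indicator (1 : (Fin n → E) → ℝ≥0∞) X ≤
      ENNReal.ofReal ((4*(finrank ℝ E : ℝ))^(finrank ℝ E)) *
        ∫⁻ z in K, (S.indicator 1 (X, z)) * (μ (mac K z))⁻¹ ∂μ := by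
    filter_upwards [samp_ae_interior μ hK n] with X hX
    by_cases hs : Supp I X
    · rw [Set.indicator_of_mem (by exact hs)]
      obtain ⟨ℓ, hℓ, c, h1, h2⟩ := hs
      obtain ⟨i0, hi0⟩ := hI
      obtain ⟨y, hy, hyc⟩ := exists_gt_of_interior (hX i0) hℓ
      rw [h1 i0 hi0] at hyc
      refine cap_average μ hK.convex hK.compact hK.int hd ℓ c ⟨y, hy, hyc⟩ _ ?_
      intro z _ h3 h4
      have hmem : (X, z) ∈ S := by
        intro i
        unfold tgt
        split_ifs with hi
        · exact h3 _ (interior_subset (hX i)) (h1 i hi).ge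
        · intro hcore
          exact absurd (h4 _ hcore) (not_lt.mpr (h2 i))
      rw [Set.indicator_of_mem hmem]
      simp
    · rw [Set.indicator_of_notMem (by exact hs)]
      exact zero_le
  refine (lintegral_mono_ae key).trans ?_
  rw [lintegral_const_mul' _ _ ENNReal.ofReal_ne_top]
  apply mul_le_mul_right
  rw [lintegral_lintegral_swap]
  · apply lintegral_mono
    intro z
    have hz : MeasurableSet {X : Fin n → E | (X, z) ∈ S} := hSm.preimage (by fun_prop)
    have e1 : ∀ X : Fin n → E, S.indicator (1 : (Fin n → E) × E → ℝ≥0∞) (X, z) =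
        {X : Fin n → E | (X, z) ∈ S}.indicator 1 X := by
      intro X; rfl
    simp only [e1]
    rw [lintegral_mul_const _ (measurable_one.indicator hz), lintegral_indicator_one hz]
    apply le_of_eq
    congr 1
    exact samp_tgt μ hK I z
  · apply Measurable.aemeasurable
    apply Measurable.mul
    · exact measurable_one.indicator hSm
    · exact ((measurable_macVol μ hK.compact.isClosed).inv).comp measurable_snd

theorem deficit_le {n : ℕ} (hn : 0 < n) {K : Set E} (hK : IsBody K) (hd : 0 < finrank ℝ E) :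
    ∫⁻ X, μ (K \ convexHull ℝ (range X)) ∂(samp μ K n) ≤
      ENNReal.ofReal ((4*(finrank ℝ E : ℝ))^(finrank ℝ E)) *
       ∫⁻ z in K, μ (nbd K z) * (unif μ K (core K z)ᶜ) ^ n * (μ (mac K z))⁻¹ ∂μ := by
  have := unif_prob μ hK
  have : IsProbabilityMeasure (samp μ K n) := by unfold samp; infer_instance
  set S : Set ((Fin n → E) × E) := {p | ∀ i, p.1 i ∈ tgt K ∅ p.2 i} with hS
  have hSm : MeasurableSet S := measurableSet_tgt_pair hK.compact.isClosed ∅
  set T : Set (E × E) := {p | (1/(2*(finrank ℝ E : ℝ)+1)) • (p.1 - p.2) ∈ mac K p.2} with hT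
  have hTm : MeasurableSet T := (isClosed_mac_pair hK.compact.isClosed _).measurableSet
  have hKm : MeasurableSet K := hK.compact.isClosed.measurableSet
  have key0 : ∀ X : Fin n → E, ∀ x ∈ interior K, x ∉ convexHull ℝ (range X) →
      1 ≤ ENNReal.ofReal ((4*(finrank ℝ E : ℝ))^(finrank ℝ E)) *
        ∫⁻ z in K, (T.indicator 1 (x, z) * S.indicator 1 (X, z)) * (μ (mac K z))⁻¹ ∂μ := by
    intro X x hx hxX
    have hcomp : IsCompact (convexHull ℝ (range X)) := (finite_range X).isCompact_convexHull ℝ
    obtain ⟨f, u, hu1, hu2⟩ := geometric_hahn_banach_point_closed (convex_convexHull ℝ (range X))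
      hcomp.isClosed hxX
    have hf : -f ≠ 0 := by
      intro h0
      have hf0 : f = 0 := neg_eq_zero.mp h0
      have := hu2 (X ⟨0, hn⟩) (subset_convexHull ℝ _ ⟨_, rfl⟩)
      rw [hf0] at this hu1
      simp at this hu1
      linarith
    obtain ⟨y, hy, hyc⟩ := exists_gt_of_interior hx hf
    refine cap_average μ hK.convex hK.compact hK.int hd (-f) ((-f) x) ⟨y, hy, hyc⟩ _ ?_
    intro z _ h3 h4
    have hmem : (X, z) ∈ S := by
      intro i
      unfold tgt
      rw [if_neg (by simp)]
      intro hcore
      have h5 := h4 _ hcore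
      have h6 := hu2 (X i) (subset_convexHull ℝ _ ⟨_, rfl⟩)
      simp only [neg_apply] at h5
      linarith
    have hmem2 : (x, z) ∈ T := h3 x (interior_subset hx) le_rfl
    rw [Set.indicator_of_mem hmem, Set.indicator_of_mem hmem2]
    simp
  have hint_ae : ∀ᵐ x ∂(μ.restrict K), x ∈ interior K := by
    rw [ae_restrict_iff' hKm]
    have h2 : μ (frontier K) = 0 := hK.convex.addHaar_frontier μ
    have h3 : ∀ᵐ x ∂μ, x ∉ frontier K := by
      rw [ae_iff]; simpa using h2
    filter_upwards [h3] with x hx hxK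
    rw [frontier, hK.compact.isClosed.closure_eq] at hx
    by_contra h
    exact hx ⟨hxK, h⟩
  have key : ∀ X : Fin n → E, μ (K \ convexHull ℝ (range X)) ≤
      ENNReal.ofReal ((4*(finrank ℝ E : ℝ))^(finrank ℝ E)) *
        ∫⁻ z in K, μ (nbd K z) * S.indicator 1 (X, z) * (μ (mac K z))⁻¹ ∂μ := by
    intro X
    have hcomp : IsCompact (convexHull ℝ (range X)) := (finite_range X).isCompact_convexHull ℝ
    have e0 : μ (K \ convexHull ℝ (range X)) =
        ∫⁻ x in K, (convexHull ℝ (range X))ᶜ.indicator 1 x ∂μ := by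
      rw [lintegral_indicator_one hcomp.isClosed.measurableSet.compl,
        Measure.restrict_apply hcomp.isClosed.measurableSet.compl, sdiff_eq, inter_comm]
    rw [e0]
    have h1 : ∫⁻ x in K, (convexHull ℝ (range X))ᶜ.indicator 1 x ∂μ ≤
        ∫⁻ x in K, ENNReal.ofReal ((4*(finrank ℝ E : ℝ))^(finrank ℝ E)) *
        ∫⁻ z in K, (T.indicator 1 (x, z) * S.indicator 1 (X, z)) * (μ (mac K z))⁻¹ ∂μ ∂μ := by
      apply lintegral_mono_ae
      filter_upwards [hint_ae] with x hx
      by_cases hxX : x ∈ convexHull ℝ (range X)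
      · rw [Set.indicator_of_notMem (by simpa using hxX)]; exact zero_le
      · rw [Set.indicator_of_mem (by simpa using hxX)]
        exact key0 X x hx hxX
    refine h1.trans ?_
    rw [lintegral_const_mul' _ _ ENNReal.ofReal_ne_top]
    apply mul_le_mul_right
    rw [lintegral_lintegral_swap]
    · apply lintegral_mono
      intro z
      have hz : MeasurableSet {x : E | (x, z) ∈ T} := hTm.preimage (by fun_prop)
      have e1 : ∀ x : E, T.indicator (1 : E × E → ℝ≥0∞) (x, z) =
          {x : E | (x, z) ∈ T}.indicator 1 x := by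
        intro X; rfl
      simp only [e1]
      simp only [mul_assoc]
      rw [lintegral_mul_const _ (measurable_one.indicator hz), lintegral_indicator_one hz]
      gcongr
      · exact Measure.restrict_le_self
      · exact fun x hx => hx
    · apply Measurable.aemeasurable
      apply Measurable.mul
      · apply Measurable.mul
        · exact measurable_one.indicator hTm
        · exact (measurable_one.indicator hSm).comp
            (f := fun p : E × E => (X, p.2)) (by fun_prop)
      · exact ((measurable_macVol μ hK.compact.isClosed).inv).comp measurable_snd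
  refine (lintegral_mono key).trans ?_
  rw [lintegral_const_mul' _ _ ENNReal.ofReal_ne_top]
  apply mul_le_mul_right
  have hnbdm : Measurable fun z => μ (nbd K z) := by
    simp_rw [vol_nbd]
    exact (measurable_macVol μ hK.compact.isClosed).const_mul _
  rw [lintegral_lintegral_swap]
  · apply lintegral_mono
    intro z
    have hz : MeasurableSet {X : Fin n → E | (X, z) ∈ S} := hSm.preimage (by fun_prop)
    have e1 : ∀ X : Fin n → E, S.indicator (1 : (Fin n → E) × E → ℝ≥0∞) (X, z) =
        {X : Fin n → E | (X, z) ∈ S}.indicator 1 X := by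
      intro X; rfl
    simp only [e1]
    have hm1 : Measurable ({X : Fin n → E | (X, z) ∈ S}.indicator (1 : (Fin n → E) → ℝ≥0∞)) :=
      measurable_one.indicator hz
    rw [lintegral_mul_const _ (hm1.const_mul _), lintegral_const_mul _ hm1,
      lintegral_indicator_one hz]
    apply le_of_eq
    congr 2
    have := samp_tgt μ hK (∅ : Finset (Fin n)) z
    simp only [Finset.card_empty, pow_zero, one_mul, Nat.sub_zero] at this
    exact this
  · apply Measurable.aemeasurable
    apply Measurable.mul
    · apply Measurable.mul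
      · exact hnbdm.comp measurable_snd
      · exact measurable_one.indicator hSm
    · exact ((measurable_macVol μ hK.compact.isClosed).inv).comp measurable_snd

end RPoly
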