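import Pool.Agent.Lib_helper50.RP.OuterBall

open MeasureTheory Set Module Filter
open scoped ENNReal Pointwise Topology NNReal

set_option linter.unusedSectionVars false

namespace RPoly

variable {E : Type*} [NormedAddCommGroup E] [NormedSpace ℝ E]

variable [MeasurableSpace E] [BorelSpace E] [FiniteDimensional ℝ E] (μ : Measure E)
  [μ.IsAddHaarMeasure]

/-- volume of a slab inside a ball -/
theorem slab_bound (hd : 0 < finrank ℝ E) {ℓ : E →L[ℝ] ℝ} (hℓ : ‖ℓ‖ = 1) {τ h : ℝ} (hτ : 0 ≤ τ)
    (hh : 0 < h) :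
    μ {a | |ℓ a| ≤ τ ∧ ‖a‖ ≤ h} ≤
      ENNReal.ofReal ((μ (Metric.ball 0 1)).toReal * 3^(finrank ℝ E) * τ * h^(finrank ℝ E - 1)) := by
  set κ := (μ (Metric.ball (0:E) 1)).toReal with hκ
  have hκfin : μ (Metric.ball (0:E) 1) ≠ ∞ := measure_ball_lt_top.ne
  obtain ⟨v₀, hv₀, hv₀ℓ⟩ := ℓ.exists_lt_apply_of_lt_opNorm (r := 1/2) (by rw [hℓ]; norm_num)
  have hℓv₀ : ℓ v₀ ≠ 0 := by
    intro h0; rw [h0, norm_zero] at hv₀ℓ; norm_num at hv₀ℓ
  set v := (ℓ v₀)⁻¹ • v₀ with hv
  have hℓv : ℓ v = 1 := by rw [hv, map_smul, smul_eq_mul, inv_mul_cancel₀ hℓv₀]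
  have hvn : ‖v‖ ≤ 2 := by
    rw [hv, norm_smul, norm_inv]
    rw [inv_mul_le_iff₀ (by positivity)]
    linarith
  set A : Set E := {a | |ℓ a| ≤ τ ∧ ‖a‖ ≤ h} with hA
  have hAcl : IsClosed A :=
    (isClosed_le (continuous_abs.comp ℓ.continuous) continuous_const).inter
      (isClosed_le continuous_norm continuous_const)
  set T : Set (E × ℝ) := {p | p.2 ∈ Icc (-h) h ∧ p.1 - p.2 • v ∈ A} with hT
  have hTm : MeasurableSet T := by
    have h1 : IsClosed {p : E × ℝ | p.2 ∈ Icc (-h) h} := isClosed_Icc.preimage continuous_snd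
    have h2 : IsClosed {p : E × ℝ | p.1 - p.2 • v ∈ A} := hAcl.preimage (by fun_prop)
    exact (h1.inter h2).measurableSet
  have hlow : ENNReal.ofReal (2*h) * μ A = (μ.prod volume) T := by
    rw [Measure.prod_apply_symm hTm]
    have e1 : ∀ η : ℝ, μ ((fun x => (x, η)) ⁻¹' T) = (Icc (-h) h).indicator (fun _ => μ A) η := by
      intro η
      by_cases hη : η ∈ Icc (-h) h
      · rw [Set.indicator_of_mem hη]
        have : (fun x => (x, η)) ⁻¹' T = (fun x => x + (-(η • v))) ⁻¹' A := by
          ext x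
          simp only [hT, mem_preimage, mem_ofPred_eq, hη, true_and, sub_eq_add_neg]
        rw [this, measure_preimage_add_right]
      · rw [Set.indicator_of_notMem hη]
        have : (fun x => (x, η)) ⁻¹' T = ∅ := by
          ext x
          simp only [hT, mem_preimage, mem_ofPred_eq, mem_empty_iff_false, iff_false]
          exact fun h => hη h.1
        rw [this, measure_empty]
    simp only [e1]
    rw [lintegral_indicator_const measurableSet_Icc, Real.volume_Icc, mul_comm]
    congr 2; ring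
  have hup : (μ.prod volume) T ≤ ENNReal.ofReal (2*τ) * μ (Metric.closedBall 0 (3*h)) := by
    rw [Measure.prod_apply hTm]
    calc ∫⁻ w, volume (Prod.mk w ⁻¹' T) ∂μ
        ≤ ∫⁻ w, (Metric.closedBall (0:E) (3*h)).indicator (fun _ => ENNReal.ofReal (2*τ)) w ∂μ := by
          apply lintegral_mono
          intro w
          by_cases hw : w ∈ Metric.closedBall (0:E) (3*h)
          · rw [Set.indicator_of_mem hw]
            have hsub : Prod.mk w ⁻¹' T ⊆ Icc (ℓ w - τ) (ℓ w + τ) := by
              rintro η ⟨_, h1, _⟩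
              simp only [map_sub, map_smul, hℓv, smul_eq_mul, mul_one] at h1
              have := abs_le.mp h1
              constructor <;> linarith [this.1, this.2]
            refine (measure_mono hsub).trans ?_
            rw [Real.volume_Icc]
            apply ENNReal.ofReal_le_ofReal; linarith
          · rw [Set.indicator_of_notMem hw]
            have : Prod.mk w ⁻¹' T = ∅ := by
              ext η
              simp only [mem_preimage, mem_empty_iff_false, iff_false]
              rintro ⟨h1, _, h3⟩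
              apply hw
              rw [mem_closedBall_zero_iff]
              have h4 : |η| ≤ h := abs_le.mpr h1
              have h3' : ‖w - η • v‖ ≤ h := h3
              calc ‖w‖ = ‖(w - η • v) + η • v‖ := by rw [sub_add_cancel]
                _ ≤ ‖w - η • v‖ + ‖η • v‖ := norm_add_le _ _
                _ ≤ h + h * 2 := by
                    rw [norm_smul, Real.norm_eq_abs]; gcongr
                _ = 3*h := by ring
            simp only [this, measure_empty]
            exact zero_le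
      _ = _ := by rw [lintegral_indicator_const Metric.isClosed_closedBall.measurableSet]
  have hcomb : ENNReal.ofReal (2*h) * μ A ≤
      ENNReal.ofReal (2*h) * ENNReal.ofReal (κ * 3^(finrank ℝ E) * τ * h^(finrank ℝ E - 1)) := by
    rw [hlow]
    refine hup.trans (le_of_eq ?_)
    rw [Measure.addHaar_closedBall μ _ (by positivity), ← ENNReal.ofReal_mul (by positivity),
      ← ENNReal.ofReal_toReal hκfin, ← hκ, ← ENNReal.ofReal_mul (by positivity),
      ← ENNReal.ofReal_mul (by positivity)]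
    congr 1
    have : h ^ finrank ℝ E = h * h^(finrank ℝ E - 1) := by
      rw [← pow_succ', Nat.sub_add_cancel hd]
    rw [mul_pow, this]; ring
  have hne : ENNReal.ofReal (2*h) ≠ 0 := by simpa using hh
  exact (ENNReal.mul_le_mul_iff_right hne ENNReal.ofReal_ne_top).mp hcomb

section centered

variable {K : Set E} (hK : Convex ℝ K) (hc : IsCompact K) {r : ℝ} (hr : 0 < r)
  (hball : Metric.ball 0 r ⊆ K)

include hK hc hr hball in
/-- the layer near a boundary point has volume at least proportional to the depth (centered) -/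
theorem layer_lower0 (hd : 0 < finrank ℝ E) {p₀ : E} (hp : p₀ ∈ frontier K) {δ : ℝ} (hδ : 0 < δ) :
    ∃ c > (0:ℝ), ∃ l₀ > (0:ℝ), ∀ l, 0 < l → l ≤ l₀ →
      ENNReal.ofReal (c * l) ≤ μ {x ∈ K | dist x p₀ < δ ∧ Metric.infDist x Kᶜ ≤ l} := by
  have hnhds := nhds_of_ball hr hball
  have hgc := gauge_cont hK hr hball
  have hg1 : gauge K p₀ = 1 := (gauge_eq_one_iff_mem_frontier hK hnhds).mpr hp
  set Γ : Set E := {x | 0 < gauge K x ∧ dist ((gauge K x)⁻¹ • x) p₀ < δ/2} with hΓ
  have hΓo : IsOpen Γ := by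
    have h1 : IsOpen {x : E | 0 < gauge K x} := isOpen_lt continuous_const hgc
    have h2 : ContinuousOn (fun x => dist ((gauge K x)⁻¹ • x) p₀) {x : E | 0 < gauge K x} := by
      have h3 : ContinuousOn (fun x => (gauge K x)⁻¹ • x) {x : E | 0 < gauge K x} :=
        (hgc.continuousOn.inv₀ (fun x hx => (ne_of_gt hx))).smul continuousOn_id
      exact (continuous_id.dist continuous_const).comp_continuousOn h3
    exact h2.isOpen_inter_preimage h1 (t := Iio (δ/2)) isOpen_Iio
  have hpΓ : p₀ ∈ Γ := by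
    refine ⟨by rw [hg1]; norm_num, ?_⟩
    rw [hg1, inv_one, one_smul, dist_self]; linarith
  have hΓcone : ∀ {a : ℝ}, 0 < a → ∀ x, a • x ∈ Γ ↔ x ∈ Γ := by
    intro a ha x
    simp only [hΓ, mem_ofPred_eq]
    rw [gauge_smul' hK hr hball ha.le]
    have e1 : (a * gauge K x)⁻¹ • a • x = (gauge K x)⁻¹ • x := by
      rw [smul_smul, mul_inv]
      congr 1
      field_simp
    rw [e1]
    constructor
    · rintro ⟨h1, h2⟩
      exact ⟨pos_of_mul_pos_right h1 ha.le |>.trans_le le_rfl, h2⟩
    · rintro ⟨h1, h2⟩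
      exact ⟨mul_pos ha h1, h2⟩
  set W := Γ ∩ K with hW
  have hKint : (interior K).Nonempty := ⟨0, mem_interior_iff_mem_nhds.mpr hnhds⟩
  have hWpos : 0 < μ W := by
    have hopen : IsOpen (Γ ∩ interior K) := hΓo.inter isOpen_interior
    have hne : (Γ ∩ interior K).Nonempty := by
      have h1 : p₀ ∈ closure (interior K) := by
        rw [hK.closure_interior_eq_closure_of_nonempty_interior hKint]
        exact frontier_subset_closure hp
      exact mem_closure_iff.mp h1 Γ hΓo hpΓ
    exact (hopen.measure_pos μ hne).trans_le (measure_mono (inter_subset_inter_right _ interior_subset))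
  have hWfin : μ W ≠ ∞ := ((measure_mono inter_subset_right).trans_lt hc.measure_lt_top).ne
  have hWreal : 0 < (μ W).toReal := ENNReal.toReal_pos hWpos.ne' hWfin
  obtain ⟨D, hDpos, hD⟩ := hc.isBounded.subset_closedBall_lt 0 0
  refine ⟨(μ W).toReal / D, by positivity, min (δ/2) (D/2), lt_min (by positivity) (by positivity),
    ?_⟩
  intro l hl0 hl
  have hlδ : l ≤ δ/2 := hl.trans (min_le_left _ _)
  have hlD : l ≤ D/2 := hl.trans (min_le_right _ _)
  set ε := l / D with hε
  have hε0 : 0 < ε := by positivity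
  have hε1 : ε ≤ 1/2 := by rw [hε, div_le_iff₀ hDpos]; linarith
  have hsub : W \ {x | gauge K x ≤ 1 - ε} ⊆
      {x ∈ K | dist x p₀ < δ ∧ Metric.infDist x Kᶜ ≤ l} := by
    rintro x ⟨⟨⟨hx1, hx2⟩, hxK⟩, hx3⟩
    have hx3' : 1 - ε < gauge K x := not_le.mp hx3
    have hxle : gauge K x ≤ 1 := (mem_iff_gauge hK hr hball hc.isClosed x).mp hxK
    set x' := (gauge K x)⁻¹ • x with hx'
    have hgx' : gauge K x' = 1 := by
      rw [hx', gauge_smul' hK hr hball (by positivity), inv_mul_cancel₀ hx1.ne']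
    have hx'f : x' ∈ frontier K := (gauge_eq_one_iff_mem_frontier hK hnhds).mp hgx'
    have hx'K : x' ∈ K := by
      rw [mem_iff_gauge hK hr hball hc.isClosed, hgx']
    have hdist : dist x x' ≤ l := by
      have e1 : x = gauge K x • x' := by
        rw [hx', smul_smul, mul_inv_cancel₀ hx1.ne', one_smul]
      have e2 : x - x' = (gauge K x - 1) • x' := by
        rw [sub_smul, one_smul, ← e1]
      rw [dist_eq_norm, e2, norm_smul, Real.norm_eq_abs, abs_of_nonpos (by linarith)]
      have hx'D : ‖x'‖ ≤ D := by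
        have := hD hx'K
        rwa [mem_closedBall_zero_iff] at this
      calc -(gauge K x - 1) * ‖x'‖ ≤ ε * D := by
            apply mul_le_mul _ hx'D (norm_nonneg _) hε0.le
            linarith
        _ = l := by rw [hε]; field_simp
    refine ⟨hxK, ?_, ?_⟩
    · calc dist x p₀ ≤ dist x x' + dist x' p₀ := dist_triangle _ _ _
        _ < l + δ/2 := by linarith
        _ ≤ δ := by linarith
    · rw [← Metric.infDist_closure]
      refine (Metric.infDist_le_dist_of_mem (y := x') ?_).trans hdist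
      rw [frontier_eq_closure_inter_closure] at hx'f
      exact hx'f.2
  refine le_trans ?_ (measure_mono hsub)
  have hWm : MeasurableSet W := hΓo.measurableSet.inter hc.isClosed.measurableSet
  have hlev : MeasurableSet {x | gauge K x ≤ 1 - ε} := (isClosed_le hgc continuous_const).measurableSet
  have e1 : W ∩ {x | gauge K x ≤ 1 - ε} = {x | (1-ε)⁻¹ • (x - 0) ∈ W} := by
    ext x
    simp only [sub_zero, hW, mem_inter_iff, mem_ofPred_eq]
    rw [hΓcone (by rw [inv_pos]; linarith), mem_iff_gauge hK hr hball hc.isClosed,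
      mem_iff_gauge hK hr hball hc.isClosed, gauge_smul' hK hr hball (by
        rw [inv_nonneg]; linarith), inv_mul_le_iff₀ (by linarith), mul_one]
    constructor
    · rintro ⟨⟨h1, _⟩, h3⟩; exact ⟨h1, h3⟩
    · rintro ⟨h1, h3⟩; exact ⟨⟨h1, by linarith⟩, h3⟩
  have e2 : μ (W ∩ {x | gauge K x ≤ 1 - ε}) = ENNReal.ofReal ((1-ε)^(finrank ℝ E)) * μ W := by
    have hne : (1-ε)⁻¹ ≠ 0 := by
      rw [ne_eq, inv_eq_zero]; linarith
    rw [e1, vol_scaled μ hne, inv_pow, inv_inv, abs_of_nonneg (pow_nonneg (by linarith) _)]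
  have e3 : μ W = μ (W ∩ {x | gauge K x ≤ 1 - ε}) + μ (W \ {x | gauge K x ≤ 1 - ε}) :=
    (measure_inter_add_sdiff W hlev).symm
  have e4 : μ (W ∩ {x | gauge K x ≤ 1 - ε}) ≤ ENNReal.ofReal ((1 - ε) * (μ W).toReal) := by
    rw [e2, ENNReal.ofReal_mul (by linarith), ENNReal.ofReal_toReal hWfin]
    gcongr
    calc (1-ε)^(finrank ℝ E) ≤ (1-ε)^1 := pow_le_pow_of_le_one (by linarith) (by linarith) hd
      _ = 1 - ε := pow_one _
  have e5 : ENNReal.ofReal ((μ W).toReal) ≤ ENNReal.ofReal ((1 - ε) * (μ W).toReal) +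
      μ (W \ {x | gauge K x ≤ 1 - ε}) := by
    rw [ENNReal.ofReal_toReal hWfin]
    calc μ W = _ := e3
      _ ≤ _ := by gcongr
  have e6 : ENNReal.ofReal ((μ W).toReal) = ENNReal.ofReal ((1 - ε) * (μ W).toReal) +
      ENNReal.ofReal (ε * (μ W).toReal) := by
    rw [← ENNReal.ofReal_add (mul_nonneg (by linarith) hWreal.le) (by positivity)]
    congr 1; ring
  rw [e6] at e5
  have e7 := (ENNReal.add_le_add_iff_left ENNReal.ofReal_ne_top).mp e5
  refine le_trans (le_of_eq ?_) e7
  congr 1
  rw [hε]; ring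

end centered

/-- the layer near a boundary point has volume at least proportional to the depth -/
theorem layer_lower {K : Set E} (hK : IsBody K) (hd : 0 < finrank ℝ E) {p₀ : E}
    (hp : p₀ ∈ frontier K) {δ : ℝ} (hδ : 0 < δ) :
    ∃ c > (0:ℝ), ∃ l₀ > (0:ℝ), ∀ l, 0 < l → l ≤ l₀ →
      ENNReal.ofReal (c * l) ≤ μ {x ∈ K | dist x p₀ < δ ∧ Metric.infDist x Kᶜ ≤ l} := by
  obtain ⟨x₀, hx₀⟩ := hK.int
  obtain ⟨r, hr, hball⟩ := Metric.isOpen_iff.mp isOpen_interior x₀ hx₀
  set φ : E ≃ₜ E := Homeomorph.addRight x₀ with hφ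
  have hφx : ∀ x, φ x = x + x₀ := fun x => rfl
  set K' : Set E := φ ⁻¹' K with hK'
  have hconv' : Convex ℝ K' := by
    have := hK.convex.translate_preimage_right x₀
    convert this using 1
    ext x; simp [hK', hφx, add_comm]
  have hcomp' : IsCompact K' := φ.isCompact_preimage.mpr hK.compact
  have hball' : Metric.ball 0 r ⊆ K' := by
    intro y hy
    rw [mem_ball_zero_iff] at hy
    show φ y ∈ K
    rw [hφx]
    apply interior_subset
    apply hball
    rw [Metric.mem_ball, dist_eq_norm, add_sub_cancel_right]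
    exact hy
  have hfr : p₀ - x₀ ∈ frontier K' := by
    rw [hK', ← φ.preimage_frontier]
    show φ (p₀ - x₀) ∈ frontier K
    rw [hφx, sub_add_cancel]; exact hp
  obtain ⟨c, hcpos, l₀, hl₀, h⟩ := layer_lower0 μ hconv' hcomp' hr hball' hd hfr hδ
  refine ⟨c, hcpos, l₀, hl₀, fun l h1 h2 => (h l h1 h2).trans (le_of_eq ?_)⟩
  have hinf : ∀ x, Metric.infDist x K'ᶜ = Metric.infDist (x + x₀) Kᶜ := by
    intro x
    have e : (fun y => y + x₀) '' K'ᶜ = Kᶜ := by
      ext y
      constructor
      · rintro ⟨z, hz, rfl⟩; exact hz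
      · intro hy
        refine ⟨y - x₀, ?_, sub_add_cancel _ _⟩
        show ¬ (φ (y - x₀) ∈ K)
        rw [hφx, sub_add_cancel]; exact hy
    rw [← e]
    exact (Metric.infDist_image (isometry_add_right x₀)).symm
  have : {x ∈ K' | dist x (p₀ - x₀) < δ ∧ Metric.infDist x K'ᶜ ≤ l} =
      (fun x => x + x₀) ⁻¹' {x ∈ K | dist x p₀ < δ ∧ Metric.infDist x Kᶜ ≤ l} := by
    ext x
    simp only [mem_ofPred_eq, mem_preimage]
    rw [hinf]
    have e1 : dist x (p₀ - x₀) = dist (x + x₀) p₀ := by
      rw [dist_eq_norm, dist_eq_norm]; congr 1; abel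
    rw [e1]
    rfl
  rw [this, measure_preimage_add_right]

end RPoly
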