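import Pool.Agent.Lib_helper50.RP.WetLow

open MeasureTheory Set Module Filter
open scoped ENNReal Pointwise Topology NNReal

set_option linter.unusedSectionVars false

namespace RPoly

variable {E : Type*} [NormedAddCommGroup E] [NormedSpace ℝ E]

variable [MeasurableSpace E] [BorelSpace E] [FiniteDimensional ℝ E] (μ : Measure E)
  [μ.IsAddHaarMeasure]

/-- `w` bounds the volumes of (enlarged) caps through interior points, and is small on a large
set. -/
structure WetLower (K : Set E) (M : ℝ) (w : E → ℝ) : Prop where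
  meas : Measurable w
  nonneg : ∀ x, 0 ≤ w x
  cap : ∀ x ∈ interior K, ∃ ℓ : E →L[ℝ] ℝ, ∃ c : ℝ, (∀ y ∈ K, ℓ y ≤ c) ∧ ℓ x < c ∧
    μ {y ∈ K | c - ℓ y ≤ M * (c - ℓ x)} ≤ ENNReal.ofReal (w x)
  vol : ∃ c > (0:ℝ), ∀ σ, 0 < σ →
    ENNReal.ofReal (c * min 1 (σ^2)) ≤ μ {x ∈ K | w x ≤ σ^(finrank ℝ E + 1)}

lemma IsSmoothBody.isBody {K : Set E} (hK : IsSmoothBody K) : IsBody K :=
  ⟨hK.convex, hK.compact, hK.interior_nonempty⟩

lemma cap_OB (hd : 0 < finrank ℝ E) {K : Set E} {q : E} {R : ℝ} (hR : 0 < R) {ℓ : E →L[ℝ] ℝ}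
    (hℓ : ‖ℓ‖ = 1) (h : ∀ y ∈ K, ‖y - q‖^2 ≤ R * ℓ (q - y)) {s : ℝ} (hs : 0 < s) :
    μ {y ∈ K | ℓ q - ℓ y ≤ s} ≤ ENNReal.ofReal ((μ (Metric.ball 0 1)).toReal * 3^(finrank ℝ E) *
      s * (Real.sqrt (R * s))^(finrank ℝ E - 1)) := by
  have hsub : {y ∈ K | ℓ q - ℓ y ≤ s} ⊆ (fun y => y + (-q)) ⁻¹'
      {a | |ℓ a| ≤ s ∧ ‖a‖ ≤ Real.sqrt (R * s)} := by
    rintro y ⟨hy, hys⟩
    have h1 := h y hy
    rw [map_sub] at h1
    have h2 : 0 ≤ ℓ q - ℓ y := by
      by_contra hcon
      push Not at hcon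
      have : R * (ℓ q - ℓ y) < 0 := mul_neg_of_pos_of_neg hR hcon
      have : 0 ≤ ‖y - q‖^2 := by positivity
      linarith
    simp only [mem_preimage, mem_ofPred_eq, ← sub_eq_add_neg]
    constructor
    · rw [map_sub, abs_sub_comm, abs_of_nonneg h2]; exact hys
    · apply Real.le_sqrt_of_sq_le
      calc ‖y - q‖^2 ≤ R * (ℓ q - ℓ y) := h1
        _ ≤ R * s := by gcongr
  refine (measure_mono hsub).trans ?_
  rw [measure_preimage_add_right]
  exact slab_bound μ hd hℓ hs.le (Real.sqrt_pos.mpr (by positivity))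

theorem exists_wetLower {K : Set E} (hK : IsSmoothBody K) (hd : 0 < finrank ℝ E) {M : ℝ}
    (hM : 0 < M) : ∃ w, WetLower μ K M w := by
  classical
  have hB := hK.isBody
  obtain ⟨p₀, hp₀, δ, hδ, R, hR, hOB⟩ := hK.exists_patch hd
  set κ := (μ (Metric.ball (0:E) 1)).toReal with hκ
  set d := finrank ℝ E with hdd
  set V := (μ K).toReal with hV
  have hVpos : 0 < V := toReal_pos μ hB
  set t : E → ℝ := fun x => Metric.infDist x Kᶜ with ht
  have htc : Continuous t := Metric.continuous_infDist_pt _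
  set U : Set E := {x | dist x p₀ < δ/2 ∧ t x < δ/2} with hU
  have hUo : IsOpen U := by
    have h1 : IsOpen {x : E | dist x p₀ < δ/2} := isOpen_lt (by fun_prop) continuous_const
    exact h1.inter (isOpen_lt htc continuous_const)
  set C₀ := κ * 3^d * M * (Real.sqrt (R * M))^(d-1) with hC₀
  have hC₀0 : 0 ≤ C₀ := by positivity
  have hKne : (Kᶜ : Set E).Nonempty := by
    rw [nonempty_compl]
    intro h
    have : Nontrivial E := finrank_pos_iff.mp hd
    exact (noncompact_univ E) (h ▸ hK.compact)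
  refine ⟨fun x => if x ∈ U then C₀ * (Real.sqrt (t x))^(d+1) else V, ?_, ?_, ?_, ?_⟩
  · apply Measurable.ite hUo.measurableSet _ measurable_const
    exact ((htc.measurable.sqrt).pow_const _).const_mul _
  · intro x
    split_ifs
    · positivity
    · exact hVpos.le
  · intro x hx
    by_cases hxU : x ∈ U
    · simp only [hxU, if_true]
      obtain ⟨q, hq, hdist⟩ := Metric.exists_mem_closure_infDist_eq_dist hKne x
      have htx : t x = dist x q := hdist
      have hball : Metric.ball x (t x) ⊆ K := Metric.ball_infDist_compl_subset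
      have htpos : 0 < t x := by
        rw [ht]
        simp only
        rw [← Metric.infDist_closure, closure_compl]
        rw [← (isOpen_interior.isClosed_compl).notMem_iff_infDist_pos]
        · simpa using hx
        · exact hKne.mono (compl_subset_compl.mpr interior_subset)
      have hqK : q ∈ K := by
        have h1 : q ∈ closure (Metric.ball x (t x)) := by
          rw [closure_ball _ htpos.ne', Metric.mem_closedBall, dist_comm, ← htx]
        have h2 := closure_mono hball h1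
        rwa [hK.compact.isClosed.closure_eq] at h2
      have hqf : q ∈ frontier K := by
        rw [frontier_eq_closure_inter_closure]
        exact ⟨subset_closure hqK, hq⟩
      have hqp : dist q p₀ < δ := by
        calc dist q p₀ ≤ dist q x + dist x p₀ := dist_triangle _ _ _
          _ < δ/2 + δ/2 := by
              rw [dist_comm q x, ← htx]
              exact add_lt_add hxU.2 hxU.1
          _ = δ := by ring
      obtain ⟨ℓ, hℓ, hcap⟩ := hOB q hqf hqp
      have hℓ0 : ℓ ≠ 0 := by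
        intro h0; rw [h0, norm_zero] at hℓ; exact zero_ne_one hℓ
      have hle : ∀ y ∈ K, ℓ y ≤ ℓ q := by
        intro y hy
        have h1 := hcap y hy
        rw [map_sub] at h1
        by_contra hcon
        push Not at hcon
        have : R * (ℓ q - ℓ y) < 0 := mul_neg_of_pos_of_neg hR (by linarith)
        have : 0 ≤ ‖y - q‖^2 := by positivity
        linarith
      obtain ⟨y1, hy1, hy1x⟩ := exists_gt_of_interior hx hℓ0
      have hlt : ℓ x < ℓ q := hy1x.trans_le (hle y1 hy1)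
      refine ⟨ℓ, ℓ q, hle, hlt, ?_⟩
      have hs : 0 < M * (ℓ q - ℓ x) := mul_pos hM (by linarith)
      refine (cap_OB μ hd hR hℓ hcap hs).trans ?_
      apply ENNReal.ofReal_le_ofReal
      have h1 : ℓ q - ℓ x ≤ t x := by
        rw [← map_sub]
        calc ℓ (q - x) ≤ ‖ℓ (q - x)‖ := le_abs_self _
          _ ≤ ‖ℓ‖ * ‖q - x‖ := ℓ.le_opNorm _
          _ = t x := by rw [hℓ, one_mul, htx, dist_comm, dist_eq_norm]
      have h2 : Real.sqrt (R * (M * (ℓ q - ℓ x))) ≤ Real.sqrt (R * M) * Real.sqrt (t x) := by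
        rw [← Real.sqrt_mul (by positivity)]
        apply Real.sqrt_le_sqrt
        calc R * (M * (ℓ q - ℓ x)) = R * M * (ℓ q - ℓ x) := by ring
          _ ≤ R * M * t x := by gcongr
      have h3 : (Real.sqrt (t x))^(d+1) = t x * (Real.sqrt (t x))^(d-1) := by
        have : d + 1 = 2 + (d - 1) := by omega
        rw [this, pow_add, Real.sq_sqrt htpos.le]
      have h4 : 0 ≤ ℓ q - ℓ x := by linarith
      calc κ * 3^d * (M * (ℓ q - ℓ x)) * (Real.sqrt (R * (M * (ℓ q - ℓ x))))^(d-1)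
          ≤ κ * 3^d * (M * t x) * (Real.sqrt (R * M) * Real.sqrt (t x))^(d-1) := by
            gcongr
        _ = C₀ * (Real.sqrt (t x))^(d+1) := by
            rw [h3, hC₀, mul_pow]; ring
    · simp only [hxU, if_false]
      have : Nontrivial E := finrank_pos_iff.mp hd
      obtain ⟨v, hv⟩ := exists_ne (0:E)
      obtain ⟨ℓ, hℓ, -⟩ := exists_dual_vector ℝ v (norm_ne_zero_iff.mpr hv)
      have hℓ0 : ℓ ≠ 0 := by
        intro h0; rw [h0, norm_zero] at hℓ; exact zero_ne_one hℓ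
      obtain ⟨ys, hys, hmax⟩ := hK.compact.exists_isMaxOn ⟨x, interior_subset hx⟩
        ℓ.continuous.continuousOn
      obtain ⟨y1, hy1, hy1x⟩ := exists_gt_of_interior hx hℓ0
      refine ⟨ℓ, ℓ ys, fun y hy => hmax hy, hy1x.trans_le (hmax hy1), ?_⟩
      rw [hV, ENNReal.ofReal_toReal (hB.fin μ)]
      exact measure_mono (fun y hy => hy.1)
  · obtain ⟨c₁, hc₁, l₀, hl₀, hlay⟩ := layer_lower μ hB hd hp₀ (δ := δ/2) (by positivity)
    set ρ := 1/(C₀+1) with hρ
    have hρ0 : 0 < ρ := by positivity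
    have hρ1 : ρ ≤ 1 := by
      rw [hρ, div_le_one (by positivity)]; linarith
    have hCρ : C₀ * ρ^(d+1) ≤ 1 := by
      calc C₀ * ρ^(d+1) ≤ C₀ * ρ^1 := by
            gcongr C₀ * ?_
            exact pow_le_pow_of_le_one hρ0.le hρ1 (by omega)
        _ = C₀ / (C₀+1) := by rw [pow_one, hρ]; ring
        _ ≤ 1 := by rw [div_le_one (by positivity)]; linarith
    set σ₀ := min 1 (min l₀ (δ/4)) with hσ₀
    have hσ₀0 : 0 < σ₀ := lt_min one_pos (lt_min hl₀ (by positivity))
    have hσ₀1 : σ₀ ≤ 1 := min_le_left _ _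
    have key : ∀ σ, 0 < σ → σ ≤ σ₀ → ENNReal.ofReal (c₁ * (ρ*σ)^2) ≤
        μ {x ∈ K | (if x ∈ U then C₀ * (Real.sqrt (t x))^(d+1) else V) ≤ σ^(d+1)} := by
      intro σ hσ hσσ₀
      have h1 : (ρ*σ)^2 ≤ σ := by
        have h2 : ρ * σ ≤ σ := by nlinarith
        have h3 : σ ≤ 1 := hσσ₀.trans hσ₀1
        nlinarith [mul_pos hρ0 hσ]
      have hl1 : (ρ*σ)^2 ≤ l₀ := h1.trans (hσσ₀.trans ((min_le_right _ _).trans (min_le_left _ _)))
      have hl2 : (ρ*σ)^2 ≤ δ/4 := h1.trans (hσσ₀.trans ((min_le_right _ _).trans (min_le_right _ _)))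
      refine (hlay _ (by positivity) hl1).trans (measure_mono ?_)
      rintro x ⟨hxK, hx1, hx2⟩
      have hx2' : t x ≤ (ρ*σ)^2 := hx2
      have hxU : x ∈ U := ⟨hx1, by linarith⟩
      refine ⟨hxK, ?_⟩
      simp only [hxU, if_true]
      have hs : Real.sqrt (t x) ≤ ρ * σ := by
        rw [Real.sqrt_le_left (by positivity)]; exact hx2'
      calc C₀ * (Real.sqrt (t x))^(d+1) ≤ C₀ * (ρ*σ)^(d+1) := by gcongr
        _ = (C₀ * ρ^(d+1)) * σ^(d+1) := by rw [mul_pow]; ring
        _ ≤ 1 * σ^(d+1) := by gcongr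
        _ = σ^(d+1) := one_mul _
    refine ⟨c₁ * (ρ*σ₀)^2, by positivity, fun σ hσ => ?_⟩
    by_cases hle : σ ≤ σ₀
    · refine le_trans (ENNReal.ofReal_le_ofReal ?_) (key σ hσ hle)
      have h1 : min 1 (σ^2) ≤ σ^2 := min_le_right _ _
      calc c₁ * (ρ*σ₀)^2 * min 1 (σ^2) ≤ c₁ * (ρ*σ₀)^2 * σ^2 := by gcongr
        _ = c₁ * (ρ*σ)^2 * σ₀^2 := by ring
        _ ≤ c₁ * (ρ*σ)^2 * 1 := by
            gcongr
            nlinarith
        _ = _ := mul_one _
    · push Not at hle
      calc ENNReal.ofReal (c₁ * (ρ*σ₀)^2 * min 1 (σ^2)) ≤ ENNReal.ofReal (c₁ * (ρ*σ₀)^2) := by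
            apply ENNReal.ofReal_le_ofReal
            calc c₁ * (ρ*σ₀)^2 * min 1 (σ^2) ≤ c₁ * (ρ*σ₀)^2 * 1 := by
                  gcongr
                  exact min_le_left _ _
              _ = _ := mul_one _
        _ ≤ _ := key σ₀ hσ₀0 le_rfl
        _ ≤ _ := by
            apply measure_mono
            rintro x ⟨hxK, hx⟩
            exact ⟨hxK, hx.trans (by gcongr)⟩

end RPoly
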